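import Pool.Agent.H921S.Stm

/-!
Task CARD: the number of `k`-clauses.
-/

set_option autoImplicit false

namespace Pool.Agent.H921S

open Finset
open scoped Classical

/-- the clause with variables `S` and signs `s` -/
noncomputable def CARD_f (k n : ℕ) (x : Σ S : {S : Finset (Fin n) // S.card = k}, (S.1 → Bool)) :
    Clause k n where
  lits := (univ : Finset {v // v ∈ x.1.1}).image fun v : {v // v ∈ x.1.1} => ((v : Fin n), x.2 v)
  card_lits := by
    rw [card_image_of_injective, card_univ, Fintype.card_coe, x.1.2]
    intro v w h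
    exact Subtype.ext (Prod.ext_iff.1 h).1
  distinct := by
    intro l hl l' hl' h
    rw [mem_image] at hl hl'
    obtain ⟨v, -, rfl⟩ := hl
    obtain ⟨w, -, rfl⟩ := hl'
    have h1 : v = w := Subtype.ext h
    rw [h1]

theorem CARD_bij (k n : ℕ) : Function.Bijective (CARD_f k n) := by
  constructor
  · rintro ⟨⟨S, hS⟩, s⟩ ⟨⟨T, hT⟩, t⟩ h
    have hl : (univ : Finset {x // x ∈ S}).image (fun v : {x // x ∈ S} => ((v : Fin n), s v)) =
        (univ : Finset {x // x ∈ T}).image (fun v : {x // x ∈ T} => ((v : Fin n), t v)) := congrArg Clause.lits h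
    have hmem : ∀ (v : Fin n) (b : Bool), (∃ hv : v ∈ S, s ⟨v, hv⟩ = b) ↔
        (∃ hv : v ∈ T, t ⟨v, hv⟩ = b) := by
      intro v b
      have h1 : (v, b) ∈ (univ : Finset {x // x ∈ S}).image (fun v : {x // x ∈ S} => ((v : Fin n), s v)) ↔
          ∃ hv : v ∈ S, s ⟨v, hv⟩ = b := by
        rw [mem_image]
        constructor
        · rintro ⟨w, -, hw⟩
          have h2 := (Prod.ext_iff.1 hw).1
          have h3 := (Prod.ext_iff.1 hw).2
          simp only at h2 h3
          subst h2
          exact ⟨w.2, h3⟩
        · rintro ⟨hv, hb⟩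
          exact ⟨⟨v, hv⟩, mem_univ _, by rw [hb]⟩
      have h2 : (v, b) ∈ (univ : Finset {x // x ∈ T}).image (fun v : {x // x ∈ T} => ((v : Fin n), t v)) ↔
          ∃ hv : v ∈ T, t ⟨v, hv⟩ = b := by
        rw [mem_image]
        constructor
        · rintro ⟨w, -, hw⟩
          have h2 := (Prod.ext_iff.1 hw).1
          have h3 := (Prod.ext_iff.1 hw).2
          simp only at h2 h3
          subst h2
          exact ⟨w.2, h3⟩
        · rintro ⟨hv, hb⟩
          exact ⟨⟨v, hv⟩, mem_univ _, by rw [hb]⟩
      rw [← h1, ← h2, hl]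
    have hST : S = T := by
      ext v
      constructor
      · intro hv
        exact ((hmem v (s ⟨v, hv⟩)).1 ⟨hv, rfl⟩).1
      · intro hv
        exact ((hmem v (t ⟨v, hv⟩)).2 ⟨hv, rfl⟩).1
    subst hST
    have hst : s = t := by
      funext ⟨v, hv⟩
      obtain ⟨hv', h1⟩ := (hmem v (s ⟨v, hv⟩)).1 ⟨hv, rfl⟩
      exact h1.symm
    subst hst
    rfl
  · intro C
    have hinj : Set.InjOn Prod.fst (C.lits : Set (Lit n)) := fun l hl l' hl' h =>
      C.distinct l hl l' hl' h
    refine ⟨⟨⟨C.lits.image Prod.fst, ?_⟩, fun v => decide (((v : Fin n), true) ∈ C.lits)⟩, ?_⟩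
    · rw [card_image_of_injOn hinj, C.card_lits]
    · apply Clause.ext
      show (univ : Finset {x // x ∈ C.lits.image Prod.fst}).image
        (fun v : {x // x ∈ C.lits.image Prod.fst} => ((v : Fin n), decide (((v : Fin n), true) ∈ C.lits))) = C.lits
      ext ⟨v, b⟩
      rw [mem_image]
      constructor
      · rintro ⟨⟨w, hw⟩, -, h⟩
        have h2 := (Prod.ext_iff.1 h).1
        have h3 := (Prod.ext_iff.1 h).2
        simp only at h2 h3
        subst h2
        obtain ⟨⟨w', c⟩, hl, hw'⟩ := mem_image.1 hw
        simp only at hw'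
        subst hw'
        rcases c with _ | _
        · by_cases ht : (w', true) ∈ C.lits
          · have := C.distinct _ hl _ ht rfl
            simp at this
          · rw [← h3]
            simp only [ht, decide_false]
            exact hl
        · rw [← h3]
          simp only [hl, decide_true]
      · intro hl
        refine ⟨⟨v, mem_image.2 ⟨_, hl, rfl⟩⟩, mem_univ _, ?_⟩
        refine Prod.ext rfl ?_
        simp only
        rcases b with _ | _
        · by_cases ht : (v, true) ∈ C.lits
          · have := C.distinct _ hl _ ht rfl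
            simp at this
          · simp [ht]
        · simp [hl]

theorem CARD_thm : T_CARD := by
  intro k n
  rw [← Fintype.card_of_bijective (CARD_bij k n), Fintype.card_sigma]
  have h1 : ∀ S : {S : Finset (Fin n) // S.card = k}, Fintype.card (S.1 → Bool) = 2 ^ k := by
    intro S
    rw [Fintype.card_fun, Fintype.card_bool, Fintype.card_coe, S.2]
  simp only [h1, sum_const, card_univ, smul_eq_mul]
  rw [Fintype.card_finset_len, Fintype.card_fin, mul_comm]

end Pool.Agent.H921S
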