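import Pool.Agent.H921S.Stm

set_option autoImplicit false

namespace Pool.Agent.H921S

open Finset
open scoped Classical

noncomputable section

section SUBS

variable {Ω : Type} [Fintype Ω] [DecidableEq Ω]

private lemma SUBS_mem (σ : Ord Ω) (m : ℕ) (x : Ω) : x ∈ st σ m ↔ (σ.symm x : ℕ) < m := by
  unfold st
  simp

private lemma SUBS_card (σ : Ord Ω) (m : ℕ) (hm : m ≤ Fintype.card Ω) : (st σ m).card = m := by
  have h1 : (st σ m).card = (univ.filter (fun i : Fin (Fintype.card Ω) => (i : ℕ) < m)).card := by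
    refine Finset.card_bij (fun x _ => σ.symm x) ?_ ?_ ?_
    · intro x hx
      rw [SUBS_mem] at hx
      simpa using hx
    · intro x _ y _ h
      exact σ.symm.injective h
    · intro i hi
      refine ⟨σ i, ?_, by simp⟩
      rw [SUBS_mem]
      simpa using hi
  rw [h1, Fin.card_filter_val_lt]
  omega

/-- the number of orderings with `S` inside the first `m` elements -/
private def SUBS_c (m : ℕ) (S : Finset Ω) : ℝ := ∑ σ : Ord Ω, ind (S ⊆ st σ m)

private lemma SUBS_nonneg (m : ℕ) (S : Finset Ω) : 0 ≤ SUBS_c m S := by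
  unfold SUBS_c ind
  refine Finset.sum_nonneg fun σ _ => ?_
  split_ifs <;> norm_num

private lemma SUBS_swap (m : ℕ) (S : Finset Ω) (x y : Ω) (hx : x ∉ S) (hy : y ∉ S) :
    SUBS_c m (insert x S) = SUBS_c m (insert y S) := by
  unfold SUBS_c
  refine Fintype.sum_equiv (Equiv.equivCongr (Equiv.refl _) (Equiv.swap x y)) _ _ ?_
  intro σ
  congr 1
  apply propext
  have hmem : ∀ z, z ∈ st (Equiv.equivCongr (Equiv.refl _) (Equiv.swap x y) σ) m ↔
      Equiv.swap x y z ∈ st σ m := by
    intro z
    rw [SUBS_mem, SUBS_mem]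
    simp [Equiv.equivCongr]
  rw [Finset.insert_subset_iff, Finset.insert_subset_iff, hmem y, Equiv.swap_apply_right]
  refine and_congr_right fun _ => ?_
  constructor
  · intro h z hz
    rw [hmem z, Equiv.swap_apply_of_ne_of_ne (fun (h' : z = x) => hx (h' ▸ hz)) (fun (h' : z = y) => hy (h' ▸ hz))]
    exact h hz
  · intro h z hz
    have h1 := h hz
    rw [hmem z, Equiv.swap_apply_of_ne_of_ne (fun (h' : z = x) => hx (h' ▸ hz)) (fun (h' : z = y) => hy (h' ▸ hz))] at h1
    exact h1

private lemma SUBS_pt (σ : Ord Ω) (m : ℕ) (hm : m ≤ Fintype.card Ω) (S : Finset Ω) :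
    ∑ x ∈ univ \ S, ind (insert x S ⊆ st σ m) = ((m : ℝ) - S.card) * ind (S ⊆ st σ m) := by
  by_cases h : S ⊆ st σ m
  · have h1 : ∀ x ∈ univ \ S, ind (insert x S ⊆ st σ m) = if x ∈ st σ m then (1 : ℝ) else 0 := by
      intro x _
      unfold ind
      have : (insert x S ⊆ st σ m) ↔ x ∈ st σ m := by
        rw [Finset.insert_subset_iff]
        exact ⟨fun h' => h'.1, fun h' => ⟨h', h⟩⟩
      simp only [this]
    rw [Finset.sum_congr rfl h1, ← Finset.sum_filter, Finset.sum_const, nsmul_eq_mul, mul_one]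
    have h2 : (univ \ S).filter (fun x => x ∈ st σ m) = st σ m \ S := by
      ext x
      simp only [Finset.mem_filter, Finset.mem_sdiff, Finset.mem_univ, true_and]
      tauto
    have h3 : (st σ m \ S).card + S.card = m := by
      rw [Finset.card_sdiff_add_card_eq_card h, SUBS_card σ m hm]
    rw [h2]
    unfold ind
    rw [if_pos h, mul_one]
    have h4 : (((st σ m \ S).card : ℕ) : ℝ) + S.card = m := by exact_mod_cast h3
    linarith
  · have h1 : ∀ x ∈ univ \ S, ind (insert x S ⊆ st σ m) = (0 : ℝ) := by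
      intro x _
      unfold ind
      rw [if_neg]
      intro h'
      exact h ((Finset.subset_insert x S).trans h')
    rw [Finset.sum_congr rfl h1, Finset.sum_const_zero]
    unfold ind
    rw [if_neg h, mul_zero]

private lemma SUBS_step (m : ℕ) (hm : m ≤ Fintype.card Ω) (S : Finset Ω) (x : Ω) (hx : x ∉ S) :
    SUBS_c m (insert x S) ≤ (m : ℝ) / Fintype.card Ω * SUBS_c m S := by
  have hsN : S.card < Fintype.card Ω := by
    have h1 : (insert x S).card ≤ Fintype.card Ω := Finset.card_le_univ _
    rw [Finset.card_insert_of_notMem hx] at h1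
    omega
  have hsr : (S.card : ℝ) < Fintype.card Ω := by exact_mod_cast hsN
  have hNr : (0 : ℝ) < Fintype.card Ω := lt_of_le_of_lt (by positivity) hsr
  have hmr : (m : ℝ) ≤ Fintype.card Ω := by exact_mod_cast hm
  have h1 : ((Fintype.card Ω : ℝ) - S.card) * SUBS_c m (insert x S) =
      ((m : ℝ) - S.card) * SUBS_c m S := by
    have h2 : ∑ y ∈ univ \ S, SUBS_c m (insert y S) =
        ((Fintype.card Ω : ℝ) - S.card) * SUBS_c m (insert x S) := by
      have h3 : ∀ y ∈ univ \ S, SUBS_c m (insert y S) = SUBS_c m (insert x S) := by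
        intro y hy
        rw [Finset.mem_sdiff] at hy
        exact SUBS_swap m S y x hy.2 hx
      rw [Finset.sum_congr rfl h3, Finset.sum_const, nsmul_eq_mul]
      congr 1
      have h4 : (univ \ S).card + S.card = Fintype.card Ω := by
        rw [Finset.card_sdiff_add_card_eq_card (Finset.subset_univ S), Finset.card_univ]
      have h5 : (((univ \ S).card : ℕ) : ℝ) + S.card = Fintype.card Ω := by exact_mod_cast h4
      linarith
    rw [← h2]
    unfold SUBS_c
    rw [Finset.sum_comm, Finset.mul_sum]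
    exact Finset.sum_congr rfl fun σ _ => SUBS_pt σ m hm S
  have hc := SUBS_nonneg m S
  have h6 : ((Fintype.card Ω : ℝ) - S.card) * SUBS_c m (insert x S) ≤
      ((Fintype.card Ω : ℝ) - S.card) * ((m : ℝ) / Fintype.card Ω * SUBS_c m S) := by
    rw [h1]
    have h7 : (m : ℝ) - S.card ≤ ((Fintype.card Ω : ℝ) - S.card) * ((m : ℝ) / Fintype.card Ω) := by
      rw [← mul_div_assoc, le_div_iff₀ hNr]
      have : (0 : ℝ) ≤ S.card := by positivity
      nlinarith
    calc ((m : ℝ) - S.card) * SUBS_c m S ≤
        (((Fintype.card Ω : ℝ) - S.card) * ((m : ℝ) / Fintype.card Ω)) * SUBS_c m S :=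
          mul_le_mul_of_nonneg_right h7 hc
      _ = _ := by ring
  exact le_of_mul_le_mul_left h6 (by linarith)

end SUBS

theorem SUBS_thm : T_SUBS := by
  intro Ω _ _ S m hm
  have hne : Nonempty (Ord Ω) := ⟨(Fintype.equivFin Ω).symm⟩
  have hcard : (0 : ℝ) < (Fintype.card (Ord Ω) : ℝ) := by
    exact_mod_cast Fintype.card_pos
  have key : ∀ S : Finset Ω, SUBS_c m S ≤
      ((m : ℝ) / Fintype.card Ω) ^ S.card * Fintype.card (Ord Ω) := by
    intro S
    induction S using Finset.induction_on with
    | empty =>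
      rw [Finset.card_empty, pow_zero, one_mul]
      have h1 : ∀ σ ∈ (univ : Finset (Ord Ω)), ind ((∅ : Finset Ω) ⊆ st σ m) = 1 := by
        intro σ _
        unfold ind
        rw [if_pos (Finset.empty_subset _)]
      unfold SUBS_c
      rw [Finset.sum_congr rfl h1, Finset.sum_const, nsmul_eq_mul, mul_one, Finset.card_univ]
    | insert x S hx ih =>
      rw [Finset.card_insert_of_notMem hx, pow_succ]
      refine (SUBS_step m hm S x hx).trans ?_
      have h0 : (0 : ℝ) ≤ (m : ℝ) / Fintype.card Ω := by positivity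
      calc (m : ℝ) / Fintype.card Ω * SUBS_c m S ≤
          (m : ℝ) / Fintype.card Ω * (((m : ℝ) / Fintype.card Ω) ^ S.card *
            Fintype.card (Ord Ω)) := mul_le_mul_of_nonneg_left ih h0
        _ = _ := by ring
  unfold avg
  rw [div_le_iff₀ hcard]
  exact key S

end

end Pool.Agent.H921S
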