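import Pool.Agent.H921S.Stm

/-!
# Clauses inside a consistent set of literals (helper742)
-/

set_option autoImplicit false

namespace Pool.Agent.H921S

open Finset
open scoped Classical

theorem CNT0_choose (k n : ℕ) (B : Finset (Lit n)) (hB : ∀ l ∈ B, (l.1, !l.2) ∉ B) :
    B.card.choose k ≤ (univ.filter (fun C : Clause k n => C.lits ⊆ B)).card := by
  rw [← Finset.card_powersetCard]
  refine le_trans (Finset.card_le_card ?_)
    (Finset.card_image_le (s := univ.filter (fun C : Clause k n => C.lits ⊆ B))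
      (f := fun C : Clause k n => C.lits))
  intro S hS
  rw [Finset.mem_powersetCard] at hS
  rw [Finset.mem_image]
  refine ⟨⟨S, hS.2, ?_⟩, ?_, rfl⟩
  · intro l hl l' hl' h
    by_contra hne
    have h2 : l.2 ≠ l'.2 := fun h2 => hne (Prod.ext h h2)
    have h3 : l' = (l.1, !l.2) := by
      apply Prod.ext
      · exact h.symm
      · show l'.2 = !l.2
        cases h4 : l.2 <;> cases h5 : l'.2 <;> simp_all
    exact hB l (hS.1 hl) (h3 ▸ hS.1 hl')
  · rw [Finset.mem_filter]
    exact ⟨Finset.mem_univ _, hS.1⟩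

theorem CNT0_thm (h : T_CARD) : T_CNT0 := by
  intro k θ hk hθ
  refine ⟨⌈2 * k / θ⌉₊, ?_⟩
  intro n hn B hB hb
  have hn1 : 2 * (k : ℝ) / θ ≤ n := (Nat.le_ceil _).trans (by exact_mod_cast hn)
  rw [div_le_iff₀ hθ] at hn1
  have hbk : (k : ℝ) ≤ B.card := by
    have : (0 : ℝ) ≤ k := Nat.cast_nonneg k
    nlinarith
  have hbk' : k ≤ B.card := by exact_mod_cast hbk
  have h1 : ((B.card.choose k : ℕ) : ℝ) ≤
      ((univ.filter (fun C : Clause k n => C.lits ⊆ B)).card : ℝ) := by
    exact_mod_cast CNT0_choose k n B hB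
  refine le_trans ?_ h1
  have h2 : NN k n = 2 ^ k * (n.choose k : ℝ) := by
    unfold NN
    rw [h k n]
    push_cast
    ring
  rw [h2]
  have hf : (0 : ℝ) < k.factorial := by exact_mod_cast Nat.factorial_pos k
  rw [← mul_le_mul_iff_right₀ hf]
  have h3 : (k.factorial : ℝ) * (B.card.choose k : ℝ) = (B.card.descFactorial k : ℝ) := by
    rw [Nat.descFactorial_eq_factorial_mul_choose]; push_cast; ring
  have h4 : (k.factorial : ℝ) * (n.choose k : ℝ) = (n.descFactorial k : ℝ) := by
    rw [Nat.descFactorial_eq_factorial_mul_choose]; push_cast; ring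
  have h5 : ((n.descFactorial k : ℕ) : ℝ) ≤ (n : ℝ) ^ k := by
    exact_mod_cast Nat.descFactorial_le_pow n k
  have h6 : ((B.card + 1 - k : ℕ) : ℝ) ^ k ≤ (B.card.descFactorial k : ℝ) := by
    exact_mod_cast Nat.pow_sub_le_descFactorial B.card k
  have h7 : ((B.card + 1 - k : ℕ) : ℝ) = (B.card : ℝ) + 1 - k := by
    rw [Nat.cast_sub (by omega)]; push_cast; ring
  rw [h3]
  calc (k.factorial : ℝ) * ((θ / 4) ^ k * (2 ^ k * (n.choose k : ℝ)))
      = (θ / 2) ^ k * ((k.factorial : ℝ) * (n.choose k : ℝ)) := by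
        have : (θ / 4) ^ k * 2 ^ k = (θ / 2) ^ k := by
          rw [← mul_pow]; congr 1; ring
        rw [← this]; ring
    _ = (θ / 2) ^ k * (n.descFactorial k : ℝ) := by rw [h4]
    _ ≤ (θ / 2) ^ k * (n : ℝ) ^ k := mul_le_mul_of_nonneg_left h5 (by positivity)
    _ = (θ / 2 * n) ^ k := by rw [mul_pow]
    _ ≤ ((B.card : ℝ) + 1 - k) ^ k := by
        apply pow_le_pow_left₀ (by positivity)
        linarith
    _ ≤ (B.card.descFactorial k : ℝ) := by rw [← h7]; exact h6

end Pool.Agent.H921S
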