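import Pool.Agent.H921S.Stm

/-!
# CNT1: clauses containing a given literal
-/

set_option autoImplicit false

namespace Pool.Agent.H921S

open Finset
open scoped Classical

noncomputable section

namespace CNT1h

variable {k n : ℕ}

/-- signed permutations of the literals -/
def act (π : Equiv.Perm (Fin n)) (s : Bool) : Lit n ≃ Lit n where
  toFun x := (π x.1, xor x.2 s)
  invFun x := (π.symm x.1, xor x.2 s)
  left_inv x := by simp
  right_inv x := by simp

/-- their action on the clauses -/
def actC (π : Equiv.Perm (Fin n)) (s : Bool) (C : Clause k n) : Clause k n where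
  lits := C.lits.map (act π s).toEmbedding
  card_lits := by rw [Finset.card_map]; exact C.card_lits
  distinct := by
    intro l hl l' hl' h
    rw [Finset.mem_map] at hl hl'
    obtain ⟨x, hx, rfl⟩ := hl
    obtain ⟨y, hy, rfl⟩ := hl'
    have h1 : x.1 = y.1 := π.injective h
    rw [C.distinct x hx y hy h1]

theorem actC_inj (π : Equiv.Perm (Fin n)) (s : Bool) :
    Function.Injective (actC (k := k) π s) := by
  intro C D h
  have h1 : C.lits.map (act π s).toEmbedding = D.lits.map (act π s).toEmbedding :=
    congrArg Clause.lits h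
  exact Clause.ext (Finset.map_injective _ h1)

theorem le (l l' : Lit n) :
    (univ.filter (fun C : Clause k n => l ∈ C.lits)).card ≤
      (univ.filter (fun C : Clause k n => l' ∈ C.lits)).card := by
  refine Finset.card_le_card_of_injOn (actC (Equiv.swap l.1 l'.1) (xor l.2 l'.2)) ?_
    ((actC_inj _ _).injOn)
  intro C hC
  have hC' : l ∈ C.lits := by simpa using hC
  have h1 : act (Equiv.swap l.1 l'.1) (xor l.2 l'.2) l = l' := by
    unfold act
    apply Prod.ext
    · simp
    · simp
  have h2 : l' ∈ (actC (Equiv.swap l.1 l'.1) (xor l.2 l'.2) C).lits :=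
    Finset.mem_map.2 ⟨l, hC', h1⟩
  simpa using h2

end CNT1h

open CNT1h in
theorem CNT1_thm : T_CNT1 := by
  intro k n l
  have h1 : ∀ l' : Lit n, (univ.filter (fun C : Clause k n => l' ∈ C.lits)).card =
      (univ.filter (fun C : Clause k n => l ∈ C.lits)).card :=
    fun l' => le_antisymm (le l' l) (le l l')
  have h2 : ∑ l' : Lit n, (univ.filter (fun C : Clause k n => l' ∈ C.lits)).card =
      ∑ C : Clause k n, (univ.filter (fun l' : Lit n => l' ∈ C.lits)).card := by
    simp_rw [Finset.card_filter]
    exact Finset.sum_comm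
  have h3 : ∀ C : Clause k n, (univ.filter (fun l' : Lit n => l' ∈ C.lits)).card = k := by
    intro C
    have : univ.filter (fun l' : Lit n => l' ∈ C.lits) = C.lits := by
      ext x; simp
    rw [this, C.card_lits]
  rw [Finset.sum_congr rfl (fun l' _ => h1 l'), Finset.sum_congr rfl (fun C _ => h3 C),
    Finset.sum_const, Finset.sum_const, Finset.card_univ, Finset.card_univ, Fintype.card_prod,
    Fintype.card_fin, Fintype.card_bool, smul_eq_mul, smul_eq_mul] at h2
  have h4 : ((n * 2 * (univ.filter (fun C : Clause k n => l ∈ C.lits)).card : ℕ) : ℝ) =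
      ((Fintype.card (Clause k n) * k : ℕ) : ℝ) := by rw [h2]
  push_cast at h4
  unfold NN
  linarith

end

end Pool.Agent.H921S
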