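import Pool.Agent.H921S.Stm

set_option autoImplicit false

namespace Pool.Agent.H921S

open Finset
open scoped Classical

theorem CNT3_thm : T_CNT3 := by
  intro k n S hS
  have h : (univ.filter (fun C : Clause k n => S ⊆ C.lits)).card ≤
      (univ : Finset (Lit n)).card := by
    refine Finset.card_le_card_of_forall_subsingleton (fun C l => C.lits = insert l S) ?_ ?_
    · intro C hC
      rw [mem_filter] at hC
      have h1 : (C.lits \ S).card = 1 := by
        rw [card_sdiff_of_subset hC.2, C.card_lits]
        omega
      obtain ⟨l, hl⟩ := card_eq_one.1 h1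
      refine ⟨l, mem_univ _, ?_⟩
      show C.lits = insert l S
      rw [← Finset.sdiff_union_of_subset hC.2, hl, Finset.singleton_union]
    · intro l _ C hC C' hC'
      have h1 : C.lits = insert l S := hC.2
      have h2 : C'.lits = insert l S := hC'.2
      exact Clause.ext (h1.trans h2.symm)
  have h2 : (univ : Finset (Lit n)).card = n * 2 := by
    rw [card_univ, Fintype.card_prod, Fintype.card_fin, Fintype.card_bool]
  rw [h2] at h
  have h3 : ((univ.filter (fun C : Clause k n => S ⊆ C.lits)).card : ℝ) ≤ ((n * 2 : ℕ) : ℝ) := by
    exact_mod_cast h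
  push_cast at h3
  linarith

end Pool.Agent.H921S
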