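import Pool.Agent.H921S.Stm

/-! Task CNT4: numerical bounds for the number of clauses. -/

set_option autoImplicit false

namespace Pool.Agent.H921S

theorem CNT4_choose : ∀ k n : ℕ, k ≤ n → n ^ k ≤ k ^ k * n.choose k
  | 0, n, _ => by simp
  | k + 1, 0, h => by omega
  | k + 1, n + 1, h => by
    have hkn : k ≤ n := by omega
    have h1 := CNT4_choose k n hkn
    -- (n + 1) ^ k ≤ (k + 1) ^ k * n.choose k
    have h2 : (n + 1) ^ k ≤ (k + 1) ^ k * n.choose k := by
      rcases Nat.eq_zero_or_pos k with hk | hk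
      · subst hk
        simp
      · have hkk : 0 < k ^ k := by positivity
        refine Nat.le_of_mul_le_mul_left ?_ hkk
        have h3 : (k * (n + 1)) ^ k ≤ ((k + 1) * n) ^ k := by
          apply Nat.pow_le_pow_left
          nlinarith
        calc k ^ k * (n + 1) ^ k = (k * (n + 1)) ^ k := by rw [mul_pow]
          _ ≤ ((k + 1) * n) ^ k := h3
          _ = (k + 1) ^ k * n ^ k := by rw [mul_pow]
          _ ≤ (k + 1) ^ k * (k ^ k * n.choose k) := Nat.mul_le_mul_left _ h1
          _ = k ^ k * ((k + 1) ^ k * n.choose k) := by ring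
    have h4 : (n + 1) * n.choose k = (n + 1).choose (k + 1) * (k + 1) :=
      Nat.add_one_mul_choose_eq n k
    calc (n + 1) ^ (k + 1) = (n + 1) * (n + 1) ^ k := by ring
      _ ≤ (n + 1) * ((k + 1) ^ k * n.choose k) := Nat.mul_le_mul_left _ h2
      _ = (k + 1) ^ k * ((n + 1) * n.choose k) := by ring
      _ = (k + 1) ^ k * ((n + 1).choose (k + 1) * (k + 1)) := by rw [h4]
      _ = (k + 1) ^ (k + 1) * (n + 1).choose (k + 1) := by ring

theorem CNT4_thm (hC : T_CARD) : T_CNT4 := by
  intro k hk L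
  refine ⟨k ^ k * (2 * L + 20) + k, fun n hn => ?_⟩
  have hkk : 0 < k ^ k := by positivity
  have hn1 : 1 ≤ n := by omega
  have hnk : k ≤ n := by omega
  have h1 := CNT4_choose k n hnk
  constructor
  · rw [hC k n]
    refine Nat.le_of_mul_le_mul_left ?_ hkk
    have h2 : n * n ≤ n ^ k := by
      calc n * n = n ^ 2 := by ring
        _ ≤ n ^ k := Nat.pow_le_pow_right hn1 (by omega)
    have h3 : k ^ k * (2 * L + 20) * n ≤ n * n := Nat.mul_le_mul_right _ (by omega)
    have h4 : k ^ k * (2 * (L * n + 10)) ≤ k ^ k * (2 * L + 20) * n := by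
      rw [mul_assoc]
      apply Nat.mul_le_mul_left
      nlinarith
    calc k ^ k * (2 * (L * n + 10)) ≤ k ^ k * n.choose k := by omega
      _ ≤ k ^ k * (2 ^ k * n.choose k) := by
          apply Nat.mul_le_mul_left
          exact Nat.le_mul_of_pos_left _ (by positivity)
  · change (2 : ℝ) ^ k * (n : ℝ) ^ k ≤ (k : ℝ) ^ k * ((Fintype.card (Clause k n) : ℕ) : ℝ)
    rw [hC k n]
    have h2 : (n : ℝ) ^ k ≤ (k : ℝ) ^ k * (n.choose k : ℝ) := by exact_mod_cast h1
    push_cast
    calc (2 : ℝ) ^ k * (n : ℝ) ^ k ≤ 2 ^ k * ((k : ℝ) ^ k * (n.choose k : ℝ)) :=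
          mul_le_mul_of_nonneg_left h2 (by positivity)
      _ = (k : ℝ) ^ k * (2 ^ k * (n.choose k : ℝ)) := by ring

end Pool.Agent.H921S
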