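import Pool.Agent.H921S.Stm

/-! CRIT: every variable of a uniquely satisfiable formula has its own critical clause
(helper20). -/

set_option autoImplicit false

namespace Pool.Agent.H921S

open Finset
open scoped Classical

theorem CRIT_thm : T_CRIT := by
  intro k n H hH
  obtain ⟨⟨C0, hC0⟩, ⟨a, ha⟩, hu⟩ := hH
  haveI : Nonempty (Clause k n) := ⟨C0⟩
  have key : ∀ v ∈ vars H, ∃ C ∈ H, ∀ l ∈ C.lits, Tru a l → l.1 = v := by
    intro v hv
    by_contra hcon
    push Not at hcon
    have hb : Sol (Function.update a v (!(a v))) H := by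
      intro C hC
      obtain ⟨l, hl, ht, hne⟩ := hcon C hC
      refine ⟨l, hl, ?_⟩
      unfold Tru at ht ⊢
      rw [Function.update_of_ne hne]
      exact ht
    have h1 := hu a _ ha hb v hv
    rw [Function.update_self] at h1
    cases h2 : a v <;> rw [h2] at h1 <;> simp at h1
  choose! f hf hf' using key
  apply Finset.card_le_card_of_injOn f
  · intro v hv
    exact hf v hv
  · intro v hv w hw hvw
    obtain ⟨l, hl, ht⟩ := ha (f v) (hf v hv)
    have h1 := hf' v hv l hl ht
    have h2 := hf' w hw l (hvw ▸ hl) ht
    rw [← h1, h2]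

end Pool.Agent.H921S
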