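import Pool.Agent.H921S.Stm

set_option autoImplicit false

namespace Pool.Agent.H921S

open Finset
open scoped Classical

theorem D1_key {k n : ℕ} (ε κ : ℝ)
    (h : ∀ G : Form k n, Sat G → HasL ε G → 2 * κ * NN k n ≤
      ((univ.filter (fun E : Clause k n => ∀ a, Sol a G → ∀ e ∈ E.lits, ¬ Tru a e)).card : ℝ))
    (F : Form k n) (hU : U ε F ≤ κ * NN k n) (C : Clause k n) (hC : Sat (insert C F))
    (hC2 : ¬ NS ε (insert C F)) :
    κ * NN k n ≤ (((univ.filter (fun q : Clause k n × Clause k n =>
      NS ε (insert q.1 F) ∧ ¬ Sat (insert q.2 (insert q.1 F)))).filter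
        (fun q => q.2 = C)).card : ℝ) := by
  have hL : HasL ε (insert C F) := by
    by_contra hn
    exact hC2 ⟨hC, hn⟩
  have h1 := h (insert C F) hC hL
  set A := univ.filter (fun E : Clause k n => ∀ a, Sol a (insert C F) → ∀ e ∈ E.lits, ¬ Tru a e)
    with hA
  have h2 : A.card ≤ (A.filter (fun E => NS ε (insert E F))).card +
      (univ.filter (fun x : Clause k n => ¬ NS ε (insert x F))).card := by
    rw [← Finset.card_filter_add_card_filter_not (s := A) (fun E => NS ε (insert E F))]
    refine Nat.add_le_add_left (Finset.card_le_card ?_) _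
    intro E hE
    rw [Finset.mem_filter] at hE ⊢
    exact ⟨Finset.mem_univ _, hE.2⟩
  have h3 : (A.filter (fun E => NS ε (insert E F))).card ≤
      ((univ.filter (fun q : Clause k n × Clause k n =>
      NS ε (insert q.1 F) ∧ ¬ Sat (insert q.2 (insert q.1 F)))).filter
        (fun q => q.2 = C)).card := by
    refine Finset.card_le_card_of_injOn (fun E => (E, C)) ?_ ?_
    · intro E hE
      have hE' := Finset.mem_filter.1 (Finset.mem_coe.1 hE)
      have hE1 := (Finset.mem_filter.1 hE'.1).2
      refine Finset.mem_coe.2 (Finset.mem_filter.2 ⟨Finset.mem_filter.2 ⟨Finset.mem_univ _, hE'.2, ?_⟩,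
        rfl⟩)
      rintro ⟨a, ha⟩
      have ha1 : Sol a (insert C F) := by
        intro D hD
        refine ha D ?_
        rcases Finset.mem_insert.1 hD with hD | hD
        · exact Finset.mem_insert.2 (Or.inl hD)
        · exact Finset.mem_insert.2 (Or.inr (Finset.mem_insert.2 (Or.inr hD)))
      obtain ⟨l, hl, ht⟩ := ha E (Finset.mem_insert.2 (Or.inr (Finset.mem_insert_self _ _)))
      exact hE1 a ha1 l hl ht
    · intro E _ E' _ hEE
      exact congrArg Prod.fst hEE
  have h4 : (A.card : ℝ) ≤ (((univ.filter (fun q : Clause k n × Clause k n =>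
      NS ε (insert q.1 F) ∧ ¬ Sat (insert q.2 (insert q.1 F)))).filter
        (fun q => q.2 = C)).card : ℝ) + U ε F := by
    have := h2.trans (Nat.add_le_add_right h3 _)
    unfold U
    exact_mod_cast this
  linarith

theorem D1_thm : T_D1 := by
  intro k n ε κ hκ hκ1 h F _ hU
  have hN0 : (0 : ℝ) ≤ NN k n := Nat.cast_nonneg _
  set UU := univ.filter (fun C : Clause k n => Sat (insert C F) ∧ ¬ NS ε (insert C F)) with hUU
  have hsplit : U ε F = (UU.card : ℝ) + P0 F := by
    have : (univ.filter (fun x : Clause k n => ¬ NS ε (insert x F))).card =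
        UU.card + (univ.filter (fun x : Clause k n => ¬ Sat (insert x F))).card := by
      rw [← Finset.card_filter_add_card_filter_not
        (s := univ.filter (fun x : Clause k n => ¬ NS ε (insert x F)))
        (fun x => Sat (insert x F)), Finset.filter_filter, Finset.filter_filter]
      congr 2
      · ext x
        simp only [hUU, Finset.mem_filter, Finset.mem_univ, true_and]
        exact and_comm
      · ext x
        simp only [Finset.mem_filter, Finset.mem_univ, true_and]
        exact ⟨fun hx => hx.2, fun hx => ⟨fun hns => hx hns.1, hx⟩⟩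
    unfold U P0
    exact_mod_cast this
  have hP1 : (UU.card : ℝ) * (κ * NN k n) ≤ P1 ε F := by
    have e : ((univ.filter (fun q : Clause k n × Clause k n =>
        NS ε (insert q.1 F) ∧ ¬ Sat (insert q.2 (insert q.1 F)))).card : ℝ) =
        ∑ C : Clause k n, (((univ.filter (fun q : Clause k n × Clause k n =>
      NS ε (insert q.1 F) ∧ ¬ Sat (insert q.2 (insert q.1 F)))).filter
        (fun q => q.2 = C)).card : ℝ) := by
      rw [Finset.card_eq_sum_card_fiberwise (f := fun q : Clause k n × Clause k n => q.2)
        (t := univ) (fun x _ => Finset.mem_coe.2 (Finset.mem_univ _))]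
      push_cast
      rfl
    unfold P1
    rw [e]
    calc (UU.card : ℝ) * (κ * NN k n) = ∑ _C ∈ UU, κ * NN k n := by
          rw [Finset.sum_const, nsmul_eq_mul]
      _ ≤ ∑ C ∈ UU, (((univ.filter (fun q : Clause k n × Clause k n =>
      NS ε (insert q.1 F) ∧ ¬ Sat (insert q.2 (insert q.1 F)))).filter
        (fun q => q.2 = C)).card : ℝ) := by
          refine Finset.sum_le_sum fun C hC => ?_
          have hC' := (Finset.mem_filter.1 hC).2
          exact D1_key ε κ h F hU C hC'.1 hC'.2
      _ ≤ _ := by
          refine Finset.sum_le_sum_of_subset_of_nonneg (Finset.subset_univ _) ?_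
          intro _ _ _
          exact Nat.cast_nonneg _
  have hP0 : 0 ≤ P0 F := Nat.cast_nonneg _
  have hUU0 : (0 : ℝ) ≤ UU.card := Nat.cast_nonneg _
  rcases hN0.eq_or_lt with hN | hN
  · have hU0 : U ε F = 0 := by
      refine le_antisymm ?_ (Nat.cast_nonneg _)
      rw [← hN, mul_zero] at hU
      exact hU
    rw [hU0, mul_zero, ← hN, div_zero, add_zero]
    exact hP0
  · have h1 : κ * (UU.card : ℝ) ≤ P1 ε F / NN k n := by
      rw [le_div_iff₀ hN]
      linarith
    rw [hsplit, mul_add]
    have h2 : κ * P0 F ≤ P0 F := by nlinarith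
    linarith

end Pool.Agent.H921S
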