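import Pool.Agent.H921S.Stm

/-!
# Task D3: assembly of the constants
-/

set_option autoImplicit false

namespace Pool.Agent.H921S

open Finset
open scoped Classical

namespace D3aux

theorem card_12 {α : Type} [Fintype α] (p : α → α → Prop)
    [DecidablePred fun q : α × α × α => p q.1 q.2.1] [DecidablePred fun q : α × α => p q.1 q.2] :
    ((univ.filter (fun q : α × α × α => p q.1 q.2.1)).card : ℝ) ≤
      ((univ.filter (fun q : α × α => p q.1 q.2)).card : ℝ) * Fintype.card α := by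
  have h : (univ.filter (fun q : α × α × α => p q.1 q.2.1)).card ≤
      ((univ.filter (fun q : α × α => p q.1 q.2)) ×ˢ (univ : Finset α)).card := by
    refine Finset.card_le_card_of_injOn (fun q => ((q.1, q.2.1), q.2.2)) ?_ ?_
    · intro q hq
      have hq' := (Finset.mem_filter.1 hq).2
      exact Finset.mem_coe.2 (Finset.mem_product.2
        ⟨Finset.mem_filter.2 ⟨Finset.mem_univ _, hq'⟩, Finset.mem_univ _⟩)
    · rintro ⟨a, b, c⟩ _ ⟨a', b', c'⟩ _ h
      simp only [Prod.mk.injEq] at h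
      obtain ⟨⟨h1, h2⟩, h3⟩ := h
      rw [h1, h2, h3]
  rw [Finset.card_product, Finset.card_univ] at h
  exact_mod_cast h

theorem card_13 {α : Type} [Fintype α] (p : α → α → Prop)
    [DecidablePred fun q : α × α × α => p q.1 q.2.2] [DecidablePred fun q : α × α => p q.1 q.2] :
    ((univ.filter (fun q : α × α × α => p q.1 q.2.2)).card : ℝ) ≤
      ((univ.filter (fun q : α × α => p q.1 q.2)).card : ℝ) * Fintype.card α := by
  have h : (univ.filter (fun q : α × α × α => p q.1 q.2.2)).card ≤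
      ((univ.filter (fun q : α × α => p q.1 q.2)) ×ˢ (univ : Finset α)).card := by
    refine Finset.card_le_card_of_injOn (fun q => ((q.1, q.2.2), q.2.1)) ?_ ?_
    · intro q hq
      have hq' := (Finset.mem_filter.1 hq).2
      exact Finset.mem_coe.2 (Finset.mem_product.2
        ⟨Finset.mem_filter.2 ⟨Finset.mem_univ _, hq'⟩, Finset.mem_univ _⟩)
    · rintro ⟨a, b, c⟩ _ ⟨a', b', c'⟩ _ h
      simp only [Prod.mk.injEq] at h
      obtain ⟨⟨h1, h2⟩, h3⟩ := h
      rw [h1, h2, h3]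
  rw [Finset.card_product, Finset.card_univ] at h
  exact_mod_cast h

theorem card_23 {α : Type} [Fintype α] (p : α → α → Prop)
    [DecidablePred fun q : α × α × α => p q.2.1 q.2.2] [DecidablePred fun q : α × α => p q.1 q.2] :
    ((univ.filter (fun q : α × α × α => p q.2.1 q.2.2)).card : ℝ) ≤
      ((univ.filter (fun q : α × α => p q.1 q.2)).card : ℝ) * Fintype.card α := by
  have h : (univ.filter (fun q : α × α × α => p q.2.1 q.2.2)).card ≤
      ((univ.filter (fun q : α × α => p q.1 q.2)) ×ˢ (univ : Finset α)).card := by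
    refine Finset.card_le_card_of_injOn (fun q => ((q.2.1, q.2.2), q.1)) ?_ ?_
    · intro q hq
      have hq' := (Finset.mem_filter.1 hq).2
      exact Finset.mem_coe.2 (Finset.mem_product.2
        ⟨Finset.mem_filter.2 ⟨Finset.mem_univ _, hq'⟩, Finset.mem_univ _⟩)
    · rintro ⟨a, b, c⟩ _ ⟨a', b', c'⟩ _ h
      simp only [Prod.mk.injEq] at h
      obtain ⟨⟨h1, h2⟩, h3⟩ := h
      rw [h1, h2, h3]
  rw [Finset.card_product, Finset.card_univ] at h
  exact_mod_cast h

/-- the union bound for the good triples -/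
theorem union_bound {k n : ℕ} (ε : ℝ) (F : Form k n) :
    ((univ.filter (fun q : Clause k n × Clause k n × Clause k n =>
      Tr ε F q.1 q.2.1 q.2.2)).card : ℝ) ≤
    ((univ.filter (fun q : Clause k n × Clause k n × Clause k n =>
      Tr ε F q.1 q.2.1 q.2.2 ∧ ¬ Bad ε F q.1 q.2.1 ∧ ¬ Bad ε F q.1 q.2.2 ∧
        VD q.2.1 q.2.2)).card : ℝ) +
    2 * (((univ.filter (fun q : Clause k n × Clause k n => Bad ε F q.1 q.2)).card : ℝ) *
      NN k n) +
    ((univ.filter (fun q : Clause k n × Clause k n => ¬ VD q.1 q.2)).card : ℝ) * NN k n := by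
  have h1 : ((univ.filter (fun q : Clause k n × Clause k n × Clause k n =>
      Bad ε F q.1 q.2.1)).card : ℝ) ≤
      ((univ.filter (fun q : Clause k n × Clause k n => Bad ε F q.1 q.2)).card : ℝ) *
      NN k n := card_12 (fun D C : Clause k n => Bad ε F D C)
  have h2 : ((univ.filter (fun q : Clause k n × Clause k n × Clause k n =>
      Bad ε F q.1 q.2.2)).card : ℝ) ≤
      ((univ.filter (fun q : Clause k n × Clause k n => Bad ε F q.1 q.2)).card : ℝ) *
      NN k n := card_13 (fun D C : Clause k n => Bad ε F D C)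
  have h3 : ((univ.filter (fun q : Clause k n × Clause k n × Clause k n =>
      ¬ VD q.2.1 q.2.2)).card : ℝ) ≤
      ((univ.filter (fun q : Clause k n × Clause k n => ¬ VD q.1 q.2)).card : ℝ) *
      NN k n := card_23 (fun D C : Clause k n => ¬ VD D C)
  have h4 : (univ.filter (fun q : Clause k n × Clause k n × Clause k n =>
      Tr ε F q.1 q.2.1 q.2.2)) ⊆
      (univ.filter (fun q : Clause k n × Clause k n × Clause k n =>
        Tr ε F q.1 q.2.1 q.2.2 ∧ ¬ Bad ε F q.1 q.2.1 ∧ ¬ Bad ε F q.1 q.2.2 ∧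
        VD q.2.1 q.2.2)) ∪
      ((univ.filter (fun q : Clause k n × Clause k n × Clause k n => Bad ε F q.1 q.2.1)) ∪
      ((univ.filter (fun q : Clause k n × Clause k n × Clause k n => Bad ε F q.1 q.2.2)) ∪
      (univ.filter (fun q : Clause k n × Clause k n × Clause k n => ¬ VD q.2.1 q.2.2)))) := by
    intro q hq
    have hq' := (Finset.mem_filter.1 hq).2
    simp only [Finset.mem_union, Finset.mem_filter, Finset.mem_univ, true_and]
    by_cases b1 : Bad ε F q.1 q.2.1
    · exact Or.inr (Or.inl b1)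
    · by_cases b2 : Bad ε F q.1 q.2.2
      · exact Or.inr (Or.inr (Or.inl b2))
      · by_cases b3 : VD q.2.1 q.2.2
        · exact Or.inl ⟨hq', b1, b2, b3⟩
        · exact Or.inr (Or.inr (Or.inr b3))
  have h5 := (Finset.card_le_card h4).trans ((Finset.card_union_le _ _).trans
    (Nat.add_le_add_left ((Finset.card_union_le _ _).trans
      (Nat.add_le_add_left (Finset.card_union_le _ _) _)) _))
  have h6 : ((univ.filter (fun q : Clause k n × Clause k n × Clause k n =>
      Tr ε F q.1 q.2.1 q.2.2)).card : ℝ) ≤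
      ((univ.filter (fun q : Clause k n × Clause k n × Clause k n =>
        Tr ε F q.1 q.2.1 q.2.2 ∧ ¬ Bad ε F q.1 q.2.1 ∧ ¬ Bad ε F q.1 q.2.2 ∧
        VD q.2.1 q.2.2)).card : ℝ) +
      (((univ.filter (fun q : Clause k n × Clause k n × Clause k n =>
          Bad ε F q.1 q.2.1)).card : ℝ) +
      (((univ.filter (fun q : Clause k n × Clause k n × Clause k n =>
          Bad ε F q.1 q.2.2)).card : ℝ) +
      ((univ.filter (fun q : Clause k n × Clause k n × Clause k n =>
          ¬ VD q.2.1 q.2.2)).card : ℝ))) := by exact_mod_cast h5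
  linarith

end D3aux

open D3aux

theorem D3_thm (hWB : T_WB) (hD3a : T_D3a) (hD3b : T_D3b) (hD3d : T_D3d) (hD3e : T_D3e)
    (hVDC : T_VDC) (hCNT4 : T_CNT4) : T_D3 := by
  intro k ε κ hk hε hε1 hκ hκ1
  have hk0 : (0 : ℝ) < k := by exact_mod_cast (by omega : 0 < k)
  set κ' : ℝ := (ε / 4) ^ k with hκ'
  have hκ'0 : 0 < κ' := by positivity
  have hκ'1 : κ' ≤ 1 := pow_le_one₀ (by positivity) (by linarith)
  set κ6 : ℝ := κ ^ 2 * κ' / 4 with hκ6
  have hκ60 : 0 < κ6 := by positivity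
  set θ : ℝ := κ6 / (8 * k) with hθ
  have hθ0 : 0 < θ := by positivity
  set κ8 : ℝ := κ6 / (4 * (k : ℝ) ^ 2) with hκ8
  have hκ80 : 0 < κ8 := by positivity
  obtain ⟨κ9, hκ90, n1, hn1⟩ := hD3e k κ8 hk hκ80
  set c4 : ℝ := (4 / θ) ^ k with hc4
  have hc40 : 0 < c4 := by positivity
  set κ5 : ℝ := min κ9 (min (κ6 / 24) (κ6 / (16 * c4))) with hκ5
  have hκ50 : 0 < κ5 := lt_min hκ90 (lt_min (by positivity) (by positivity))
  have h51 : κ5 ≤ κ9 := min_le_left _ _
  have h52 : κ5 ≤ κ6 / 24 := (min_le_right _ _).trans (min_le_left _ _)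
  have h53 : κ5 ≤ κ6 / (16 * c4) := (min_le_right _ _).trans (min_le_right _ _)
  have h54 : c4 * κ5 ≤ κ6 / 16 := by
    have := mul_le_mul_of_nonneg_left h53 hc40.le
    have e : c4 * (κ6 / (16 * c4)) = κ6 / 16 := by field_simp
    rwa [e] at this
  obtain ⟨n2, hn2⟩ := hWB k ε (by omega) hε
  obtain ⟨n3, hn3⟩ := hD3b k θ (by omega) hθ0
  obtain ⟨n4, hn4⟩ := hCNT4 k hk 0
  obtain ⟨n5, hn5⟩ := exists_nat_ge (4 * (k : ℝ) ^ 2 / κ6)
  refine ⟨κ6 / 16, κ5, by positivity, hκ50, n1 + n2 + n3 + n4 + n5 + 1, ?_⟩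
  intro n hn F hF hU hJ
  have hn0 : (1 : ℝ) ≤ n := by exact_mod_cast (by omega : 1 ≤ n)
  have hNpos : 0 < NN k n := by
    have := (hn4 n (by omega)).1
    have h1 : 0 < Fintype.card (Clause k n) := by omega
    exact_mod_cast h1
  have hkn : (k : ℝ) ^ 2 / n ≤ κ6 / 4 := by
    have h1 : 4 * (k : ℝ) ^ 2 / κ6 ≤ n := hn5.trans (by exact_mod_cast (by omega : n5 ≤ n))
    rw [div_le_iff₀ hκ60] at h1
    rw [div_le_div_iff₀ (by linarith) (by norm_num)]
    linarith
  have hP1 : 0 ≤ P1 ε F := by unfold P1; positivity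
  have hP2 : 0 ≤ P2 ε F := by unfold P2; positivity
  by_contra hcon
  push Not at hcon
  have hp1 : P1 ε F ≤ κ5 * NN k n ^ 2 := by
    have h1 : P1 ε F / NN k n ^ 2 ≤ κ5 := by
      have : 0 ≤ P2 ε F / NN k n ^ 3 := by positivity
      linarith
    rwa [div_le_iff₀ (by positivity)] at h1
  have hp2 : P2 ε F < κ5 * NN k n ^ 3 := by
    have h1 : P2 ε F / NN k n ^ 3 < κ5 := by
      have : 0 ≤ P1 ε F / NN k n ^ 2 := by positivity
      linarith
    rwa [div_lt_iff₀ (by positivity)] at h1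
  have hA := hD3a k n ε κ κ' (κ / 4) κ5 hκ.le hκ'0.le hκ'1 (by positivity) hκ50.le
    (fun G h1 h2 => hn2 n (by omega) G h1 h2) F hJ hp1 hp2.le
  have hB := hn3 n (by omega) ε F
  have hV := hVDC k n (by omega)
  have hUB := union_bound ε F
  have hD := hD3d k n ε F (by omega) (by omega) hF
  set N := NN k n with hN
  set bad := ((univ.filter (fun q : Clause k n × Clause k n => Bad ε F q.1 q.2)).card : ℝ)
    with hbad
  set nvd := ((univ.filter (fun q : Clause k n × Clause k n => ¬ VD q.1 q.2)).card : ℝ)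
    with hnvd
  have hbad' : bad ≤ κ6 * (3 / 16) * N ^ 2 := by
    have e1 : U ε F * N ≤ κ6 / 16 * N ^ 2 := by
      have := mul_le_mul_of_nonneg_right hU hNpos.le
      linarith [this, (by ring : κ6 / 16 * N * N = κ6 / 16 * N ^ 2)]
    have e2 : c4 * P1 ε F ≤ κ6 / 16 * N ^ 2 := by
      have h1 := mul_le_mul_of_nonneg_left hp1 hc40.le
      have h2 := mul_le_mul_of_nonneg_right h54 (sq_nonneg N)
      linarith [(by ring : c4 * (κ5 * N ^ 2) = c4 * κ5 * N ^ 2)]
    have e3 : (k : ℝ) * θ / 2 = κ6 / 16 := by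
      rw [hθ]
      field_simp
      norm_num
    rw [e3] at hB
    linarith
  have hnvd' : nvd ≤ κ6 / 4 * N ^ 2 := hV.trans (mul_le_mul_of_nonneg_right hkn (sq_nonneg N))
  have e4 : κ / 4 * κ * κ' = κ6 := by
    rw [hκ6]
    ring
  rw [e4] at hA
  have hbadN : bad * N ≤ κ6 * (3 / 16) * N ^ 3 := by
    have := mul_le_mul_of_nonneg_right hbad' hNpos.le
    linarith [(by ring : κ6 * (3 / 16) * N ^ 2 * N = κ6 * (3 / 16) * N ^ 3)]
  have hnvdN : nvd * N ≤ κ6 / 4 * N ^ 3 := by
    have := mul_le_mul_of_nonneg_right hnvd' hNpos.le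
    linarith [(by ring : κ6 / 4 * N ^ 2 * N = κ6 / 4 * N ^ 3)]
  have h3 : (κ6 - κ6 / 8) * N ^ 3 ≤ (κ6 - 3 * κ5) * N ^ 3 :=
    mul_le_mul_of_nonneg_right (by linarith) (by positivity)
  have hgood : κ6 / 4 * N ^ 3 ≤ (k : ℝ) ^ 2 * N * QN ε F := by
    refine le_trans ?_ hD
    have := hA.trans hUB
    nlinarith
  have hQ : κ8 * N ^ 2 ≤ QN ε F := by
    have h1 : (k : ℝ) ^ 2 * N * (κ8 * N ^ 2) ≤ (k : ℝ) ^ 2 * N * QN ε F := by
      have e5 : (k : ℝ) ^ 2 * N * (κ8 * N ^ 2) = κ6 / 4 * N ^ 3 := by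
        rw [hκ8]
        field_simp
      rw [e5]
      exact hgood
    exact le_of_mul_le_mul_left h1 (by positivity)
  have hfin := hn1 n (by omega) ε F hQ
  have : κ5 * N ^ 3 ≤ κ9 * N ^ 3 := mul_le_mul_of_nonneg_right h51 (by positivity)
  linarith

end Pool.Agent.H921S
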