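import Pool.Agent.H921S.Stm

/-!
# D3a: many triples
-/

set_option autoImplicit false

namespace Pool.Agent.H921S

open Finset
open scoped Classical

namespace D3aAux

lemma card2 {α β : Type} [Fintype α] [Fintype β] (P : α × β → Prop) [DecidablePred P]
    [∀ D, DecidablePred (fun E => P (D, E))] :
    ((univ.filter P).card : ℝ) = ∑ D, ((univ.filter (fun E => P (D, E))).card : ℝ) := by
  simp only [Finset.card_filter, Nat.cast_sum, Fintype.sum_prod_type]

lemma card3 {α β γ : Type} [Fintype α] [Fintype β] [Fintype γ] (P : α × β × γ → Prop)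
    [DecidablePred P] [∀ D C, DecidablePred (fun E => P (D, C, E))] :
    ((univ.filter P).card : ℝ) =
      ∑ D, ∑ C, ((univ.filter (fun E => P (D, C, E))).card : ℝ) := by
  simp only [Finset.card_filter, Nat.cast_sum, Fintype.sum_prod_type]

end D3aAux

open D3aAux

theorem D3a_thm : T_D3a := by
  intro k n ε κ κ' κ4 κ5 hκ hκ' hκ'1 hκ4 hκ5 hK F hJ h1 h2
  have hN0 : (0 : ℝ) ≤ NN k n := Nat.cast_nonneg _
  -- the killing clauses of an arbitrary state
  let K : Form k n → Finset (Clause k n) := fun G =>
    univ.filter (fun E : Clause k n => ∀ a, Sol a G → ∀ e ∈ E.lits, ¬ Tru a e)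
  have hKG : ∀ G : Form k n, ¬ NS ε G → κ' * NN k n ≤ ((K G).card : ℝ) := by
    intro G hG
    by_cases hs : Sat G
    · have hL : HasL ε G := by
        by_contra hL
        exact hG ⟨hs, hL⟩
      exact hK G hs hL
    · have : K G = univ := by
        ext E
        simp only [K, mem_filter, mem_univ, true_and, iff_true]
        intro a ha
        exact absurd ⟨a, ha⟩ hs
      rw [this, Finset.card_univ]
      have : κ' * NN k n ≤ 1 * NN k n := mul_le_mul_of_nonneg_right hκ'1 hN0
      simpa using this
  let J : Finset (Clause k n) := univ.filter (fun x : Clause k n =>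
    NS ε (insert x F) ∧ κ * NN k n < U ε (insert x F))
  have hJ' : κ4 * NN k n ≤ (J.card : ℝ) := hJ
  -- the big set of triples
  let P0' : Clause k n × Clause k n × Clause k n → Prop := fun q =>
    q.1 ∈ J ∧ ¬ NS ε (insert q.2.1 (insert q.1 F)) ∧ q.2.2 ∈ K (insert q.2.1 (insert q.1 F))
  have hbig : κ4 * κ * κ' * NN k n ^ 3 ≤ ((univ.filter P0').card : ℝ) := by
    have e0 := card3 P0'
    refine le_of_le_of_eq ?_ e0.symm
    have step1 : ∀ D ∈ J, κ * NN k n * (κ' * NN k n) ≤
        ∑ C, ((univ.filter (fun E => P0' (D, C, E))).card : ℝ) := by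
      intro D hD
      have hU : κ * NN k n ≤
          ((univ.filter (fun C : Clause k n => ¬ NS ε (insert C (insert D F)))).card : ℝ) := by
        have := (mem_filter.mp hD).2.2
        exact this.le
      calc κ * NN k n * (κ' * NN k n)
          ≤ ((univ.filter (fun C : Clause k n => ¬ NS ε (insert C (insert D F)))).card : ℝ) *
              (κ' * NN k n) :=
            mul_le_mul_of_nonneg_right hU (mul_nonneg hκ' hN0)
        _ = ∑ C ∈ univ.filter (fun C : Clause k n => ¬ NS ε (insert C (insert D F))),
              (κ' * NN k n) := by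
            rw [Finset.sum_const, nsmul_eq_mul]
        _ ≤ ∑ C ∈ univ.filter (fun C : Clause k n => ¬ NS ε (insert C (insert D F))),
              ((univ.filter (fun E => P0' (D, C, E))).card : ℝ) := by
            apply Finset.sum_le_sum
            intro C hC
            have hC' := (mem_filter.mp hC).2
            refine (hKG _ hC').trans ?_
            exact_mod_cast Finset.card_le_card (fun E hE => by
              rw [mem_filter]
              exact ⟨mem_univ _, hD, hC', hE⟩)
        _ ≤ ∑ C, ((univ.filter (fun E => P0' (D, C, E))).card : ℝ) :=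
            Finset.sum_le_sum_of_subset_of_nonneg (Finset.subset_univ _)
              (fun _ _ _ => Nat.cast_nonneg _)
    calc κ4 * κ * κ' * NN k n ^ 3 = (κ4 * NN k n) * (κ * NN k n * (κ' * NN k n)) := by ring
      _ ≤ (J.card : ℝ) * (κ * NN k n * (κ' * NN k n)) :=
          mul_le_mul_of_nonneg_right hJ' (mul_nonneg (mul_nonneg hκ hN0) (mul_nonneg hκ' hN0))
      _ = ∑ D ∈ J, (κ * NN k n * (κ' * NN k n)) := by
          rw [Finset.sum_const, nsmul_eq_mul]
      _ ≤ ∑ D ∈ J, ∑ C, ((univ.filter (fun E => P0' (D, C, E))).card : ℝ) :=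
          Finset.sum_le_sum step1
      _ ≤ ∑ D, ∑ C, ((univ.filter (fun E => P0' (D, C, E))).card : ℝ) :=
          Finset.sum_le_sum_of_subset_of_nonneg (Finset.subset_univ _)
            (fun _ _ _ => Finset.sum_nonneg (fun _ _ => Nat.cast_nonneg _))
  -- the exceptional triples
  let B1 : Clause k n × Clause k n × Clause k n → Prop := fun q =>
    NS ε (insert q.1 F) ∧ ¬ Sat (insert q.2.1 (insert q.1 F))
  let B3 : Clause k n × Clause k n × Clause k n → Prop := fun q =>
    NS ε (insert q.1 F) ∧ ¬ Sat (insert q.2.2 (insert q.1 F))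
  let B2 : Clause k n × Clause k n × Clause k n → Prop := fun q =>
    NS ε (insert q.2.2 (insert q.1 F)) ∧
      ¬ Sat (insert q.2.1 (insert q.2.2 (insert q.1 F)))
  have hB1 : ((univ.filter B1).card : ℝ) = P1 ε F * NN k n := by
    refine (card3 B1).trans ?_
    unfold P1
    rw [card2 (fun q : Clause k n × Clause k n =>
      NS ε (insert q.1 F) ∧ ¬ Sat (insert q.2 (insert q.1 F))), Finset.sum_mul]
    refine Finset.sum_congr rfl (fun D _ => ?_)
    rw [Finset.card_filter, Nat.cast_sum, Finset.sum_mul]
    refine Finset.sum_congr rfl (fun C _ => ?_)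
    by_cases h : NS ε (insert D F) ∧ ¬ Sat (insert C (insert D F))
    · simp [B1, h]
    · have h' : ∀ E : Clause k n, ¬ B1 (D, C, E) := fun E => h
      rw [if_neg h, Finset.filter_false_of_mem (fun E _ => h' E)]
      simp
  have hB3 : ((univ.filter B3).card : ℝ) = P1 ε F * NN k n := by
    refine (card3 B3).trans ?_
    unfold P1
    rw [card2 (fun q : Clause k n × Clause k n =>
      NS ε (insert q.1 F) ∧ ¬ Sat (insert q.2 (insert q.1 F))), Finset.sum_mul]
    refine Finset.sum_congr rfl (fun D _ => ?_)
    have hc : ∀ C : Clause k n, ((univ.filter (fun E => B3 (D, C, E))).card : ℝ) =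
        ((univ.filter (fun E : Clause k n =>
          NS ε (insert D F) ∧ ¬ Sat (insert E (insert D F)))).card : ℝ) := fun C => rfl
    calc ∑ C, ((univ.filter (fun E => B3 (D, C, E))).card : ℝ)
        = ∑ _C : Clause k n, ((univ.filter (fun E : Clause k n =>
          NS ε (insert D F) ∧ ¬ Sat (insert E (insert D F)))).card : ℝ) :=
          Finset.sum_congr rfl (fun C _ => hc C)
      _ = NN k n * ((univ.filter (fun E : Clause k n =>
          NS ε (insert D F) ∧ ¬ Sat (insert E (insert D F)))).card : ℝ) := by
          rw [Finset.sum_const, nsmul_eq_mul, Finset.card_univ]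
      _ = _ := mul_comm _ _
  have hB2 : ((univ.filter B2).card : ℝ) ≤ P2 ε F := by
    unfold P2
    have : (univ.filter B2).card ≤ (univ.filter (fun q : Clause k n × Clause k n × Clause k n =>
        NS ε (insert q.2.1 (insert q.1 F)) ∧
          ¬ Sat (insert q.2.2 (insert q.2.1 (insert q.1 F))))).card := by
      refine Finset.card_le_card_of_injOn (fun q => (q.1, q.2.2, q.2.1)) ?_ ?_
      · intro q hq
        have hq' := (mem_filter.mp (Finset.mem_coe.mp hq)).2
        exact Finset.mem_coe.mpr (mem_filter.mpr ⟨mem_univ _, hq'⟩)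
      · rintro ⟨a, b, c⟩ _ ⟨a', b', c'⟩ _ h
        simp only [Prod.mk.injEq] at h
        obtain ⟨h1, h2, h3⟩ := h
        subst h1; subst h2; subst h3; rfl
    exact_mod_cast this
  -- the cover
  have hcov : univ.filter P0' ⊆
      (univ.filter (fun q : Clause k n × Clause k n × Clause k n =>
        Tr ε F q.1 q.2.1 q.2.2)) ∪ (univ.filter B1 ∪ (univ.filter B3 ∪ univ.filter B2)) := by
    rintro ⟨D, C, E⟩ hq
    obtain ⟨-, hDJ, hC, hE⟩ := mem_filter.mp hq
    have hD : NS ε (insert D F) := (mem_filter.mp hDJ).2.1
    have hE' : ∀ a, Sol a (insert C (insert D F)) → ∀ e ∈ E.lits, ¬ Tru a e :=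
      (mem_filter.mp hE).2
    simp only [mem_union, mem_filter, mem_univ, true_and]
    by_cases b1 : Sat (insert C (insert D F))
    swap
    · right; left; exact ⟨hD, b1⟩
    by_cases b3 : Sat (insert E (insert D F))
    swap
    · right; right; left; exact ⟨hD, b3⟩
    by_cases b2 : NS ε (insert E (insert D F))
    · right; right; right
      refine ⟨b2, ?_⟩
      rintro ⟨a, ha⟩
      have hs : Sol a (insert C (insert D F)) := by
        intro X hX
        apply ha
        rcases Finset.mem_insert.mp hX with h | h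
        · exact Finset.mem_insert.mpr (Or.inl h)
        · exact Finset.mem_insert_of_mem (Finset.mem_insert_of_mem h)
      obtain ⟨l, hl, hl'⟩ := ha E (Finset.mem_insert_of_mem (Finset.mem_insert_self _ _))
      exact hE' a hs l hl hl'
    · left
      have hLC : HasL ε (insert C (insert D F)) := by
        by_contra h; exact hC ⟨b1, h⟩
      have hLE : HasL ε (insert E (insert D F)) := by
        by_contra h; exact b2 ⟨b3, h⟩
      exact ⟨hD, b1, hLC, b3, hLE, hE'⟩
  have hcard : ((univ.filter P0').card : ℝ) ≤
      ((univ.filter (fun q : Clause k n × Clause k n × Clause k n =>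
        Tr ε F q.1 q.2.1 q.2.2)).card : ℝ) +
      (((univ.filter B1).card : ℝ) + (((univ.filter B3).card : ℝ) +
        ((univ.filter B2).card : ℝ))) := by
    have h := Finset.card_le_card hcov
    have h' := Finset.card_union_le (univ.filter (fun q : Clause k n × Clause k n × Clause k n =>
        Tr ε F q.1 q.2.1 q.2.2)) (univ.filter B1 ∪ (univ.filter B3 ∪ univ.filter B2))
    have h'' := Finset.card_union_le (univ.filter B1) (univ.filter B3 ∪ univ.filter B2)
    have h''' := Finset.card_union_le (univ.filter B3) (univ.filter B2)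
    have hh : (univ.filter P0').card ≤ (univ.filter (fun q : Clause k n × Clause k n × Clause k n =>
        Tr ε F q.1 q.2.1 q.2.2)).card + ((univ.filter B1).card + ((univ.filter B3).card +
        (univ.filter B2).card)) := by omega
    exact_mod_cast hh
  have e1 : P1 ε F * NN k n ≤ κ5 * NN k n ^ 3 := by
    calc P1 ε F * NN k n ≤ κ5 * NN k n ^ 2 * NN k n := mul_le_mul_of_nonneg_right h1 hN0
      _ = κ5 * NN k n ^ 3 := by ring
  rw [hB1, hB3] at hcard
  have e : (κ4 * κ * κ' - 3 * κ5) * NN k n ^ 3 = κ4 * κ * κ' * NN k n ^ 3 - 3 * (κ5 * NN k n ^ 3) := by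
    ring
  rw [e]
  linarith [hB2, h2, hbig, hcard, e1]

end Pool.Agent.H921S
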