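import Pool.Agent.H921S.Stm

/-! D3b (helper196): few exceptional pairs. -/

set_option autoImplicit false

namespace Pool.Agent.H921S

open Finset
open scoped Classical

noncomputable section

/-- the literals which are false in all solutions -/
def D3b_Bh {k n : ℕ} (G : Form k n) : Finset (Lit n) :=
  univ.filter (fun l => ¬ ∃ a, Sol a G ∧ Tru a l)

theorem D3b_point (h0 : T_CNT0) (h1 : T_CNT1) (k : ℕ) (θ : ℝ) (hk : 1 ≤ k) (hθ : 0 < θ) :
    ∃ n0 : ℕ, ∀ n ≥ n0, ∀ (ε : ℝ) (F : Form k n) (C : Clause k n),
      ((univ.filter (fun D : Clause k n => Bad ε F D C)).card : ℝ) ≤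
        (if ¬ NS ε (insert C F) then NN k n else 0) +
        (4 / θ) ^ k * ((univ.filter (fun y : Clause k n =>
          NS ε (insert C F) ∧ ¬ Sat (insert y (insert C F)))).card : ℝ) +
        k * θ / 2 * NN k n := by
  obtain ⟨n0, hn0⟩ := h0 k θ hk hθ
  refine ⟨max n0 1, fun n hn ε F C => ?_⟩
  have hn0' : n0 ≤ n := (le_max_left _ _).trans hn
  have hn1 : 1 ≤ n := (le_max_right _ _).trans hn
  have hnr : (0 : ℝ) < n := by exact_mod_cast (by omega : 0 < n)
  have hN : (0 : ℝ) ≤ NN k n := by unfold NN; positivity
  have hle : ((univ.filter (fun D : Clause k n => Bad ε F D C)).card : ℝ) ≤ NN k n := by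
    unfold NN
    exact_mod_cast card_le_univ _
  by_cases hNS : NS ε (insert C F)
  · rw [if_neg (not_not.2 hNS), zero_add]
    have hcons : ∀ l ∈ D3b_Bh (insert C F), (l.1, !l.2) ∉ D3b_Bh (insert C F) := by
      intro l hl hl'
      simp only [D3b_Bh, mem_filter, mem_univ, true_and] at hl hl'
      obtain ⟨a, ha⟩ := hNS.1
      by_cases h : a l.1 = l.2
      · exact hl ⟨a, ha, h⟩
      · apply hl'
        refine ⟨a, ha, ?_⟩
        show a l.1 = !l.2
        cases h2 : a l.1 <;> cases h3 : l.2 <;> simp_all
    by_cases hbig : θ * n ≤ (D3b_Bh (insert C F)).card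
    · have h2 := hn0 n hn0' _ hcons hbig
      have h3 : ((univ.filter (fun y : Clause k n => y.lits ⊆ D3b_Bh (insert C F))).card : ℝ) ≤
          ((univ.filter (fun y : Clause k n =>
            NS ε (insert C F) ∧ ¬ Sat (insert y (insert C F)))).card : ℝ) := by
        apply Nat.cast_le.2
        apply card_le_card
        intro y hy
        simp only [mem_filter, mem_univ, true_and] at hy ⊢
        refine ⟨hNS, ?_⟩
        rintro ⟨a, ha⟩
        obtain ⟨l, hl, hal⟩ := ha y (mem_insert_self _ _)
        have := hy hl
        simp only [D3b_Bh, mem_filter, mem_univ, true_and] at this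
        exact this ⟨a, fun c hc => ha c (mem_insert_of_mem hc), hal⟩
      have h4 : NN k n ≤ (4 / θ) ^ k * ((univ.filter (fun y : Clause k n =>
          NS ε (insert C F) ∧ ¬ Sat (insert y (insert C F)))).card : ℝ) := by
        have h5 : (4 / θ) ^ k * (θ / 4) ^ k = 1 := by
          rw [← mul_pow]
          have : 4 / θ * (θ / 4) = 1 := by field_simp
          rw [this, one_pow]
        calc NN k n = (4 / θ) ^ k * ((θ / 4) ^ k * NN k n) := by
              rw [← mul_assoc, h5, one_mul]
          _ ≤ _ := mul_le_mul_of_nonneg_left (h2.trans h3) (by positivity)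
      have h6 : 0 ≤ k * θ / 2 * NN k n := by positivity
      linarith
    · push Not at hbig
      have h2 : (univ.filter (fun D : Clause k n => Bad ε F D C)) ⊆
          (D3b_Bh (insert C F)).biUnion (fun l => univ.filter (fun D : Clause k n => l ∈ D.lits)) := by
        intro D hD
        rw [mem_filter] at hD
        rcases hD.2 with h | ⟨d, hd, h⟩
        · exact absurd hNS h
        · rw [mem_biUnion]
          refine ⟨d, ?_, ?_⟩
          · simp only [D3b_Bh, mem_filter, mem_univ, true_and]
            exact h
          · simp only [mem_filter, mem_univ, true_and]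
            exact hd
      have h3 : ((univ.filter (fun D : Clause k n => Bad ε F D C)).card : ℝ) ≤
          ∑ l ∈ D3b_Bh (insert C F),
            ((univ.filter (fun D : Clause k n => l ∈ D.lits)).card : ℝ) := by
        exact_mod_cast (card_le_card h2).trans card_biUnion_le
      have h4 : ∀ l ∈ D3b_Bh (insert C F),
          ((univ.filter (fun D : Clause k n => l ∈ D.lits)).card : ℝ) = k * NN k n / (2 * n) := by
        intro l _
        rw [eq_div_iff (by positivity)]
        have := h1 k n l
        linarith
      rw [sum_congr rfl h4, sum_const, nsmul_eq_mul] at h3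
      have h5 : ((D3b_Bh (insert C F)).card : ℝ) * (k * NN k n / (2 * n)) ≤
          (θ * n) * (k * NN k n / (2 * n)) :=
        mul_le_mul_of_nonneg_right hbig.le (by positivity)
      have h6 : (θ * n) * (k * NN k n / (2 * n)) = k * θ / 2 * NN k n := by
        field_simp
      have h7 : 0 ≤ (4 / θ) ^ k * ((univ.filter (fun y : Clause k n =>
          NS ε (insert C F) ∧ ¬ Sat (insert y (insert C F)))).card : ℝ) := by positivity
      linarith
  · rw [if_pos hNS]
    have h6 : 0 ≤ k * θ / 2 * NN k n := by positivity
    have h7 : 0 ≤ (4 / θ) ^ k * ((univ.filter (fun y : Clause k n =>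
        NS ε (insert C F) ∧ ¬ Sat (insert y (insert C F)))).card : ℝ) := by positivity
    linarith

theorem D3b_thm (h0 : T_CNT0) (h1 : T_CNT1) : T_D3b := by
  intro k θ hk hθ
  obtain ⟨n0, hn0⟩ := D3b_point h0 h1 k θ hk hθ
  refine ⟨n0, fun n hn ε F => ?_⟩
  have e1 : ((univ.filter (fun q : Clause k n × Clause k n => Bad ε F q.1 q.2)).card : ℝ) =
      ∑ C : Clause k n, ((univ.filter (fun D : Clause k n => Bad ε F D C)).card : ℝ) := by
    simp only [card_filter, Nat.cast_sum]
    rw [Fintype.sum_prod_type_right]
  have e2 : P1 ε F = ∑ C : Clause k n, ((univ.filter (fun y : Clause k n =>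
      NS ε (insert C F) ∧ ¬ Sat (insert y (insert C F)))).card : ℝ) := by
    unfold P1
    simp only [card_filter, Nat.cast_sum]
    rw [Fintype.sum_prod_type]
  have e3 : U ε F * NN k n = ∑ C : Clause k n, (if ¬ NS ε (insert C F) then NN k n else 0) := by
    unfold U
    rw [← sum_filter, sum_const, nsmul_eq_mul]
  rw [e1, e2, e3, mul_sum]
  calc _ ≤ ∑ C : Clause k n, ((if ¬ NS ε (insert C F) then NN k n else 0) +
        (4 / θ) ^ k * ((univ.filter (fun y : Clause k n =>
          NS ε (insert C F) ∧ ¬ Sat (insert y (insert C F)))).card : ℝ) +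
        k * θ / 2 * NN k n) := sum_le_sum fun C _ => hn0 n hn ε F C
    _ = _ := by
        rw [sum_add_distrib, sum_add_distrib, sum_const, card_univ, nsmul_eq_mul]
        unfold NN
        ring

end

end Pool.Agent.H921S
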