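import Pool.Agent.H921S.Stm

set_option autoImplicit false

/-! D3c: mixing. -/

namespace Pool.Agent.H921S

open Finset

private lemma sol_insert {k n : ℕ} (a : Asg n) (X : Clause k n) (G : Form k n) :
    Sol a (insert X G) ↔ (∃ l ∈ X.lits, Tru a l) ∧ Sol a G := by
  unfold Sol
  rw [Finset.forall_mem_insert]

private lemma sol_mono {k n : ℕ} {a : Asg n} {H G : Form k n} (h : H ⊆ G) (hs : Sol a G) :
    Sol a H := fun C hC => hs C (h hC)

/-- all solutions agree on the variables of a uniquely satisfiable subformula -/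
private lemma agree {k n : ℕ} {G H : Form k n} (hH : H ⊆ G) (hu : USS H) {X : Clause k n}
    (hX : X ∈ H) {a b : Asg n} (ha : Sol a G) (hb : Sol b G) {l : Lit n} (hl : l ∈ X.lits) :
    a l.1 = b l.1 := by
  apply hu.2.2 a b (sol_mono hH ha) (sol_mono hH hb)
  unfold vars
  rw [Finset.mem_biUnion]
  exact ⟨X, hX, Finset.mem_image_of_mem _ hl⟩

/-- a large uniquely satisfiable subformula of `X + G` contains `X` if `G` has none -/
private lemma mem_of_ns {k n : ℕ} {ε : ℝ} {G H : Form k n} {X : Clause k n} (hG : NS ε G)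
    (hH : H ⊆ insert X G) (hu : USS H) (hl : ε * n ≤ (vars H).card) : X ∈ H := by
  by_contra hX
  exact hG.2 ⟨H, (Finset.subset_insert_iff_of_notMem hX).mp hH, hu, hl⟩

/-- step 2: the literals of `D` are true in all solutions -/
private lemma forced {k n : ℕ} {ε : ℝ} {F : Form k n} {D C : Clause k n}
    (hD : NS ε (insert D F)) (hL : HasL ε (insert C (insert D F))) (hB : ¬ Bad ε F D C) :
    ∀ a, Sol a (insert C (insert D F)) → ∀ d ∈ D.lits, Tru a d := by
  unfold Bad at hB
  push Not at hB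
  obtain ⟨hC, hd⟩ := hB
  obtain ⟨H, hH, hu, hl⟩ := hL
  have hDH : D ∈ H := by
    rw [Finset.insert_comm] at hH
    exact mem_of_ns hC hH hu hl
  intro a ha d hdD
  obtain ⟨b, hb, hbd⟩ := hd d hdD
  have hb' : Sol b (insert C (insert D F)) := by
    rw [sol_insert] at hb
    rw [sol_insert, sol_insert]
    exact ⟨hb.1, ⟨d, hdD, hbd⟩, hb.2⟩
  have := agree hH hu hDH ha hb' hdD
  unfold Tru at hbd ⊢
  rw [this, hbd]

theorem D3c_thm : T_D3c := by
  intro k n ε F D C E hk hF hTr hB1 hB2 hVD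
  obtain ⟨hD, ⟨s1, hs1⟩, hL1, ⟨s2, hs2⟩, hL2, hE⟩ := hTr
  have f1 := forced hD hL1 hB1
  have f2 := forced hD hL2 hB2
  have h1 := (sol_insert _ _ _).mp hs1
  have h2 := (sol_insert _ _ _).mp hs2
  obtain ⟨c, hc, hct⟩ := h1.1
  obtain ⟨e, he, het⟩ := h2.1
  obtain ⟨e', he', hne⟩ : ∃ e' ∈ E.lits, e' ≠ e := by
    have h3 : 1 < E.lits.card := by
      rw [E.card_lits]
      omega
    exact Finset.exists_mem_ne h3 e
  have hcE : c ∉ E.lits := fun h => hVD c hc c h rfl
  have hcE' : c ∉ E.lits.erase e' := fun h => hcE (Finset.mem_of_mem_erase h)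
  let Y : Clause k n :=
    { lits := insert c (E.lits.erase e')
      card_lits := by
        rw [Finset.card_insert_of_notMem hcE', Finset.card_erase_of_mem he', E.card_lits]
        omega
      distinct := by
        intro l hl l' hl' hll
        rw [Finset.mem_insert] at hl hl'
        rcases hl with rfl | hl <;> rcases hl' with rfl | hl'
        · rfl
        · exact absurd hll (hVD l hc l' (Finset.mem_of_mem_erase hl'))
        · exact absurd hll.symm (hVD l' hc l (Finset.mem_of_mem_erase hl))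
        · exact E.distinct l (Finset.mem_of_mem_erase hl) l' (Finset.mem_of_mem_erase hl') hll }
  have hYc : c ∈ Y.lits := Finset.mem_insert_self _ _
  have hYe : e ∈ Y.lits := Finset.mem_insert_of_mem (Finset.mem_erase.mpr ⟨Ne.symm hne, he⟩)
  have hs1Y : Sol s1 (insert Y (insert D F)) := (sol_insert _ _ _).mpr ⟨⟨c, hYc, hct⟩, h1.2⟩
  have hs2Y : Sol s2 (insert Y (insert D F)) := (sol_insert _ _ _).mpr ⟨⟨e, hYe, het⟩, h2.2⟩
  refine ⟨Y, ⟨⟨⟨s1, hs1Y⟩, ?_⟩, ?_⟩, c, hc, hYc, ?_⟩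
  · rintro ⟨H, hH, hu, hl⟩
    have hYH : Y ∈ H := mem_of_ns hD hH hu hl
    have h3 := agree hH hu hYH hs1Y hs2Y hYc
    have h4 : Tru s2 c := by
      unfold Tru at hct ⊢
      rw [← h3, hct]
    have h5 : Sol s2 (insert C (insert D F)) := (sol_insert _ _ _).mpr ⟨⟨c, hc, h4⟩, h2.2⟩
    exact hE s2 h5 e he het
  · intro a ha
    obtain ⟨⟨l, hl, hlt⟩, ha2⟩ := (sol_insert _ _ _).mp ha
    rcases Finset.mem_insert.mp hl with rfl | hl
    · exact f1 a ((sol_insert _ _ _).mpr ⟨⟨l, hc, hlt⟩, ha2⟩)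
    · exact f2 a ((sol_insert _ _ _).mpr ⟨⟨l, Finset.mem_of_mem_erase hl, hlt⟩, ha2⟩)
  · intro l hl
    obtain ⟨hlc, hlY⟩ := Finset.mem_erase.mp hl
    rcases Finset.mem_insert.mp hlY with h | h
    · exact absurd h hlc
    · exact Finset.mem_of_mem_erase h

end Pool.Agent.H921S
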