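import Pool.Agent.H921S.Stm

/-!
# MP_284d10_pr, task D3d: projection (by helper804, for the project of helper921)
-/

set_option autoImplicit false

namespace Pool.Agent.H921S

open Finset
open scoped Classical

theorem D3d_thm (hc : T_D3c) (h1 : T_CNT1) (h3 : T_CNT3) : T_D3d := by
  intro k n ε F hk hn hF
  obtain ⟨Q, hQ⟩ : ∃ Q : Finset (Clause k n × Clause k n),
    Q = univ.filter (fun q : Clause k n × Clause k n => Qr ε F q.1 q.2) := ⟨_, rfl⟩
  obtain ⟨R, hR⟩ : ∃ R : Clause k n × Clause k n →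
      Finset (Clause k n × Clause k n × Clause k n),
    R = fun p => p.2.lits.biUnion fun c =>
      ((univ.filter (fun C : Clause k n => c ∈ C.lits)) ×ˢ
        (univ.filter (fun E : Clause k n => p.2.lits.erase c ⊆ E.lits))).image
        (fun r => (p.1, r.1, r.2)) := ⟨_, rfl⟩
  have hn0 : (0 : ℝ) < n := by exact_mod_cast hn
  have hsub : (univ.filter (fun q : Clause k n × Clause k n × Clause k n =>
      Tr ε F q.1 q.2.1 q.2.2 ∧ ¬ Bad ε F q.1 q.2.1 ∧ ¬ Bad ε F q.1 q.2.2 ∧
        VD q.2.1 q.2.2)) ⊆ Q.biUnion R := by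
    rintro ⟨D, C, E⟩ hq
    rw [mem_filter] at hq
    obtain ⟨-, g1, g2, g3, g4⟩ := hq
    obtain ⟨Y, hY, c, hcC, hcY, hcE⟩ := hc k n ε F D C E hk hF g1 g2 g3 g4
    rw [mem_biUnion]
    refine ⟨(D, Y), by rw [hQ, mem_filter]; exact ⟨mem_univ _, hY⟩, ?_⟩
    rw [hR]
    simp only
    rw [mem_biUnion]
    refine ⟨c, hcY, ?_⟩
    rw [mem_image]
    refine ⟨(C, E), ?_, rfl⟩
    rw [mem_product, mem_filter, mem_filter]
    exact ⟨⟨mem_univ _, hcC⟩, mem_univ _, hcE⟩
  have hcard : ∀ p, ((R p).card : ℝ) ≤ (k : ℝ) ^ 2 * NN k n := by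
    intro p
    have e1 : (R p).card ≤ ∑ c ∈ p.2.lits,
        (univ.filter (fun C : Clause k n => c ∈ C.lits)).card *
        (univ.filter (fun E : Clause k n => p.2.lits.erase c ⊆ E.lits)).card := by
      rw [hR]
      refine card_biUnion_le.trans (sum_le_sum fun c _ => ?_)
      refine card_image_le.trans ?_
      rw [card_product]
    have e2 : ((R p).card : ℝ) ≤ ∑ c ∈ p.2.lits,
        ((univ.filter (fun C : Clause k n => c ∈ C.lits)).card : ℝ) *
        ((univ.filter (fun E : Clause k n => p.2.lits.erase c ⊆ E.lits)).card : ℝ) := by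
      exact_mod_cast e1
    refine e2.trans ?_
    have e3 : ∀ c ∈ p.2.lits, ((univ.filter (fun C : Clause k n => c ∈ C.lits)).card : ℝ) *
        ((univ.filter (fun E : Clause k n => p.2.lits.erase c ⊆ E.lits)).card : ℝ) ≤
        k * NN k n := by
      intro c hcp
      have a1 := h1 k n c
      have a2 := h3 k n (p.2.lits.erase c) (by
        rw [card_erase_of_mem hcp, p.2.card_lits]
        omega)
      have a3 : (0 : ℝ) ≤ ((univ.filter (fun C : Clause k n => c ∈ C.lits)).card : ℝ) :=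
        Nat.cast_nonneg _
      calc _ ≤ ((univ.filter (fun C : Clause k n => c ∈ C.lits)).card : ℝ) * (2 * n) :=
            mul_le_mul_of_nonneg_left a2 a3
        _ = 2 * (n : ℝ) * ((univ.filter (fun C : Clause k n => c ∈ C.lits)).card : ℝ) := by ring
        _ = k * NN k n := a1
    refine (sum_le_sum e3).trans ?_
    rw [sum_const, p.2.card_lits, nsmul_eq_mul]
    exact le_of_eq (by ring)
  calc _ ≤ ((Q.biUnion R).card : ℝ) := by exact_mod_cast card_le_card hsub
    _ ≤ ∑ p ∈ Q, ((R p).card : ℝ) := by exact_mod_cast card_biUnion_le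
    _ ≤ ∑ _p ∈ Q, (k : ℝ) ^ 2 * NN k n := sum_le_sum fun p _ => hcard p
    _ = (k : ℝ) ^ 2 * NN k n * QN ε F := by
        rw [sum_const, nsmul_eq_mul]
        unfold QN
        rw [hQ, mul_comm]

end Pool.Agent.H921S
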