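import Pool.Agent.H921S.Stm

/-!
# D3e: giant class, large backbone
-/

set_option autoImplicit false

namespace Pool.Agent.H921S

open Finset
open scoped Classical

noncomputable section

namespace D3ex

variable {k n : ℕ}

/-- the literals that follow from `d` in `F + Y` -/
def O (F : Form k n) (Y : Clause k n) (d : Lit n) : Finset (Lit n) :=
  univ.filter (fun l => ∀ a, Sol a (insert Y F) → Tru a d → Tru a l)

lemma sol_insert {a : Asg n} {C : Clause k n} {F : Form k n} :
    Sol a (insert C F) ↔ (∃ l ∈ C.lits, Tru a l) ∧ Sol a F := by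
  unfold Sol
  rw [Finset.forall_mem_insert]

/-- clauses with a given literal inside a given set of literals -/
lemma card_in (S : Finset (Lit n)) (d : Lit n) :
    (univ.filter (fun D : Clause k n => d ∈ D.lits ∧ D.lits ⊆ S)).card ≤ S.card ^ (k - 1) := by
  calc (univ.filter (fun D : Clause k n => d ∈ D.lits ∧ D.lits ⊆ S)).card
      ≤ (powersetCard (k - 1) S).card := by
        apply card_le_card_of_injOn (fun D => D.lits.erase d)
        · intro D hD
          simp only [coe_filter, mem_univ, true_and, Set.mem_ofPred_eq] at hD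
          simp only [mem_coe, mem_powersetCard]
          refine ⟨(erase_subset _ _).trans hD.2, ?_⟩
          rw [card_erase_of_mem hD.1, D.card_lits]
        · intro D hD E hE h
          simp only [coe_filter, mem_univ, true_and, Set.mem_ofPred_eq] at hD hE
          apply Clause.ext
          simp only at h
          rw [← insert_erase hD.1, ← insert_erase hE.1, h]
    _ = S.card.choose (k - 1) := card_powersetCard _ _
    _ ≤ S.card ^ (k - 1) := Nat.choose_le_pow _ _

/-- the pairs with a big class -/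
def Gd (ε θ : ℝ) (F : Form k n) (D Y : Clause k n) : Prop :=
  Qr ε F D Y ∧ ∃ d ∈ D.lits, θ * n ≤ ((O F Y d).card : ℝ)

lemma sub_O {ε : ℝ} {F : Form k n} {D Y : Clause k n} (h : Qr ε F D Y) {d : Lit n}
    (hd : d ∈ D.lits) : D.lits ⊆ O F Y d := by
  intro l hl
  simp only [O, mem_filter, mem_univ, true_and]
  intro a ha hda
  rw [sol_insert] at ha
  refine h.2 a ?_ l hl
  rw [sol_insert, sol_insert]
  exact ⟨ha.1, ⟨d, hd, hda⟩, ha.2⟩

/-- few bad pairs -/
lemma card_bad (ε θ : ℝ) (hθ : 0 ≤ θ) (hk : 1 ≤ k) (F : Form k n) (Y : Clause k n) :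
    ((univ.filter (fun D : Clause k n => Qr ε F D Y ∧ ¬ Gd ε θ F D Y)).card : ℝ) ≤
      2 * n * (θ * n) ^ (k - 1) := by
  set small : Finset (Lit n) := univ.filter (fun d => ((O F Y d).card : ℝ) < θ * n) with hs
  have hsub : univ.filter (fun D : Clause k n => Qr ε F D Y ∧ ¬ Gd ε θ F D Y) ⊆
      small.biUnion (fun d => univ.filter (fun D : Clause k n => d ∈ D.lits ∧ D.lits ⊆ O F Y d)) := by
    intro D hD
    simp only [mem_filter, mem_univ, true_and] at hD
    obtain ⟨hQ, hG⟩ := hD
    have hne : D.lits.Nonempty := by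
      rw [← card_pos, D.card_lits]; omega
    obtain ⟨d, hd⟩ := hne
    rw [mem_biUnion]
    refine ⟨d, ?_, ?_⟩
    · simp only [hs, mem_filter, mem_univ, true_and]
      by_contra hcon
      push Not at hcon
      exact hG ⟨hQ, d, hd, hcon⟩
    · simp only [mem_filter, mem_univ, true_and]
      exact ⟨hd, sub_O hQ hd⟩
  have h1 : ((univ.filter (fun D : Clause k n => Qr ε F D Y ∧ ¬ Gd ε θ F D Y)).card : ℝ) ≤
      ∑ d ∈ small, ((univ.filter (fun D : Clause k n => d ∈ D.lits ∧ D.lits ⊆ O F Y d)).card : ℝ) := by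
    exact_mod_cast (card_le_card hsub).trans card_biUnion_le
  have h2 : ∑ d ∈ small, ((univ.filter (fun D : Clause k n => d ∈ D.lits ∧ D.lits ⊆ O F Y d)).card : ℝ)
      ≤ ∑ d ∈ small, (θ * n) ^ (k - 1) := by
    apply sum_le_sum
    intro d hd
    simp only [hs, mem_filter, mem_univ, true_and] at hd
    calc ((univ.filter (fun D : Clause k n => d ∈ D.lits ∧ D.lits ⊆ O F Y d)).card : ℝ)
        ≤ (((O F Y d).card ^ (k - 1) : ℕ) : ℝ) := by exact_mod_cast card_in _ _
      _ = ((O F Y d).card : ℝ) ^ (k - 1) := by push_cast; ring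
      _ ≤ (θ * n) ^ (k - 1) := by gcongr
  have h3 : (small.card : ℝ) ≤ 2 * n := by
    have : small.card ≤ 2 * n := by
      calc small.card ≤ Fintype.card (Lit n) := card_le_univ _
        _ = 2 * n := by simp [Lit, mul_comm]
    exact_mod_cast this
  calc _ ≤ ∑ d ∈ small, (θ * n) ^ (k - 1) := h1.trans h2
    _ = small.card * (θ * n) ^ (k - 1) := by rw [sum_const, nsmul_eq_mul]
    _ ≤ 2 * n * (θ * n) ^ (k - 1) := by
      gcongr

/-- many killing clauses for a good pair -/
lemma card_kill {ε θ : ℝ} {F : Form k n} {D Y : Clause k n} (h : Gd ε θ F D Y)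
    (h0 : ∀ B : Finset (Lit n), (∀ l ∈ B, (l.1, !l.2) ∉ B) → θ * n ≤ B.card →
      (θ / 4) ^ k * NN k n ≤ ((univ.filter (fun C : Clause k n => C.lits ⊆ B)).card : ℝ)) :
    (θ / 4) ^ k * NN k n ≤ ((univ.filter (fun z : Clause k n =>
      NS ε (insert Y (insert D F)) ∧ ¬ Sat (insert z (insert Y (insert D F))))).card : ℝ) := by
  obtain ⟨hQ, d, hd, hO⟩ := h
  have hnegeq : ∀ l : Lit n, ((l.1, !l.2).1, !(l.1, !l.2).2) = l := by
    intro l; simp
  set B : Finset (Lit n) := univ.filter (fun l => (l.1, !l.2) ∈ O F Y d) with hB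
  have htrue : ∀ a, Sol a (insert Y (insert D F)) → ∀ l ∈ O F Y d, Tru a l := by
    intro a ha l hl
    simp only [O, mem_filter, mem_univ, true_and] at hl
    refine hl a ?_ (hQ.2 a ha d hd)
    rw [sol_insert, sol_insert] at ha
    rw [sol_insert]
    exact ⟨ha.1, ha.2.2⟩
  have hcons : ∀ l ∈ B, (l.1, !l.2) ∉ B := by
    intro l hl hl'
    simp only [hB, mem_filter, mem_univ, true_and] at hl hl'
    obtain ⟨a, ha⟩ := hQ.1.1
    have h1 := htrue a ha _ hl
    have h2 := htrue a ha _ hl'
    simp only [Tru] at h1 h2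
    rw [h1] at h2
    cases hb : l.2 <;> simp [hb] at h2
  have hcard : θ * n ≤ (B.card : ℝ) := by
    have : (O F Y d).card ≤ B.card := by
      apply card_le_card_of_injOn (fun l => ((l.1, !l.2) : Lit n))
      · intro l hl
        simp only [hB, coe_filter, mem_univ, true_and, Set.mem_ofPred_eq]
        simpa using hl
      · intro l _ l' _ h
        simp only [Prod.mk.injEq] at h
        apply Prod.ext h.1
        have := h.2
        simpa using this
    calc θ * n ≤ ((O F Y d).card : ℝ) := hO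
      _ ≤ B.card := by exact_mod_cast this
  refine (h0 B hcons hcard).trans ?_
  have : (univ.filter (fun C : Clause k n => C.lits ⊆ B)).card ≤ (univ.filter (fun z : Clause k n =>
      NS ε (insert Y (insert D F)) ∧ ¬ Sat (insert z (insert Y (insert D F))))).card := by
    apply card_le_card
    intro z hz
    simp only [mem_filter, mem_univ, true_and] at hz ⊢
    refine ⟨hQ.1, ?_⟩
    rintro ⟨a, ha⟩
    rw [sol_insert] at ha
    obtain ⟨⟨l, hl, hla⟩, ha'⟩ := ha
    have hlB := hz hl
    simp only [hB, mem_filter, mem_univ, true_and] at hlB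
    have h1 := htrue a ha' _ hlB
    simp only [Tru] at h1 hla
    rw [h1] at hla
    cases hb : l.2 <;> simp [hb] at hla
  exact_mod_cast this

end D3ex

open D3ex in
theorem D3e_thm (h0 : T_CNT0) (h4 : T_CNT4) : T_D3e := by
  intro k κ8 hk hκ8
  have hkk : (0:ℝ) < (k:ℝ) ^ k := by positivity
  set θ : ℝ := min 1 (κ8 / (2 * (k:ℝ) ^ k)) with hθ
  have hθ0 : 0 < θ := lt_min one_pos (by positivity)
  have hθ1 : θ ≤ 1 := min_le_left _ _
  have hθ2 : θ * (k:ℝ) ^ k ≤ κ8 / 2 := by
    have h := min_le_right (1:ℝ) (κ8 / (2 * (k:ℝ) ^ k))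
    calc θ * (k:ℝ) ^ k ≤ κ8 / (2 * (k:ℝ) ^ k) * (k:ℝ) ^ k := by gcongr
      _ = κ8 / 2 := by field_simp
  obtain ⟨n1, hn1⟩ := h0 k θ (by omega) hθ0
  obtain ⟨n2, hn2⟩ := h4 k hk 0
  refine ⟨κ8 / 2 * (θ / 4) ^ k, by positivity, max n1 n2, ?_⟩
  intro n hn ε F hQ
  have hN0 : (0:ℝ) ≤ NN k n := by positivity
  have hC := hn1 n ((le_max_left _ _).trans hn)
  have hn' := (hn2 n ((le_max_right _ _).trans hn)).2
  -- bad pairs
  have hbad : ((univ.filter (fun q : Clause k n × Clause k n =>
      Qr ε F q.1 q.2 ∧ ¬ Gd ε θ F q.1 q.2)).card : ℝ) ≤ κ8 / 2 * NN k n ^ 2 := by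
    have e1 : (univ.filter (fun q : Clause k n × Clause k n =>
        Qr ε F q.1 q.2 ∧ ¬ Gd ε θ F q.1 q.2)).card =
        ∑ Y : Clause k n, (univ.filter (fun D : Clause k n => Qr ε F D Y ∧ ¬ Gd ε θ F D Y)).card := by
      simp only [card_filter]
      rw [Fintype.sum_prod_type_right]
    rw [e1]
    push_cast
    calc ∑ Y : Clause k n, ((univ.filter (fun D : Clause k n =>
          Qr ε F D Y ∧ ¬ Gd ε θ F D Y)).card : ℝ)
        ≤ ∑ Y : Clause k n, (κ8 / 2 * NN k n) := by
          apply sum_le_sum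
          intro Y _
          refine (card_bad ε θ hθ0.le (by omega) F Y).trans ?_
          obtain ⟨j, rfl⟩ : ∃ j, k = j + 2 := ⟨k - 2, by omega⟩
          have e2 : (j + 2 - 1) = j + 1 := by omega
          rw [e2]
          calc 2 * (n:ℝ) * (θ * n) ^ (j + 1)
              = θ * θ ^ j * (2 * (n:ℝ) ^ (j + 2)) := by ring
            _ ≤ θ * 1 * (2 ^ (j + 2) * (n:ℝ) ^ (j + 2)) := by
                have : θ ^ j ≤ 1 := pow_le_one₀ hθ0.le hθ1
                have h2 : (2:ℝ) ≤ 2 ^ (j + 2) := by
                  calc (2:ℝ) = 2 ^ 1 := by norm_num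
                    _ ≤ 2 ^ (j + 2) := by
                      apply pow_le_pow_right₀ (by norm_num) (by omega)
                gcongr
            _ ≤ θ * (((j + 2 : ℕ) : ℝ) ^ (j + 2) * NN (j + 2) n) := by
                rw [mul_one]
                exact mul_le_mul_of_nonneg_left hn' hθ0.le
            _ = (θ * ((j + 2 : ℕ) : ℝ) ^ (j + 2)) * NN (j + 2) n := by ring
            _ ≤ κ8 / 2 * NN (j + 2) n := by gcongr
      _ = κ8 / 2 * NN k n ^ 2 := by
          rw [sum_const, card_univ, nsmul_eq_mul]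
          ring
  -- good pairs
  have hsplit : QN ε F ≤ ((univ.filter (fun q : Clause k n × Clause k n =>
      Gd ε θ F q.1 q.2)).card : ℝ) + ((univ.filter (fun q : Clause k n × Clause k n =>
      Qr ε F q.1 q.2 ∧ ¬ Gd ε θ F q.1 q.2)).card : ℝ) := by
    unfold QN
    have : (univ.filter (fun q : Clause k n × Clause k n => Qr ε F q.1 q.2)) ⊆
        (univ.filter (fun q : Clause k n × Clause k n => Gd ε θ F q.1 q.2)) ∪
        (univ.filter (fun q : Clause k n × Clause k n =>
          Qr ε F q.1 q.2 ∧ ¬ Gd ε θ F q.1 q.2)) := by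
      intro q hq
      simp only [mem_union, mem_filter, mem_univ, true_and] at hq ⊢
      by_cases hg : Gd ε θ F q.1 q.2
      · exact Or.inl hg
      · exact Or.inr ⟨hq, hg⟩
    exact_mod_cast (card_le_card this).trans (card_union_le _ _)
  have hgood : κ8 / 2 * NN k n ^ 2 ≤ ((univ.filter (fun q : Clause k n × Clause k n =>
      Gd ε θ F q.1 q.2)).card : ℝ) := by linarith
  -- triples
  have e3 : P2 ε F = ∑ q : Clause k n × Clause k n, ((univ.filter (fun z : Clause k n =>
      NS ε (insert q.2 (insert q.1 F)) ∧ ¬ Sat (insert z (insert q.2 (insert q.1 F))))).card : ℝ) := by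
    unfold P2
    simp only [card_filter]
    push_cast
    rw [Fintype.sum_prod_type, Fintype.sum_prod_type]
    apply sum_congr rfl
    intro x _
    rw [Fintype.sum_prod_type]
  rw [e3]
  calc κ8 / 2 * (θ / 4) ^ k * NN k n ^ 3
      = (κ8 / 2 * NN k n ^ 2) * ((θ / 4) ^ k * NN k n) := by ring
    _ ≤ ((univ.filter (fun q : Clause k n × Clause k n =>
        Gd ε θ F q.1 q.2)).card : ℝ) * ((θ / 4) ^ k * NN k n) := by
        apply mul_le_mul_of_nonneg_right hgood (by positivity)
    _ = ∑ q ∈ univ.filter (fun q : Clause k n × Clause k n => Gd ε θ F q.1 q.2),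
          ((θ / 4) ^ k * NN k n) := by rw [sum_const, nsmul_eq_mul]
    _ ≤ ∑ q ∈ univ.filter (fun q : Clause k n × Clause k n => Gd ε θ F q.1 q.2),
          ((univ.filter (fun z : Clause k n =>
      NS ε (insert q.2 (insert q.1 F)) ∧ ¬ Sat (insert z (insert q.2 (insert q.1 F))))).card : ℝ) := by
        apply sum_le_sum
        intro q hq
        simp only [mem_filter, mem_univ, true_and] at hq
        exact card_kill hq hC
    _ ≤ _ := by
        apply sum_le_sum_of_subset_of_nonneg (filter_subset _ _)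
        intro q _ _
        positivity

end

end Pool.Agent.H921S
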