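import Pool.Agent.H921S.Stm

/-!
# DET: the deterministic inequalities
-/

set_option autoImplicit false

namespace Pool.Agent.H921S

open Finset
open scoped Classical

noncomputable section

theorem DET_sum_ind {α : Type} [Fintype α] (s : Finset α) (p : α → Prop) :
    ∑ x ∈ s, ind (p x) ≤ ((univ.filter p).card : ℝ) := by
  calc ∑ x ∈ s, ind (p x) ≤ ∑ x ∈ univ, ind (p x) :=
        Finset.sum_le_sum_of_subset_of_nonneg (Finset.subset_univ _) fun x _ _ => by
          unfold ind; split_ifs <;> norm_num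
    _ = _ := by
        unfold ind
        rw [Finset.sum_ite, Finset.sum_const_zero, add_zero, Finset.sum_const, nsmul_eq_mul,
          mul_one]

theorem DET_PP_le {k n : ℕ} (p : Form k n → Prop) (F : Form k n) (hN : 0 < NN k n)
    (hF : (F.card : ℝ) ≤ NN k n / 2) :
    PP (fun G : Form k n => ind (p G)) F ≤
      2 * (((univ.filter (fun x : Clause k n => p (insert x F))).card : ℝ) / NN k n) := by
  unfold PP
  have h1 : NN k n / 2 ≤ (Fintype.card (Clause k n) : ℝ) - F.card := by
    have : NN k n = (Fintype.card (Clause k n) : ℝ) := rfl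
    linarith
  have h2 := DET_sum_ind (univ \ F) (fun x : Clause k n => p (insert x F))
  have h3 : (0 : ℝ) ≤ ((univ.filter (fun x : Clause k n => p (insert x F))).card : ℝ) :=
    Nat.cast_nonneg _
  rw [div_le_iff₀ (by linarith)]
  refine h2.trans ?_
  have h4 : 2 * (((univ.filter (fun x : Clause k n => p (insert x F))).card : ℝ) / NN k n) *
      (NN k n / 2) = ((univ.filter (fun x : Clause k n => p (insert x F))).card : ℝ) := by
    field_simp
  calc ((univ.filter (fun x : Clause k n => p (insert x F))).card : ℝ)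
      = 2 * (((univ.filter (fun x : Clause k n => p (insert x F))).card : ℝ) / NN k n) *
      (NN k n / 2) := h4.symm
    _ ≤ _ := mul_le_mul_of_nonneg_left h1 (by positivity)

theorem DET_thm (hWB : T_WB) (hD1 : T_D1) (hD2 : T_D2) (hD3 : T_D3) (hQQ : T_QQ)
    (hCNT4 : T_CNT4) : T_DET := by
  intro k ε L hk hε hε1
  obtain ⟨nA, hA⟩ := hWB k ε (by omega) hε
  set κ : ℝ := (ε / 4) ^ k / 2 with hκdef
  have hκ : 0 < κ := by positivity
  have hκ1 : κ ≤ 1 := by
    have h1 : (ε / 4) ^ k ≤ 1 := pow_le_one₀ (by positivity) (by linarith)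
    rw [hκdef]; linarith
  obtain ⟨κ3, κ5, hκ3, hκ5, nB, hB⟩ := hD3 k ε κ hk hε hε1 hκ hκ1
  obtain ⟨nC, hC⟩ := hCNT4 k hk L
  set κ3' : ℝ := min κ3 (κ / 4) with hκ3'def
  have hκ3' : 0 < κ3' := lt_min hκ3 (by positivity)
  set c : ℝ := min (κ / 6) (min (κ * κ3' / 6) (min (κ ^ 2 / 12) (κ5 / 6))) with hcdef
  have hc : 0 < c := by
    rw [hcdef]
    refine lt_min (by positivity) (lt_min (by positivity) (lt_min (by positivity) (by positivity)))
  have hc1 : c ≤ κ / 6 := min_le_left _ _
  have hc2 : c ≤ κ * κ3' / 6 := (min_le_right _ _).trans (min_le_left _ _)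
  have hc3 : c ≤ κ ^ 2 / 12 := (min_le_right _ _).trans ((min_le_right _ _).trans (min_le_left _ _))
  have hc4 : c ≤ κ5 / 6 := (min_le_right _ _).trans ((min_le_right _ _).trans (min_le_right _ _))
  refine ⟨c, κ, hc, hκ, max nA (max nB nC), ?_⟩
  intro n hn F hF hNS hU0
  have hnA : nA ≤ n := (le_max_left _ _).trans hn
  have hnB : nB ≤ n := (le_max_left _ _).trans ((le_max_right _ _).trans hn)
  have hnC : nC ≤ n := (le_max_right _ _).trans ((le_max_right _ _).trans hn)
  obtain ⟨hcard, -⟩ := hC n hnC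
  have hcard2 : 2 * (F.card + 3) ≤ Fintype.card (Clause k n) := by omega
  have hNpos : 0 < NN k n := by
    have : 0 < Fintype.card (Clause k n) := by omega
    exact_mod_cast this
  have hFN : (F.card : ℝ) ≤ NN k n / 2 := by
    have h1 : 2 * F.card ≤ Fintype.card (Clause k n) := by omega
    have h2 : (2 : ℝ) * F.card ≤ NN k n := by exact_mod_cast h1
    linarith
  have hUκ : U ε F ≤ κ * NN k n := by
    by_contra h
    push Not at h
    exact hU0 ⟨hNS, h⟩
  have hwb : ∀ G : Form k n, Sat G → HasL ε G → 2 * κ * NN k n ≤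
      ((univ.filter (fun E : Clause k n => ∀ a, Sol a G → ∀ e ∈ E.lits, ¬ Tru a e)).card : ℝ) := by
    intro G h1 h2
    have h3 := hA n hnA G h1 h2
    have h4 : 2 * κ = (ε / 4) ^ k := by rw [hκdef]; ring
    rw [h4]; exact h3
  have hd1 := hD1 k n ε κ hκ.le hκ1 hwb
  set S : ℝ := q0 (NS ε) (fun G => ¬ Sat G) F + q1 (NS ε) (fun G => ¬ Sat G) F +
        q2 (NS ε) (fun G => ¬ Sat G) F with hS
  have hqq : P0 F / NN k n + P1 ε F / NN k n ^ 2 + P2 ε F / NN k n ^ 3 ≤ 3 * S :=
    hQQ k n ε F hNS hcard2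
  have hP0 : 0 ≤ P0 F / NN k n := div_nonneg (Nat.cast_nonneg _) hNpos.le
  have hP1 : 0 ≤ P1 ε F / NN k n ^ 2 := div_nonneg (Nat.cast_nonneg _) (by positivity)
  have hP2 : 0 ≤ P2 ε F / NN k n ^ 3 := div_nonneg (Nat.cast_nonneg _) (by positivity)
  have hUN : κ * (U ε F / NN k n) ≤ 3 * S := by
    have h1 := hd1 F hNS hUκ
    have h2 : κ * U ε F / NN k n ≤ (P0 F + P1 ε F / NN k n) / NN k n :=
      div_le_div_of_nonneg_right h1 hNpos.le
    have h3 : (P0 F + P1 ε F / NN k n) / NN k n = P0 F / NN k n + P1 ε F / NN k n ^ 2 := by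
      field_simp
    rw [h3, mul_div_assoc] at h2
    linarith
  have hU_nonneg : 0 ≤ U ε F / NN k n := div_nonneg (Nat.cast_nonneg _) hNpos.le
  have hJ_nonneg : 0 ≤ JJ ε κ F / NN k n := div_nonneg (Nat.cast_nonneg _) hNpos.le
  have hJ_le : JJ ε κ F / NN k n ≤ 1 := by
    rw [div_le_one hNpos]
    unfold JJ
    exact_mod_cast Finset.card_le_univ _
  have hPPU : PP (fun G : Form k n => ind (¬ NS ε G)) F ≤ 2 * (U ε F / NN k n) := by
    have h := DET_PP_le (fun G => ¬ NS ε G) F hNpos hFN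
    unfold U
    convert h
  have hPPJ : PP (fun G : Form k n => ind (NS ε G ∧ κ * NN k n < U ε G)) F ≤
      2 * (JJ ε κ F / NN k n) := by
    have h := DET_PP_le (fun G => NS ε G ∧ κ * NN k n < U ε G) F hNpos hFN
    unfold JJ
    convert h
  constructor
  · calc c * PP (fun G : Form k n => ind (¬ NS ε G)) F ≤ c * (2 * (U ε F / NN k n)) :=
        mul_le_mul_of_nonneg_left hPPU hc.le
      _ ≤ κ / 6 * (2 * (U ε F / NN k n)) := mul_le_mul_of_nonneg_right hc1 (by positivity)
      _ ≤ S := by linarith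
  · refine (mul_le_mul_of_nonneg_left hPPJ hc.le).trans ?_
    by_cases hcase : κ3' * NN k n < U ε F
    · have h1 : κ3' < U ε F / NN k n := by rw [lt_div_iff₀ hNpos]; exact hcase
      have h2 : κ * κ3' ≤ κ * (U ε F / NN k n) := mul_le_mul_of_nonneg_left h1.le hκ.le
      calc c * (2 * (JJ ε κ F / NN k n)) ≤ c * (2 * 1) :=
            mul_le_mul_of_nonneg_left (by linarith) hc.le
        _ ≤ S := by linarith
    · push Not at hcase
      by_cases hcase2 : JJ ε κ F ≤ κ / 4 * NN k n
      · have h1 : U ε F ≤ κ / 4 * NN k n :=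
          hcase.trans (mul_le_mul_of_nonneg_right (min_le_right _ _) hNpos.le)
        have h2 := hD2 k n ε κ hκ.le hκ1 hd1 F hNS h1 hcase2
        have h3 : κ ^ 2 / 2 * JJ ε κ F * NN k n / NN k n ^ 2 ≤
            (P1 ε F + P2 ε F / NN k n) / NN k n ^ 2 :=
          div_le_div_of_nonneg_right h2 (by positivity)
        have h4 : κ ^ 2 / 2 * JJ ε κ F * NN k n / NN k n ^ 2 =
            κ ^ 2 / 2 * (JJ ε κ F / NN k n) := by
          field_simp
        have h5 : (P1 ε F + P2 ε F / NN k n) / NN k n ^ 2 =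
            P1 ε F / NN k n ^ 2 + P2 ε F / NN k n ^ 3 := by
          field_simp
        rw [h4, h5] at h3
        calc c * (2 * (JJ ε κ F / NN k n)) ≤ κ ^ 2 / 12 * (2 * (JJ ε κ F / NN k n)) :=
              mul_le_mul_of_nonneg_right hc3 (by positivity)
          _ ≤ S := by linarith
      · push Not at hcase2
        have h1 : U ε F ≤ κ3 * NN k n :=
          hcase.trans (mul_le_mul_of_nonneg_right (min_le_left _ _) hNpos.le)
        have h2 := hB n hnB F hNS h1 hcase2.le
        calc c * (2 * (JJ ε κ F / NN k n)) ≤ c * (2 * 1) :=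
              mul_le_mul_of_nonneg_left (by linarith) hc.le
          _ ≤ S := by linarith

end

end Pool.Agent.H921S
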