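import Pool.Agent.H921S.Stm

/-! Task FIN: the final theorem. -/

set_option autoImplicit false

namespace Pool.Agent.H921S

open Finset
open scoped Classical

theorem FIN_ind_nonneg (P : Prop) : 0 ≤ ind P := by
  unfold ind
  split_ifs <;> norm_num

theorem FIN_ind_true {P : Prop} (h : P) : ind P = 1 := if_pos h

theorem FIN_ind_false {P : Prop} (h : ¬ P) : ind P = 0 := if_neg h

theorem FIN_avg_mono {Ω : Type} [Fintype Ω] [DecidableEq Ω] {f g : Ord Ω → ℝ}
    (h : ∀ σ, f σ ≤ g σ) : avg f ≤ avg g := by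
  unfold avg
  exact div_le_div_of_nonneg_right (sum_le_sum fun σ _ => h σ) (Nat.cast_nonneg _)

theorem FIN_avg_add {Ω : Type} [Fintype Ω] [DecidableEq Ω] (f g : Ord Ω → ℝ) :
    avg (fun σ => f σ + g σ) = avg f + avg g := by
  unfold avg
  rw [sum_add_distrib, add_div]

theorem FIN_avg_one {Ω : Type} [Fintype Ω] [DecidableEq Ω] :
    avg (fun _ : Ord Ω => (1 : ℝ)) = 1 := by
  unfold avg
  have : Nonempty (Ord Ω) := ⟨(Fintype.equivFin Ω).symm⟩
  have h : (Fintype.card (Ord Ω) : ℝ) ≠ 0 := by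
    exact_mod_cast Fintype.card_ne_zero
  rw [sum_const, card_univ, nsmul_eq_mul, mul_one, div_self h]

theorem FIN_st_mono {Ω : Type} [Fintype Ω] [DecidableEq Ω] (σ : Ord Ω) {m m' : ℕ}
    (h : m ≤ m') : st σ m ⊆ st σ m' := by
  intro x hx
  unfold st at hx ⊢
  rw [mem_filter] at hx ⊢
  exact ⟨hx.1, lt_of_lt_of_le hx.2 h⟩

variable {k n : ℕ}

theorem FIN_Sol_mono {F G : Form k n} (h : F ⊆ G) {a : Asg n} (hG : Sol a G) : Sol a F :=
  fun C hC => hG C (h hC)

theorem FIN_Sat_mono {F G : Form k n} (h : F ⊆ G) (hG : Sat G) : Sat F := by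
  obtain ⟨a, ha⟩ := hG
  exact ⟨a, FIN_Sol_mono h ha⟩

theorem FIN_HasL_mono {ε : ℝ} {F G : Form k n} (h : F ⊆ G) (hF : HasL ε F) : HasL ε G := by
  obtain ⟨H, h1, h2⟩ := hF
  exact ⟨H, h1.trans h, h2⟩

theorem FIN_NS_mono {ε : ℝ} {F G : Form k n} (h : F ⊆ G) (hG : NS ε G) : NS ε F :=
  ⟨FIN_Sat_mono h hG.1, fun hF => hG.2 (FIN_HasL_mono h hF)⟩

theorem FIN_NS_empty (ε : ℝ) : NS ε (∅ : Form k n) := by
  refine ⟨⟨fun _ => true, fun C hC => absurd hC (notMem_empty C)⟩, ?_⟩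
  rintro ⟨H, h1, h2, -⟩
  rw [subset_empty] at h1
  rw [h1] at h2
  exact not_nonempty_empty h2.1

theorem FIN_NS_single {ε : ℝ} (hk : 1 ≤ k) (hn : (k : ℝ) < ε * n) (x : Clause k n) :
    NS ε (insert x (∅ : Form k n)) := by
  have hne : x.lits.Nonempty := by
    rw [← card_pos, x.card_lits]
    omega
  obtain ⟨l, hl⟩ := hne
  refine ⟨⟨fun _ => l.2, ?_⟩, ?_⟩
  · intro C hC
    rw [mem_insert] at hC
    rcases hC with hC | hC
    · rw [hC]
      exact ⟨l, hl, rfl⟩
    · exact absurd hC (notMem_empty C)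
  · rintro ⟨H, h1, -, h3⟩
    have h4 : vars H ⊆ x.lits.image Prod.fst := by
      intro v hv
      unfold vars at hv
      rw [mem_biUnion] at hv
      obtain ⟨C, hC, hv⟩ := hv
      have h5 := h1 hC
      rw [mem_insert] at h5
      rcases h5 with h5 | h5
      · rwa [← h5]
      · exact absurd h5 (notMem_empty C)
    have h5 : (vars H).card ≤ k := by
      calc (vars H).card ≤ (x.lits.image Prod.fst).card := card_le_card h4
        _ ≤ x.lits.card := card_image_le
        _ = k := x.card_lits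
    have h6 : ((vars H).card : ℝ) ≤ k := by exact_mod_cast h5
    linarith

theorem FIN_thm (hSUM : T_SUM) (hDET : T_DET) (hLATE : T_LATE) (hSM1 : T_SM1) (hSM2 : T_SM2)
    (hCARD : T_CARD) (hCNT4 : T_CNT4) : T_FIN := by
  intro k hk
  obtain ⟨ε, hε0, hε1, hsm⟩ := hSM2 k hk (2 ^ k)
  obtain ⟨c, κ, hc, hκ, n1, hdet⟩ := hDET k ε (2 ^ k) hk hε0 hε1
  obtain ⟨γ, hγ⟩ : ∃ γ : ℝ, γ = min (1 / 2) (c / 48) := ⟨_, rfl⟩
  have hγ0 : 0 < γ := by
    rw [hγ]
    positivity
  have hγ1 : γ ≤ 1 / 2 := by rw [hγ]; exact min_le_left _ _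
  have hγ2 : γ ≤ c / 48 := by rw [hγ]; exact min_le_right _ _
  obtain ⟨n2, hn2⟩ := hsm γ hγ0
  obtain ⟨n3, hn3⟩ := hLATE k hk γ hγ0
  obtain ⟨n4, hn4⟩ := hCNT4 k hk (2 ^ k)
  obtain ⟨n5, hn5⟩ := exists_nat_gt ((k : ℝ) / ε)
  refine ⟨c / 24, by positivity, max n1 (max n2 (max n3 (max n4 n5))), fun n hn => ?_⟩
  have hnn1 : n1 ≤ n := by omega
  have hnn2 : n2 ≤ n := by omega
  have hnn3 : n3 ≤ n := by omega
  have hnn4 : n4 ≤ n := by omega
  have hnn5 : n5 ≤ n := by omega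
  have hkε : (k : ℝ) < ε * n := by
    have h1 : (k : ℝ) / ε < n := lt_of_lt_of_le hn5 (by exact_mod_cast hnn5)
    rw [div_lt_iff₀ hε0] at h1
    linarith
  have hN := (hn4 n hnn4).1
  obtain ⟨M, hM⟩ : ∃ M : ℕ, M = 2 ^ k * n := ⟨_, rfl⟩
  have hMN : M + 3 ≤ Fintype.card (Clause k n) := by omega
  have hlate : avg (fun σ : Ord (Clause k n) => ind (Sat (st σ M))) ≤ γ := by
    rw [hM]
    exact hn3 n hnn3
  have hsmall : avg (fun σ : Ord (Clause k n) =>
      ind (∃ H ⊆ st σ M, USS H ∧ ((vars H).card : ℝ) < ε * n)) ≤ γ := by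
    refine (hSM1 k n M ε (by omega)).trans ?_
    have h1 := hn2 n hnn2
    have e1 : NN k n = ((2 ^ k * n.choose k : ℕ) : ℝ) := by
      change ((Fintype.card (Clause k n) : ℕ) : ℝ) = _
      rw [hCARD k n]
    rw [hM, e1]
    exact h1
  -- the jump probability
  have hjump := hSUM (Clause k n) (NS ε) (fun G => ¬ Sat G)
    (fun G => NS ε G ∧ κ * NN k n < U ε G) M c hMN hc
    (fun F G h hG => FIN_NS_mono h hG) (fun F hF hA => hF hA.1) (FIN_NS_empty ε)
    (by
      rintro ⟨-, h⟩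
      have h1 : U ε (∅ : Form k n) = 0 := by
        unfold U
        rw [filter_eq_empty_iff.2 fun x _ => not_not.2 (FIN_NS_single (by omega) hkε x)]
        simp
      rw [h1] at h
      have h2 : (0 : ℝ) ≤ κ * NN k n := by positivity
      linarith)
    (fun F hF hA hR => hdet n hnn1 F (by rw [← hM]; exact hF) hA hR)
  have hstart : 1 / 2 ≤ avg (fun σ : Ord (Clause k n) => ind (¬ NS ε (st σ M))) := by
    have h1 : avg (fun _ : Ord (Clause k n) => (1 : ℝ)) ≤
        avg (fun σ : Ord (Clause k n) => ind (Sat (st σ M)) + ind (¬ NS ε (st σ M))) := by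
      apply FIN_avg_mono
      intro σ
      by_cases h : Sat (st σ M)
      · rw [FIN_ind_true h]
        have := FIN_ind_nonneg (¬ NS ε (st σ M))
        linarith
      · have h' : ¬ NS ε (st σ M) := fun h' => h h'.1
        rw [FIN_ind_false h, FIN_ind_true h']
        norm_num
    rw [FIN_avg_one, FIN_avg_add] at h1
    linarith
  have hpj : c / 12 ≤ pj (NS ε) (fun G : Form k n => ¬ Sat G) := by
    have h1 := hstart.trans hjump
    have h2 : 6 / c * pj (NS ε) (fun G : Form k n => ¬ Sat G) =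
        6 * pj (NS ε) (fun G : Form k n => ¬ Sat G) / c := by ring
    rw [h2, le_div_iff₀ hc] at h1
    linarith
  have hincl : pj (NS ε) (fun G : Form k n => ¬ Sat G) ≤
      avg (fun σ : Ord (Clause k n) =>
        (ind (∀ m, Sat (st σ m) → ¬ HasUSS (st σ m)) + ind (Sat (st σ M))) +
        ind (∃ H ⊆ st σ M, USS H ∧ ((vars H).card : ℝ) < ε * n)) := by
    unfold pj
    apply FIN_avg_mono
    intro σ
    have i1 := FIN_ind_nonneg (∀ m, Sat (st σ m) → ¬ HasUSS (st σ m))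
    have i2 := FIN_ind_nonneg (Sat (st σ M))
    have i3 := FIN_ind_nonneg (∃ H ⊆ st σ M, USS H ∧ ((vars H).card : ℝ) < ε * n)
    by_cases hE : ∃ m, m < Fintype.card (Clause k n) ∧ NS ε (st σ m) ∧ ¬ Sat (st σ (m + 1))
    · rw [FIN_ind_true hE]
      by_cases h1 : Sat (st σ M)
      · have := FIN_ind_true h1
        linarith
      by_cases h2 : ∃ H ⊆ st σ M, USS H ∧ ((vars H).card : ℝ) < ε * n
      · have := FIN_ind_true h2
        linarith
      have h3 : ∀ m, Sat (st σ m) → ¬ HasUSS (st σ m) := by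
        obtain ⟨m, -, hm1, hm2⟩ := hE
        rintro m' hs ⟨H, hH, hU⟩
        have a1 : m' ≤ m := by
          by_contra hcon
          exact hm2 (FIN_Sat_mono (FIN_st_mono σ (by omega)) hs)
        have a2 : m' ≤ M := by
          by_contra hcon
          exact h1 (FIN_Sat_mono (FIN_st_mono σ (by omega)) hs)
        rcases lt_or_ge ((vars H).card : ℝ) (ε * n) with h4 | h4
        · exact h2 ⟨H, hH.trans (FIN_st_mono σ a2), hU, h4⟩
        · exact hm1.2 ⟨H, hH.trans (FIN_st_mono σ a1), hU, h4⟩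
      have := FIN_ind_true h3
      linarith
    · rw [FIN_ind_false hE]
      linarith
  rw [FIN_avg_add, FIN_avg_add] at hincl
  linarith

end Pool.Agent.H921S
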