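import Pool.Agent.H921S.Stm

/-! Task LATE: unsatisfiable at time `2 ^ k * n`. -/

set_option autoImplicit false

namespace Pool.Agent.H921S

open Finset
open scoped Classical

theorem LATE_ind_nonneg (P : Prop) : 0 ≤ ind P := by
  unfold ind
  split_ifs <;> norm_num

theorem LATE_ind_true {P : Prop} (h : P) : ind P = 1 := if_pos h

theorem LATE_ind_false {P : Prop} (h : ¬ P) : ind P = 0 := if_neg h

theorem LATE_avg_mono {Ω : Type} [Fintype Ω] [DecidableEq Ω] {f g : Ord Ω → ℝ}
    (h : ∀ σ, f σ ≤ g σ) : avg f ≤ avg g := by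
  unfold avg
  exact div_le_div_of_nonneg_right (sum_le_sum fun σ _ => h σ) (Nat.cast_nonneg _)

theorem LATE_avg_sum {Ω : Type} [Fintype Ω] [DecidableEq Ω] {ι : Type} (s : Finset ι)
    (f : ι → Ord Ω → ℝ) : avg (fun σ => ∑ i ∈ s, f i σ) = ∑ i ∈ s, avg (f i) := by
  unfold avg
  rw [sum_comm, sum_div]

/-- the clause violated by `a` on the set `S` of variables -/
def LATE_cl {k n : ℕ} (a : Asg n) (S : Finset (Fin n)) (hS : S.card = k) : Clause k n where
  lits := S.image fun v => (v, !a v)
  card_lits := by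
    rw [card_image_of_injective _ fun v w h => congrArg Prod.fst h, hS]
  distinct := by
    intro l hl l' hl' h
    rw [mem_image] at hl hl'
    obtain ⟨v, -, rfl⟩ := hl
    obtain ⟨w, -, rfl⟩ := hl'
    have : v = w := h
    rw [this]

/-- few clauses are satisfied by `a` -/
theorem LATE_card (hC : T_CARD) (k n : ℕ) (a : Asg n) :
    ((univ.filter (fun C : Clause k n => ∃ l ∈ C.lits, Tru a l)).card : ℝ) ≤
      (1 - 1 / 2 ^ k) * NN k n := by
  have h1 : n.choose k ≤ (univ.filter (fun C : Clause k n => ¬ ∃ l ∈ C.lits, Tru a l)).card := by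
    have e1 : Fintype.card {S : Finset (Fin n) // S.card = k} = n.choose k := by
      rw [Fintype.card_finset_len, Fintype.card_fin]
    rw [← e1, ← Fintype.card_subtype]
    refine Fintype.card_le_of_injective (fun S => ⟨LATE_cl a S.1 S.2, ?_⟩) ?_
    · rintro ⟨l, hl, ht⟩
      have hl' : l ∈ S.1.image fun v => (v, !a v) := hl
      rw [mem_image] at hl'
      obtain ⟨v, -, rfl⟩ := hl'
      unfold Tru at ht
      simp at ht
    · intro S S' h
      have h2 : S.1.image (fun v => (v, !a v)) = S'.1.image (fun v => (v, !a v)) :=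
        congrArg Clause.lits (congrArg Subtype.val h)
      exact Subtype.ext (image_injective (fun v w h => congrArg Prod.fst h) h2)
  have h2 := card_filter_add_card_filter_not (s := (univ : Finset (Clause k n)))
    (fun C => ∃ l ∈ C.lits, Tru a l)
  rw [card_univ] at h2
  have h3 := hC k n
  have h4 : ((univ.filter (fun C : Clause k n => ∃ l ∈ C.lits, Tru a l)).card : ℝ) +
      (n.choose k : ℝ) ≤ NN k n := by
    have : (univ.filter (fun C : Clause k n => ∃ l ∈ C.lits, Tru a l)).card + n.choose k ≤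
        Fintype.card (Clause k n) := by omega
    exact_mod_cast this
  have h5 : NN k n = 2 ^ k * (n.choose k : ℝ) := by
    change ((Fintype.card (Clause k n) : ℕ) : ℝ) = _
    rw [h3]
    push_cast
    ring
  have h6 : (1 - 1 / 2 ^ k) * NN k n = NN k n - (n.choose k : ℝ) := by
    rw [h5]
    field_simp
  rw [h6]
  linarith

theorem LATE_thm (hS : T_SUBA) (hC : T_CARD) (h4 : T_CNT4) : T_LATE := by
  intro k hk γ hγ
  obtain ⟨n1, hn1⟩ := h4 k hk (2 ^ k)
  have htend : Filter.Tendsto (fun n : ℕ => (2 / Real.exp 1) ^ n) Filter.atTop (nhds 0) := by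
    apply tendsto_pow_atTop_nhds_zero_of_lt_one
    · positivity
    · rw [div_lt_one (Real.exp_pos 1)]
      have := Real.exp_one_gt_d9
      linarith
  obtain ⟨n2, hn2⟩ := Filter.eventually_atTop.1 (htend.eventually (ge_mem_nhds hγ))
  refine ⟨max n1 n2, fun n hn => ?_⟩
  have hnn1 : n1 ≤ n := le_trans (le_max_left _ _) hn
  have hnn2 : n2 ≤ n := le_trans (le_max_right _ _) hn
  have hN : 2 * (2 ^ k * n + 10) ≤ Fintype.card (Clause k n) := (hn1 n hnn1).1
  have hm : 2 ^ k * n ≤ Fintype.card (Clause k n) := by omega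
  have hNpos : (0 : ℝ) < NN k n := by
    have : 0 < Fintype.card (Clause k n) := by omega
    exact_mod_cast this
  have hbound : ∀ a : Asg n, avg (fun σ : Ord (Clause k n) =>
      ind (st σ (2 ^ k * n) ⊆ univ.filter (fun C : Clause k n => ∃ l ∈ C.lits, Tru a l))) ≤
      (Real.exp (-1)) ^ n := by
    intro a
    refine (hS (Clause k n) _ _ hm).trans ?_
    have e1 : (((univ.filter (fun C : Clause k n => ∃ l ∈ C.lits, Tru a l)).card : ℝ) /
        Fintype.card (Clause k n)) ≤ Real.exp (-(1 / 2 ^ k)) := by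
      rw [div_le_iff₀ hNpos]
      have e2 := LATE_card hC k n a
      have e3 : 1 - 1 / 2 ^ k ≤ Real.exp (-(1 / 2 ^ k)) := by
        have := Real.add_one_le_exp (-(1 / 2 ^ k : ℝ))
        linarith
      exact e2.trans (mul_le_mul_of_nonneg_right e3 hNpos.le)
    refine (pow_le_pow_left₀ (by positivity) e1 _).trans (le_of_eq ?_)
    rw [← Real.exp_nat_mul, ← Real.exp_nat_mul]
    congr 1
    push_cast
    field_simp
  calc avg (fun σ : Ord (Clause k n) => ind (Sat (st σ (2 ^ k * n))))
      ≤ avg (fun σ : Ord (Clause k n) => ∑ a : Asg n,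
        ind (st σ (2 ^ k * n) ⊆ univ.filter (fun C : Clause k n => ∃ l ∈ C.lits, Tru a l))) := by
        apply LATE_avg_mono
        intro σ
        by_cases hsat : Sat (st σ (2 ^ k * n))
        · obtain ⟨a, ha⟩ := hsat
          rw [LATE_ind_true ⟨a, ha⟩]
          have e1 : st σ (2 ^ k * n) ⊆
              univ.filter (fun C : Clause k n => ∃ l ∈ C.lits, Tru a l) := by
            intro C hCm
            rw [mem_filter]
            exact ⟨mem_univ _, ha C hCm⟩
          calc (1 : ℝ) = ind (st σ (2 ^ k * n) ⊆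
                univ.filter (fun C : Clause k n => ∃ l ∈ C.lits, Tru a l)) :=
                (LATE_ind_true e1).symm
            _ ≤ _ := single_le_sum (f := fun a : Asg n => ind (st σ (2 ^ k * n) ⊆
                univ.filter (fun C : Clause k n => ∃ l ∈ C.lits, Tru a l)))
                (fun a _ => LATE_ind_nonneg _) (mem_univ a)
        · rw [LATE_ind_false hsat]
          exact sum_nonneg fun a _ => LATE_ind_nonneg _
    _ = ∑ a : Asg n, avg (fun σ : Ord (Clause k n) =>
        ind (st σ (2 ^ k * n) ⊆ univ.filter (fun C : Clause k n => ∃ l ∈ C.lits, Tru a l))) :=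
        LATE_avg_sum _ _
    _ ≤ ∑ _a : Asg n, (Real.exp (-1)) ^ n := sum_le_sum fun a _ => hbound a
    _ = (2 / Real.exp 1) ^ n := by
        rw [sum_const, card_univ, Fintype.card_fun, Fintype.card_bool, Fintype.card_fin,
          nsmul_eq_mul, Real.exp_neg, div_pow, inv_pow]
        push_cast
        rw [div_eq_mul_inv]
    _ ≤ γ := hn2 n hnn2

end Pool.Agent.H921S
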