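import Pool.Agent.H921S.Stm

/-!
# QQ: from counts to probabilities
-/

set_option autoImplicit false

namespace Pool.Agent.H921S

open Finset
open scoped Classical

noncomputable section

namespace QQaux

variable {k n : ℕ}

theorem ind_nonneg (P : Prop) : 0 ≤ ind P := by
  unfold ind; split_ifs <;> norm_num

theorem ind_true {P : Prop} (h : P) : ind P = 1 := by unfold ind; rw [if_pos h]

theorem ind_false {P : Prop} (h : ¬ P) : ind P = 0 := by unfold ind; rw [if_neg h]

theorem sat_mono {F G : Form k n} (h : F ⊆ G) (hG : Sat G) : Sat F := by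
  obtain ⟨a, ha⟩ := hG
  exact ⟨a, fun C hC => ha C (h hC)⟩

theorem ns_mono {ε : ℝ} {F G : Form k n} (h : F ⊆ G) (hG : NS ε G) : NS ε F :=
  ⟨sat_mono h hG.1, fun ⟨H, hH, h1⟩ => hG.2 ⟨H, hH.trans h, h1⟩⟩

theorem sum_insert (h : Form k n → ℝ) (F : Form k n) (hF : F.card < Fintype.card (Clause k n)) :
    ∑ x : Clause k n, h (insert x F) = F.card * h F + (NN k n - F.card) * PP h F := by
  have h1 : ∑ x : Clause k n, h (insert x F) =
      ∑ x ∈ univ \ F, h (insert x F) + ∑ x ∈ F, h (insert x F) := by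
    rw [Finset.sum_sdiff (subset_univ F)]
  have h2 : ∑ x ∈ F, h (insert x F) = F.card * h F := by
    rw [Finset.sum_congr rfl fun x hx => by rw [Finset.insert_eq_of_mem hx], Finset.sum_const,
      nsmul_eq_mul]
  have h3 : (0 : ℝ) < NN k n - F.card := by
    have : (F.card : ℝ) < (Fintype.card (Clause k n) : ℝ) := by exact_mod_cast hF
    linarith
  rw [h1, h2]
  unfold PP
  rw [mul_div_cancel₀ _ h3.ne']
  ring

theorem PP_mono {g h : Form k n → ℝ} {F : Form k n} (hF : F.card < Fintype.card (Clause k n))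
    (hgh : ∀ x, x ∉ F → g (insert x F) ≤ h (insert x F)) : PP g F ≤ PP h F := by
  have h3 : (0 : ℝ) < NN k n - F.card := by
    have : (F.card : ℝ) < (Fintype.card (Clause k n) : ℝ) := by exact_mod_cast hF
    linarith
  unfold PP
  refine div_le_div_of_nonneg_right (Finset.sum_le_sum fun x hx => hgh x ?_) h3.le
  simpa using hx

theorem PP_nonneg {g : Form k n → ℝ} (hg : ∀ G, 0 ≤ g G) (F : Form k n) : 0 ≤ PP g F := by
  unfold PP
  refine div_nonneg (Finset.sum_nonneg fun x _ => hg _) ?_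
  have : (F.card : ℝ) ≤ (Fintype.card (Clause k n) : ℝ) := by
    exact_mod_cast Finset.card_le_univ F
  linarith

theorem PP_smul (c : ℝ) (g : Form k n → ℝ) (F : Form k n) :
    PP (fun G => c * g G) F = c * PP g F := by
  unfold PP
  rw [← Finset.mul_sum, mul_div_assoc]

theorem PP_add (g h : Form k n → ℝ) (F : Form k n) :
    PP (fun G => g G + h G) F = PP g F + PP h F := by
  unfold PP
  rw [Finset.sum_add_distrib, add_div]

abbrev Q0 (ε : ℝ) (F : Form k n) : ℝ := q0 (NS ε) (fun G => ¬ Sat G) F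
abbrev Q1 (ε : ℝ) (F : Form k n) : ℝ := q1 (NS ε) (fun G => ¬ Sat G) F
abbrev Q2 (ε : ℝ) (F : Form k n) : ℝ := q2 (NS ε) (fun G => ¬ Sat G) F

theorem Q0_nonneg (ε : ℝ) (F : Form k n) : 0 ≤ Q0 ε F :=
  mul_nonneg (ind_nonneg _) (PP_nonneg (fun _ => ind_nonneg _) F)

theorem Q1_nonneg (ε : ℝ) (F : Form k n) : 0 ≤ Q1 ε F :=
  mul_nonneg (ind_nonneg _) (PP_nonneg (fun G => Q0_nonneg ε G) F)

theorem Q2_nonneg (ε : ℝ) (F : Form k n) : 0 ≤ Q2 ε F :=
  mul_nonneg (ind_nonneg _) (PP_nonneg (fun G => Q1_nonneg ε G) F)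

theorem P0_eq (F : Form k n) : P0 F = ∑ x : Clause k n, ind (¬ Sat (insert x F)) := by
  unfold P0 ind
  rw [Finset.card_filter]
  push_cast
  exact Finset.sum_congr rfl fun x _ => by congr

theorem P1_eq (ε : ℝ) (F : Form k n) :
    P1 ε F = ∑ x : Clause k n, ind (NS ε (insert x F)) * P0 (insert x F) := by
  unfold P1
  rw [Finset.card_filter, Fintype.sum_prod_type]
  push_cast
  refine Finset.sum_congr rfl fun x _ => ?_
  rw [P0_eq, Finset.mul_sum]
  refine Finset.sum_congr rfl fun y _ => ?_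
  unfold ind
  by_cases h1 : NS ε (insert x F) <;> by_cases h2 : Sat (insert y (insert x F)) <;>
    simp [h1, h2]

theorem P2_eq (ε : ℝ) (F : Form k n) :
    P2 ε F = ∑ x : Clause k n, P1 ε (insert x F) := by
  unfold P2 P1
  rw [Finset.card_filter, Fintype.sum_prod_type]
  push_cast
  refine Finset.sum_congr rfl fun x _ => ?_
  rw [Finset.card_filter]
  push_cast
  rfl

theorem P0_nonneg (F : Form k n) : 0 ≤ P0 F := by unfold P0; positivity

theorem P0_le {ε : ℝ} {F : Form k n} (hF : NS ε F) (hc : F.card < Fintype.card (Clause k n)) :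
    P0 F ≤ NN k n * Q0 ε F := by
  have h1 : P0 F = (NN k n - F.card) * Q0 ε F := by
    rw [P0_eq, sum_insert (fun G => ind (¬ Sat G)) F hc, ind_false (by simpa using hF.1)]
    unfold Q0 q0
    rw [ind_true hF]
    ring
  rw [h1]
  exact mul_le_mul_of_nonneg_right (by linarith [(Nat.cast_nonneg F.card : (0 : ℝ) ≤ F.card)])
    (Q0_nonneg ε F)

theorem P0'_le {ε : ℝ} {F : Form k n} (hc : F.card < Fintype.card (Clause k n)) :
    ind (NS ε F) * P0 F ≤ NN k n * Q0 ε F := by
  by_cases hF : NS ε F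
  · rw [ind_true hF, one_mul]; exact P0_le hF hc
  · rw [ind_false hF, zero_mul]
    exact mul_nonneg (Nat.cast_nonneg _) (Q0_nonneg ε F)

theorem P1_le {ε : ℝ} {F : Form k n} (hF : NS ε F)
    (hc : F.card + 1 < Fintype.card (Clause k n)) :
    P1 ε F ≤ NN k n * (F.card * Q0 ε F + NN k n * Q1 ε F) := by
  rw [P1_eq, sum_insert (fun G => ind (NS ε G) * P0 G) F (by omega)]
  have h1 : PP (fun G => ind (NS ε G) * P0 G) F ≤ NN k n * Q1 ε F := by
    calc PP (fun G => ind (NS ε G) * P0 G) F ≤ PP (fun G => NN k n * Q0 ε G) F := by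
          refine PP_mono (by omega) fun x hx => ?_
          refine P0'_le ?_
          rw [Finset.card_insert_of_notMem hx]
          exact hc
      _ = NN k n * PP (Q0 ε) F := PP_smul _ _ _
      _ = NN k n * Q1 ε F := by
          unfold Q1 q1
          rw [ind_true hF, one_mul]
  have h2 : ind (NS ε F) * P0 F ≤ NN k n * Q0 ε F := P0'_le (by omega)
  have h3 : (F.card : ℝ) + 1 < NN k n := by exact_mod_cast hc
  have h0 : (0 : ℝ) ≤ F.card := Nat.cast_nonneg _
  have hN : (0 : ℝ) ≤ NN k n := Nat.cast_nonneg _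
  have h4 : (NN k n - F.card) * PP (fun G => ind (NS ε G) * P0 G) F ≤
      (NN k n - F.card) * (NN k n * Q1 ε F) := mul_le_mul_of_nonneg_left h1 (by linarith)
  have h5 : (NN k n - F.card) * (NN k n * Q1 ε F) ≤ NN k n * (NN k n * Q1 ε F) :=
    mul_le_mul_of_nonneg_right (by linarith) (mul_nonneg hN (Q1_nonneg ε F))
  have h6 := mul_le_mul_of_nonneg_left h2 h0
  nlinarith [h4, h5, h6]

theorem P1'_le {ε : ℝ} {F : Form k n} (hc : 2 * (F.card + 2) ≤ Fintype.card (Clause k n)) :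
    P1 ε F ≤ NN k n ^ 2 * (Q0 ε F + Q1 ε F) := by
  have hN : (0 : ℝ) ≤ NN k n := Nat.cast_nonneg _
  by_cases hF : NS ε F
  · have h1 := P1_le hF (by omega)
    have h3 : (F.card : ℝ) ≤ NN k n := by exact_mod_cast (by omega : F.card ≤ _)
    have h4 : (F.card : ℝ) * Q0 ε F ≤ NN k n * Q0 ε F :=
      mul_le_mul_of_nonneg_right h3 (Q0_nonneg ε F)
    have h5 := mul_le_mul_of_nonneg_left h4 hN
    nlinarith [h1, h5]
  · have h1 : P1 ε F = 0 := by
      rw [P1_eq]
      refine Finset.sum_eq_zero fun x _ => ?_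
      rw [ind_false (fun h => hF (ns_mono (Finset.subset_insert x F) h)), zero_mul]
    rw [h1]
    exact mul_nonneg (by positivity) (add_nonneg (Q0_nonneg ε F) (Q1_nonneg ε F))

theorem P2_le {ε : ℝ} {F : Form k n} (hF : NS ε F)
    (hc : 2 * (F.card + 3) ≤ Fintype.card (Clause k n)) :
    P2 ε F ≤ NN k n ^ 2 * (F.card * (Q0 ε F + Q1 ε F) + NN k n * (Q1 ε F + Q2 ε F)) := by
  rw [P2_eq, sum_insert (fun G => P1 ε G) F (by omega)]
  have h1 : PP (fun G => P1 ε G) F ≤ NN k n ^ 2 * (Q1 ε F + Q2 ε F) := by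
    calc PP (fun G => P1 ε G) F ≤ PP (fun G => NN k n ^ 2 * (Q0 ε G + Q1 ε G)) F := by
          refine PP_mono (by omega) fun x hx => ?_
          refine P1'_le ?_
          rw [Finset.card_insert_of_notMem hx]
          omega
      _ = NN k n ^ 2 * (PP (Q0 ε) F + PP (Q1 ε) F) := by
          rw [PP_smul (NN k n ^ 2) (fun G => Q0 ε G + Q1 ε G) F, PP_add (Q0 ε) (Q1 ε) F]
      _ = NN k n ^ 2 * (Q1 ε F + Q2 ε F) := by
          have e1 : Q1 ε F = PP (Q0 ε) F := by
            unfold Q1 q1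
            rw [ind_true hF, one_mul]
          have e2 : Q2 ε F = PP (Q1 ε) F := by
            unfold Q2 q2
            rw [ind_true hF, one_mul]
          rw [e1, e2]
  have h2 : P1 ε F ≤ NN k n ^ 2 * (Q0 ε F + Q1 ε F) := P1'_le (by omega)
  have h3 : (F.card : ℝ) ≤ NN k n := by exact_mod_cast (by omega : F.card ≤ _)
  have h0 : (0 : ℝ) ≤ F.card := Nat.cast_nonneg _
  have hN : (0 : ℝ) ≤ NN k n := Nat.cast_nonneg _
  have h4 := mul_le_mul_of_nonneg_left h1 (sub_nonneg.2 h3)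
  have h7 : 0 ≤ NN k n ^ 2 * (Q1 ε F + Q2 ε F) :=
    mul_nonneg (by positivity) (add_nonneg (Q1_nonneg ε F) (Q2_nonneg ε F))
  have h5 : (NN k n - F.card) * (NN k n ^ 2 * (Q1 ε F + Q2 ε F)) ≤
      NN k n * (NN k n ^ 2 * (Q1 ε F + Q2 ε F)) :=
    mul_le_mul_of_nonneg_right (by linarith) h7
  have h6 := mul_le_mul_of_nonneg_left h2 h0
  nlinarith [h4, h5, h6]

end QQaux

open QQaux in
theorem QQ_thm : T_QQ := by
  intro k n ε F hF hc
  have hNpos : (0 : ℝ) < NN k n := by
    have : 0 < Fintype.card (Clause k n) := by omega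
    exact_mod_cast this
  have hm : 2 * (F.card : ℝ) ≤ NN k n := by
    have : 2 * F.card ≤ Fintype.card (Clause k n) := by omega
    exact_mod_cast this
  have h0 := P0_le hF (by omega)
  have h1 := P1_le hF (by omega)
  have h2 := P2_le hF hc
  have n0 := Q0_nonneg ε F
  have n1 := Q1_nonneg ε F
  have n2 := Q2_nonneg ε F
  have c0 : (0 : ℝ) ≤ F.card := Nat.cast_nonneg _
  have g0 : P0 F / NN k n ≤ Q0 ε F := by
    rw [div_le_iff₀ hNpos]; linarith
  have g1 : P1 ε F / NN k n ^ 2 ≤ Q0 ε F / 2 + Q1 ε F := by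
    rw [div_le_iff₀ (by positivity)]
    have := mul_le_mul_of_nonneg_left
      (mul_le_mul_of_nonneg_right (by linarith : (F.card : ℝ) ≤ NN k n / 2) n0) hNpos.le
    nlinarith [h1, this]
  have g2 : P2 ε F / NN k n ^ 3 ≤ (Q0 ε F + Q1 ε F) / 2 + (Q1 ε F + Q2 ε F) := by
    rw [div_le_iff₀ (by positivity)]
    have := mul_le_mul_of_nonneg_left
      (mul_le_mul_of_nonneg_right (by linarith : (F.card : ℝ) ≤ NN k n / 2)
        (add_nonneg n0 n1)) (by positivity : (0 : ℝ) ≤ NN k n ^ 2)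
    nlinarith [h2, this]
  have : Q0 ε F = q0 (NS ε) (fun G => ¬ Sat G) F := rfl
  have : Q1 ε F = q1 (NS ε) (fun G => ¬ Sat G) F := rfl
  have : Q2 ε F = q2 (NS ε) (fun G => ¬ Sat G) F := rfl
  linarith

end

end Pool.Agent.H921S
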