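import Pool.Agent.H921S.Stm

/-!
# SM1: union bound for small uniquely satisfiable subformulas
-/

set_option autoImplicit false

namespace Pool.Agent.H921S

open Finset
open scoped Classical

noncomputable section

namespace SM1

/-- clauses whose variables lie in `V` -/
def CV (k n : ℕ) (V : Finset (Fin n)) : Finset (Clause k n) :=
  univ.filter (fun C : Clause k n => C.lits.image Prod.fst ⊆ V)

theorem card_CV_le (hK : T_CARD) (k n : ℕ) (V : Finset (Fin n)) :
    (CV k n V).card ≤ 2 ^ k * V.card.choose k := by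
  rw [← hK k V.card]
  let e : Fin V.card ↪ Fin n := (V.orderEmbOfFin rfl).toEmbedding
  have he : ∀ v ∈ V, ∃ i, e i = v := by
    intro v hv
    have h1 : v ∈ Set.range (V.orderEmbOfFin rfl) := by
      rw [Finset.range_orderEmbOfFin]; exact hv
    exact h1
  let φ : Lit V.card ↪ Lit n := e.prodMap (Function.Embedding.refl Bool)
  have hφ : ∀ l : Lit V.card, φ l = (e l.1, l.2) := fun l => rfl
  have key : ∀ C ∈ CV k n V,
      (univ.filter (fun l : Lit V.card => φ l ∈ C.lits)).map φ = C.lits := by
    intro C hC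
    ext l
    simp only [mem_map, mem_filter, mem_univ, true_and]
    constructor
    · rintro ⟨a, ha, rfl⟩; exact ha
    · intro hl
      obtain ⟨i, hi⟩ := he l.1 ((mem_filter.1 hC).2 (mem_image_of_mem _ hl))
      have h2 : φ (i, l.2) = l := by rw [hφ]; simp [hi]
      exact ⟨(i, l.2), by rw [h2]; exact hl, h2⟩
  let f : {C // C ∈ CV k n V} → Clause k V.card := fun C =>
    { lits := univ.filter (fun l : Lit V.card => φ l ∈ C.1.lits)
      card_lits := by
        rw [← Finset.card_map φ, key C.1 C.2]; exact C.1.card_lits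
      distinct := by
        intro l hl l' hl' hll
        have h3 := C.1.distinct (φ l) (mem_filter.1 hl).2 (φ l') (mem_filter.1 hl').2
          (by rw [hφ, hφ, hll])
        exact φ.injective h3 }
  have hf : Function.Injective f := by
    intro C C' h
    have h4 : (f C).lits = (f C').lits := by rw [h]
    have h5 : (univ.filter (fun l : Lit V.card => φ l ∈ C.1.lits)) =
      (univ.filter (fun l : Lit V.card => φ l ∈ C'.1.lits)) := h4
    apply Subtype.ext
    apply Clause.ext
    rw [← key C.1 C.2, ← key C'.1 C'.2, h5]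
  have h6 := Fintype.card_le_of_injective f hf
  rwa [Fintype.card_coe] at h6

theorem k_le_vars {k n : ℕ} {H : Form k n} (hne : H.Nonempty) : k ≤ (vars H).card := by
  obtain ⟨C, hC⟩ := hne
  have h1 : (C.lits.image Prod.fst).card = k := by
    rw [card_image_of_injOn, C.card_lits]
    intro l hl l' hl' h
    exact C.distinct l hl l' hl' h
  refine h1.ge.trans ?_
  apply card_le_card
  exact subset_biUnion_of_mem (fun C : Clause k n => C.lits.image Prod.fst) hC

theorem avg_sum_le {Ω ι : Type} [Fintype Ω] [DecidableEq Ω] (s : Finset ι)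
    (f : ι → Ord Ω → ℝ) (b : ι → ℝ) (h : ∀ i ∈ s, avg (f i) ≤ b i) :
    avg (fun σ : Ord Ω => ∑ i ∈ s, f i σ) ≤ ∑ i ∈ s, b i := by
  have h1 : avg (fun σ : Ord Ω => ∑ i ∈ s, f i σ) = ∑ i ∈ s, avg (f i) := by
    unfold avg
    rw [sum_comm, sum_div]
  rw [h1]
  exact sum_le_sum h

theorem avg_mono {Ω : Type} [Fintype Ω] [DecidableEq Ω] {f g : Ord Ω → ℝ}
    (h : ∀ σ, f σ ≤ g σ) : avg f ≤ avg g := by
  unfold avg
  exact div_le_div_of_nonneg_right (sum_le_sum fun σ _ => h σ) (Nat.cast_nonneg _)

theorem ind_nonneg (P : Prop) : 0 ≤ ind P := by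
  unfold ind; split_ifs <;> norm_num

theorem ind_true {P : Prop} (h : P) : ind P = 1 := if_pos h

theorem ind_false {P : Prop} (h : ¬ P) : ind P = 0 := if_neg h

end SM1

open SM1 in
theorem SM1_thm (hS : T_SUBS) (hC : T_CRIT) (hK : T_CARD) : T_SM1 := by
  intro k n M ε hM
  have hpt : ∀ σ : Ord (Clause k n),
      ind (∃ H ⊆ st σ M, USS H ∧ ((vars H).card : ℝ) < ε * n) ≤
      ∑ h ∈ (range (n + 1)).filter (fun h => k ≤ h ∧ (h : ℝ) < ε * n),
        ∑ V ∈ powersetCard h (univ : Finset (Fin n)),
          ∑ H' ∈ powersetCard h (CV k n V), ind (H' ⊆ st σ M) := by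
    intro σ
    by_cases hex : ∃ H ⊆ st σ M, USS H ∧ ((vars H).card : ℝ) < ε * n
    · rw [ind_true hex]
      obtain ⟨H, hHs, hU, hlt⟩ := hex
      obtain ⟨H', hH'1, hH'2⟩ := exists_subset_card_eq (hC k n H hU)
      have hmem : (vars H).card ∈
          (range (n + 1)).filter (fun h => k ≤ h ∧ (h : ℝ) < ε * n) := by
        rw [mem_filter, mem_range]
        refine ⟨?_, k_le_vars hU.1, hlt⟩
        have := card_le_univ (vars H)
        rw [Fintype.card_fin] at this
        omega
      have hH'V : H' ∈ powersetCard (vars H).card (CV k n (vars H)) := by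
        rw [mem_powersetCard]
        refine ⟨?_, hH'2⟩
        intro C hCm
        unfold CV
        rw [mem_filter]
        exact ⟨mem_univ _,
          subset_biUnion_of_mem (fun C : Clause k n => C.lits.image Prod.fst) (hH'1 hCm)⟩
      calc (1 : ℝ) = ind (H' ⊆ st σ M) := (ind_true (hH'1.trans hHs)).symm
        _ ≤ ∑ H' ∈ powersetCard (vars H).card (CV k n (vars H)), ind (H' ⊆ st σ M) :=
            single_le_sum (f := fun H' => ind (H' ⊆ st σ M)) (fun _ _ => ind_nonneg _) hH'V
        _ ≤ ∑ V ∈ powersetCard (vars H).card (univ : Finset (Fin n)),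
          ∑ H' ∈ powersetCard (vars H).card (CV k n V), ind (H' ⊆ st σ M) :=
            single_le_sum (f := fun V => ∑ H' ∈ powersetCard (vars H).card (CV k n V),
              ind (H' ⊆ st σ M)) (fun _ _ => sum_nonneg fun _ _ => ind_nonneg _)
              (mem_powersetCard.2 ⟨subset_univ _, rfl⟩)
        _ ≤ _ := single_le_sum (f := fun h => ∑ V ∈ powersetCard h (univ : Finset (Fin n)),
          ∑ H' ∈ powersetCard h (CV k n V), ind (H' ⊆ st σ M))
            (fun _ _ => sum_nonneg fun _ _ => sum_nonneg fun _ _ => ind_nonneg _) hmem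
    · rw [ind_false hex]
      exact sum_nonneg fun _ _ => sum_nonneg fun _ _ => sum_nonneg fun _ _ => ind_nonneg _
  refine (avg_mono hpt).trans ?_
  apply avg_sum_le
  intro h hh
  have hq0 : (0 : ℝ) ≤ ((M : ℝ) / NN k n) ^ h := by positivity
  have hV : ∀ V ∈ powersetCard h (univ : Finset (Fin n)),
      avg (fun σ : Ord (Clause k n) => ∑ H' ∈ powersetCard h (CV k n V), ind (H' ⊆ st σ M)) ≤
      ((2 ^ k * h.choose k).choose h : ℝ) * ((M : ℝ) / NN k n) ^ h := by
    intro V hV
    have hVc := (mem_powersetCard.1 hV).2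
    have h1 : avg (fun σ : Ord (Clause k n) =>
        ∑ H' ∈ powersetCard h (CV k n V), ind (H' ⊆ st σ M)) ≤
        ∑ H' ∈ powersetCard h (CV k n V), ((M : ℝ) / NN k n) ^ h := by
      apply avg_sum_le
      intro H' hH'
      have h2 := hS (Clause k n) H' M hM
      rw [(mem_powersetCard.1 hH').2] at h2
      exact h2
    refine h1.trans ?_
    rw [sum_const, nsmul_eq_mul, card_powersetCard]
    apply mul_le_mul_of_nonneg_right _ hq0
    have h3 := card_CV_le hK k n V
    rw [hVc] at h3
    exact_mod_cast Nat.choose_le_choose h h3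
  refine (avg_sum_le _ _ _ hV).trans ?_
  rw [sum_const, nsmul_eq_mul, card_powersetCard, card_univ, Fintype.card_fin, mul_assoc]

end

end Pool.Agent.H921S
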