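import Pool.Agent.H921S.Stm

/-!
# SM2: the numerical estimate for small uniquely satisfiable subformulas
-/

set_option autoImplicit false

namespace Pool.Agent.H921S

open Finset
open scoped Classical

noncomputable section

namespace SM2

theorem descFactorial_mul_pow_le (h n : ℕ) (hn : h ≤ n) (k : ℕ) :
    h.descFactorial k * n ^ k ≤ n.descFactorial k * h ^ k := by
  induction k with
  | zero => simp
  | succ k ih =>
    rw [Nat.descFactorial_succ, Nat.descFactorial_succ, pow_succ, pow_succ]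
    have h1 : (h - k) * n ≤ (n - k) * h := by
      rcases Nat.lt_or_ge h k with hk | hk
      · rw [Nat.sub_eq_zero_of_le hk.le]; simp
      · obtain ⟨a, rfl⟩ := Nat.exists_eq_add_of_le hk
        obtain ⟨b, rfl⟩ := Nat.exists_eq_add_of_le hn
        have e1 : k + a - k = a := by omega
        have e2 : k + a + b - k = a + b := by omega
        rw [e1, e2]
        nlinarith [Nat.zero_le (k * b)]
    calc (h - k) * h.descFactorial k * (n ^ k * n)
        = ((h - k) * n) * (h.descFactorial k * n ^ k) := by ring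
      _ ≤ ((n - k) * h) * (n.descFactorial k * h ^ k) := Nat.mul_le_mul h1 ih
      _ = (n - k) * n.descFactorial k * (h ^ k * h) := by ring

theorem choose_mul_pow_le (h n : ℕ) (hn : h ≤ n) (k : ℕ) :
    h.choose k * n ^ k ≤ n.choose k * h ^ k := by
  have h1 := descFactorial_mul_pow_le h n hn k
  rw [Nat.descFactorial_eq_factorial_mul_choose, Nat.descFactorial_eq_factorial_mul_choose,
    mul_assoc, mul_assoc] at h1
  exact Nat.le_of_mul_le_mul_left h1 (Nat.factorial_pos k)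

theorem choose_le_exp (n h : ℕ) (hh : 1 ≤ h) :
    (n.choose h : ℝ) ≤ (Real.exp 1 * n / h) ^ h := by
  have h0 : (0 : ℝ) < h := by exact_mod_cast hh
  have h1 : (n.choose h : ℝ) ≤ (n : ℝ) ^ h / (h.factorial : ℝ) := Nat.choose_le_pow_div h n
  have h2 : (h : ℝ) ^ h / (h.factorial : ℝ) ≤ Real.exp h :=
    Real.pow_div_factorial_le_exp (h : ℝ) h0.le h
  have hf : (0 : ℝ) < (h.factorial : ℝ) := by exact_mod_cast Nat.factorial_pos h
  have h3 : Real.exp h = Real.exp 1 ^ h := by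
    rw [← Real.exp_nat_mul]; simp
  have h4 : (1 : ℝ) / (h.factorial : ℝ) ≤ Real.exp 1 ^ h / (h : ℝ) ^ h := by
    rw [h3] at h2
    rw [div_le_iff₀ hf] at h2
    rw [div_le_div_iff₀ hf (pow_pos h0 h)]
    linarith
  calc (n.choose h : ℝ) ≤ (n : ℝ) ^ h / (h.factorial : ℝ) := h1
    _ = (n : ℝ) ^ h * (1 / (h.factorial : ℝ)) := by ring
    _ ≤ (n : ℝ) ^ h * (Real.exp 1 ^ h / (h : ℝ) ^ h) :=
        mul_le_mul_of_nonneg_left h4 (by positivity)
    _ = (Real.exp 1 * n / h) ^ h := by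
        rw [div_pow, mul_pow]; ring

/-- the ratio of the numbers of clauses -/
theorem ratio_le (k h n : ℕ) (hk3 : 3 ≤ k) (hkh : k ≤ h) (hhn : h ≤ n) :
    (h.choose k : ℝ) * (n : ℝ) ^ 3 ≤ (n.choose k : ℝ) * (h : ℝ) ^ 3 := by
  have hh0 : 0 < h := by omega
  have hn0 : 0 < n := by omega
  have h1 : (h.choose k : ℝ) * (n : ℝ) ^ k ≤ (n.choose k : ℝ) * (h : ℝ) ^ k := by
    exact_mod_cast choose_mul_pow_le h n hhn k
  obtain ⟨j, rfl⟩ := Nat.exists_eq_add_of_le hk3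
  have hh0' : (0 : ℝ) < h := by exact_mod_cast hh0
  have hn0' : (0 : ℝ) < n := by exact_mod_cast hn0
  have h2 : (h : ℝ) ^ j ≤ (n : ℝ) ^ j :=
    pow_le_pow_left₀ hh0'.le (by exact_mod_cast hhn) j
  have h3 : (h.choose (3 + j) : ℝ) * (n : ℝ) ^ 3 * (n : ℝ) ^ j ≤
      (n.choose (3 + j) : ℝ) * (h : ℝ) ^ 3 * (n : ℝ) ^ j := by
    calc (h.choose (3 + j) : ℝ) * (n : ℝ) ^ 3 * (n : ℝ) ^ j
        = (h.choose (3 + j) : ℝ) * (n : ℝ) ^ (3 + j) := by rw [pow_add]; ring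
      _ ≤ (n.choose (3 + j) : ℝ) * (h : ℝ) ^ (3 + j) := h1
      _ = (n.choose (3 + j) : ℝ) * (h : ℝ) ^ 3 * (h : ℝ) ^ j := by rw [pow_add]; ring
      _ ≤ (n.choose (3 + j) : ℝ) * (h : ℝ) ^ 3 * (n : ℝ) ^ j :=
          mul_le_mul_of_nonneg_left h2 (by positivity)
  exact le_of_mul_le_mul_right h3 (pow_pos hn0' j)

/-- bound for one term -/
theorem term_le (k h n L : ℕ) (hk3 : 3 ≤ k) (hkh : k ≤ h) (hhn : h ≤ n) :
    (n.choose h : ℝ) * ((2 ^ k * h.choose k).choose h : ℝ) *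
      (((L * n : ℕ) : ℝ) / ((2 ^ k * n.choose k : ℕ) : ℝ)) ^ h ≤
    (Real.exp 1 ^ 2 * L * h / n) ^ h := by
  have hh0 : 0 < h := by omega
  have hn0 : 0 < n := by omega
  have hh0' : (0 : ℝ) < h := by exact_mod_cast hh0
  have hn0' : (0 : ℝ) < n := by exact_mod_cast hn0
  have hE : (0 : ℝ) < Real.exp 1 := Real.exp_pos 1
  have hC : (0 : ℝ) < (n.choose k : ℝ) := by
    exact_mod_cast Nat.choose_pos (le_trans hkh hhn)
  have h1 := choose_le_exp n h hh0
  have h2 := choose_le_exp (2 ^ k * h.choose k) h hh0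
  have h3 : (n.choose h : ℝ) * ((2 ^ k * h.choose k).choose h : ℝ) *
      (((L * n : ℕ) : ℝ) / ((2 ^ k * n.choose k : ℕ) : ℝ)) ^ h ≤
      (Real.exp 1 * n / h) ^ h * (Real.exp 1 * ((2 ^ k * h.choose k : ℕ) : ℝ) / h) ^ h *
      (((L * n : ℕ) : ℝ) / ((2 ^ k * n.choose k : ℕ) : ℝ)) ^ h := by
    apply mul_le_mul_of_nonneg_right _ (by positivity)
    exact mul_le_mul h1 h2 (by positivity) (by positivity)
  refine h3.trans ?_
  rw [← mul_pow, ← mul_pow]
  apply pow_le_pow_left₀ (by positivity)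
  have h4 := ratio_le k h n hk3 hkh hhn
  have e1 : Real.exp 1 * (n : ℝ) / h * (Real.exp 1 * ((2 ^ k * h.choose k : ℕ) : ℝ) / h) *
      (((L * n : ℕ) : ℝ) / ((2 ^ k * n.choose k : ℕ) : ℝ)) =
      (Real.exp 1 ^ 2 * L / (n * h ^ 2)) * ((h.choose k : ℝ) * (n : ℝ) ^ 3 / (n.choose k : ℝ)) := by
    push_cast
    field_simp
  have e2 : Real.exp 1 ^ 2 * L * h / n =
      (Real.exp 1 ^ 2 * L / (n * h ^ 2)) * (h : ℝ) ^ 3 := by
    field_simp
  rw [e1, e2]
  apply mul_le_mul_of_nonneg_left _ (by positivity)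
  rw [div_le_iff₀ hC]
  linarith

theorem sum_half (m : ℕ) :
    ∑ h ∈ range m, (h : ℝ) * (1 / 2) ^ h = 2 - 2 * (m + 1) * (1 / 2 : ℝ) ^ m := by
  induction m with
  | zero => simp
  | succ m ih =>
    rw [sum_range_succ, ih, pow_succ]
    push_cast
    ring

end SM2

open SM2 in
theorem SM2_thm : T_SM2 := by
  intro k hk3 L
  set B : ℝ := Real.exp 1 ^ 2 * L with hB
  have hB0 : 0 ≤ B := by positivity
  refine ⟨1 / (2 * B + 2), by positivity, ?_, ?_⟩
  · rw [div_le_one (by positivity)]; linarith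
  intro γ hγ
  obtain ⟨n0, hn0⟩ := exists_nat_gt (4 * B / γ)
  refine ⟨n0 + 1, fun n hn => ?_⟩
  have hnpos : (0 : ℝ) < n := by
    have : 0 < n := by omega
    exact_mod_cast this
  have hterm : ∀ h ∈ (range (n + 1)).filter (fun h => k ≤ h ∧ (h : ℝ) < 1 / (2 * B + 2) * n),
      (n.choose h : ℝ) * ((2 ^ k * h.choose k).choose h : ℝ) *
      (((L * n : ℕ) : ℝ) / ((2 ^ k * n.choose k : ℕ) : ℝ)) ^ h ≤
      (2 * B / n) * ((h : ℝ) * (1 / 2) ^ h) := by
    intro h hh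
    rw [mem_filter, mem_range] at hh
    obtain ⟨hh1, hh2, hh3⟩ := hh
    have hb := term_le k h n L hk3 hh2 (by omega)
    refine hb.trans ?_
    rw [← hB]
    obtain ⟨j, rfl⟩ : ∃ j, h = j + 1 := ⟨h - 1, by omega⟩
    have hx0 : 0 ≤ B * ((j + 1 : ℕ) : ℝ) / n := by positivity
    have hx1 : B * ((j + 1 : ℕ) : ℝ) / n ≤ 1 / 2 := by
      rw [div_le_iff₀ hnpos]
      have h5 : ((j + 1 : ℕ) : ℝ) * (2 * B + 2) ≤ n := by
        have h6 : ((j + 1 : ℕ) : ℝ) * (2 * B + 2) < (1 / (2 * B + 2) * n) * (2 * B + 2) :=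
          mul_lt_mul_of_pos_right hh3 (by positivity)
        have h7 : (1 / (2 * B + 2) * n) * (2 * B + 2) = (n : ℝ) := by
          field_simp
        linarith
      have h8 : (0 : ℝ) ≤ ((j + 1 : ℕ) : ℝ) := by positivity
      nlinarith
    rw [pow_succ (B * ((j + 1 : ℕ) : ℝ) / n) j]
    calc (B * ((j + 1 : ℕ) : ℝ) / n) ^ j * (B * ((j + 1 : ℕ) : ℝ) / n)
        ≤ (1 / 2) ^ j * (B * ((j + 1 : ℕ) : ℝ) / n) :=
          mul_le_mul_of_nonneg_right (pow_le_pow_left₀ hx0 hx1 j) hx0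
      _ = 2 * B / n * (((j + 1 : ℕ) : ℝ) * (1 / 2) ^ (j + 1)) := by
          rw [pow_succ]; ring
  calc ∑ h ∈ (range (n + 1)).filter (fun h => k ≤ h ∧ (h : ℝ) < 1 / (2 * B + 2) * n),
      (n.choose h : ℝ) * ((2 ^ k * h.choose k).choose h : ℝ) *
      (((L * n : ℕ) : ℝ) / ((2 ^ k * n.choose k : ℕ) : ℝ)) ^ h
      ≤ ∑ h ∈ (range (n + 1)).filter (fun h => k ≤ h ∧ (h : ℝ) < 1 / (2 * B + 2) * n),
        (2 * B / n) * ((h : ℝ) * (1 / 2) ^ h) := sum_le_sum hterm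
    _ ≤ ∑ h ∈ range (n + 1), (2 * B / n) * ((h : ℝ) * (1 / 2) ^ h) := by
        apply sum_le_sum_of_subset_of_nonneg (filter_subset _ _)
        intro i _ _
        positivity
    _ = (2 * B / n) * (2 - 2 * ((n + 1 : ℕ) + 1) * (1 / 2 : ℝ) ^ (n + 1)) := by
        rw [← mul_sum, sum_half]
    _ ≤ (2 * B / n) * 2 := by
        apply mul_le_mul_of_nonneg_left _ (by positivity)
        have : (0 : ℝ) ≤ 2 * ((n + 1 : ℕ) + 1) * (1 / 2 : ℝ) ^ (n + 1) := by positivity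
        linarith
    _ ≤ γ := by
        have hn' : (n0 : ℝ) ≤ n := by
          have : n0 ≤ n := by omega
          exact_mod_cast this
        have h9 : 4 * B / γ < n := lt_of_lt_of_le hn0 hn'
        rw [div_lt_iff₀ hγ] at h9
        have h10 : 2 * B / n * 2 = 4 * B / n := by ring
        rw [h10, div_le_iff₀ hnpos]
        linarith

end

end Pool.Agent.H921S
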