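import Pool.Agent.H921S.Stm

/-!
# SUBA: the first `m` elements are inside `A`
-/

set_option autoImplicit false

namespace Pool.Agent.H921S

open Finset
open scoped Classical

noncomputable section

namespace SUBAx

theorem ind_true {P : Prop} (h : P) : ind P = 1 := by simp [ind, h]

theorem ind_false {P : Prop} (h : ¬ P) : ind P = 0 := by simp [ind, h]

theorem ind_nonneg (P : Prop) : 0 ≤ ind P := by
  unfold ind
  split_ifs <;> norm_num

variable {Ω : Type} [Fintype Ω] [DecidableEq Ω]

theorem st_zero (σ : Ord Ω) : st σ 0 = ∅ := by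
  unfold st
  apply filter_eq_empty_iff.2
  intro x _
  omega

theorem st_mono (σ : Ord Ω) {m m' : ℕ} (h : m ≤ m') : st σ m ⊆ st σ m' := by
  intro x hx
  unfold st at hx ⊢
  rw [mem_filter] at hx ⊢
  exact ⟨hx.1, by omega⟩

theorem card_st (σ : Ord Ω) {m : ℕ} (h : m ≤ Fintype.card Ω) : (st σ m).card = m := by
  have h1 : st σ m = (univ.filter (fun i : Fin (Fintype.card Ω) => (i : ℕ) < m)).map
      σ.toEmbedding := by
    ext x
    unfold st
    simp only [mem_filter, mem_univ, true_and, mem_map, Equiv.coe_toEmbedding]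
    constructor
    · intro hx
      exact ⟨σ.symm x, hx, σ.apply_symm_apply x⟩
    · rintro ⟨i, hi, rfl⟩
      rw [σ.symm_apply_apply]
      exact hi
  rw [h1, card_map]
  have h2 : (univ.filter (fun i : Fin (Fintype.card Ω) => (i : ℕ) < m)) =
      (range m).attachFin (fun i hi => by
        have := mem_range.1 hi
        omega) := by
    ext i
    simp
  rw [h2, card_attachFin, card_range]

theorem card_ord_pos : (0 : ℝ) < (Fintype.card (Ord Ω) : ℝ) := by
  have : Nonempty (Ord Ω) := ⟨(Fintype.equivFin Ω).symm⟩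
  exact_mod_cast Fintype.card_pos

theorem avg_mono {f g : Ord Ω → ℝ} (h : ∀ σ, f σ ≤ g σ) : avg f ≤ avg g := by
  unfold avg
  exact div_le_div_of_nonneg_right (sum_le_sum fun σ _ => h σ) card_ord_pos.le

theorem avg_mul (c : ℝ) (f : Ord Ω → ℝ) : avg (fun σ => c * f σ) = c * avg f := by
  unfold avg
  rw [← mul_sum, mul_div_assoc]

theorem avg_one : avg (fun _ : Ord Ω => (1 : ℝ)) = 1 := by
  unfold avg
  rw [sum_const, card_univ, nsmul_eq_mul, mul_one, div_self card_ord_pos.ne']

theorem pp_le (A F : Finset Ω) (hF : F ⊆ A) (hc : F.card < Fintype.card Ω) :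
    PP (fun G => ind (G ⊆ A)) F ≤ (A.card : ℝ) / Fintype.card Ω := by
  unfold PP
  have h1 : ∑ x ∈ univ \ F, ind (insert x F ⊆ A) = (A.card : ℝ) - F.card := by
    have h2 : ∀ x ∈ univ \ F, ind (insert x F ⊆ A) = if x ∈ A then 1 else 0 := by
      intro x _
      by_cases hx : x ∈ A
      · rw [if_pos hx, ind_true (insert_subset hx hF)]
      · rw [if_neg hx, ind_false (fun h => hx (h (mem_insert_self x F)))]
    rw [sum_congr rfl h2, sum_boole]
    have h3 : (univ \ F).filter (fun x => x ∈ A) = A \ F := by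
      ext x
      simp [and_comm]
    rw [h3, card_sdiff_of_subset hF, Nat.cast_sub (card_le_card hF)]
  rw [h1]
  have h4 : (A.card : ℝ) ≤ Fintype.card Ω := by exact_mod_cast card_le_univ A
  have h5 : (F.card : ℝ) < Fintype.card Ω := by exact_mod_cast hc
  have h6 : (0 : ℝ) ≤ F.card := by positivity
  rw [div_le_div_iff₀ (by linarith) (by linarith)]
  nlinarith

end SUBAx

open SUBAx

theorem SUBA_thm (h0 : T_MK) : T_SUBA := by
  intro Ω _ _ A m
  induction m with
  | zero =>
    intro _
    have h1 : (fun σ : Ord Ω => ind (st σ 0 ⊆ A)) = fun _ => (1 : ℝ) := by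
      funext σ
      rw [st_zero]
      exact ind_true (empty_subset A)
    rw [h1, avg_one, pow_zero]
  | succ m ih =>
    intro hm
    have ih' := ih (by omega)
    have h1 : (fun σ : Ord Ω => ind (st σ (m + 1) ⊆ A)) =
        fun σ => ind (st σ m ⊆ A) * ind (st σ (m + 1) ⊆ A) := by
      funext σ
      by_cases h : st σ (m + 1) ⊆ A
      · rw [ind_true h, ind_true ((st_mono σ (Nat.le_succ m)).trans h), one_mul]
      · rw [ind_false h, mul_zero]
    rw [h1, h0 Ω m (fun G => ind (G ⊆ A)) (fun G => ind (G ⊆ A)) (by omega)]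
    have h2 : ∀ σ : Ord Ω, ind (st σ m ⊆ A) * PP (fun G => ind (G ⊆ A)) (st σ m) ≤
        ((A.card : ℝ) / Fintype.card Ω) * ind (st σ m ⊆ A) := by
      intro σ
      by_cases h : st σ m ⊆ A
      · rw [ind_true h, one_mul, mul_one]
        exact pp_le A _ h (by rw [card_st σ (by omega)]; omega)
      · rw [ind_false h, zero_mul, mul_zero]
    refine (avg_mono h2).trans ?_
    rw [avg_mul, pow_succ, mul_comm]
    exact mul_le_mul_of_nonneg_right ih' (by positivity)

end

end Pool.Agent.H921S
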