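import Pool.Agent.H921S.Stm

set_option autoImplicit false

namespace Pool.Agent.H921S

open Finset
open scoped Classical

noncomputable section

namespace SUMaux

theorem ind_nonneg (P : Prop) : 0 ≤ ind P := by
  unfold ind; split_ifs <;> norm_num

theorem ind_le_one (P : Prop) : ind P ≤ 1 := by
  unfold ind; split_ifs <;> norm_num

theorem ind_true {P : Prop} (h : P) : ind P = 1 := by
  unfold ind; rw [if_pos h]

theorem ind_false {P : Prop} (h : ¬ P) : ind P = 0 := by
  unfold ind; rw [if_neg h]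

variable {Ω : Type} [Fintype Ω] [DecidableEq Ω]

theorem avg_mono {f g : Ord Ω → ℝ} (h : ∀ σ, f σ ≤ g σ) : avg f ≤ avg g := by
  unfold avg
  exact div_le_div_of_nonneg_right (Finset.sum_le_sum fun σ _ => h σ) (Nat.cast_nonneg _)

theorem avg_sum {ι : Type} (s : Finset ι) (f : ι → Ord Ω → ℝ) :
    avg (fun σ => ∑ i ∈ s, f i σ) = ∑ i ∈ s, avg (f i) := by
  unfold avg
  rw [Finset.sum_comm, Finset.sum_div]

theorem avg_mul_left (c : ℝ) (f : Ord Ω → ℝ) : avg (fun σ => c * f σ) = c * avg f := by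
  unfold avg
  rw [← Finset.mul_sum, mul_div_assoc]

theorem avg_add (f g : Ord Ω → ℝ) : avg (fun σ => f σ + g σ) = avg f + avg g := by
  unfold avg
  rw [Finset.sum_add_distrib, add_div]

theorem st_zero (σ : Ord Ω) : st σ 0 = ∅ := by
  unfold st
  simp

theorem st_mono (σ : Ord Ω) {m m' : ℕ} (h : m ≤ m') : st σ m ⊆ st σ m' := by
  intro x hx
  unfold st at hx ⊢
  rw [mem_filter] at hx ⊢
  exact ⟨hx.1, hx.2.trans_le h⟩

theorem st_card (σ : Ord Ω) (m : ℕ) : (st σ m).card ≤ m := by
  have h : (st σ m).card ≤ (range m).card := by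
    refine Finset.card_le_card_of_injOn (fun x => (σ.symm x : ℕ)) ?_ ?_
    · intro x hx
      have hx' : x ∈ st σ m := hx
      unfold st at hx'
      rw [mem_filter] at hx'
      simpa using hx'.2
    · intro x _ y _ hxy
      exact σ.symm.injective (Fin.ext hxy)
  rwa [card_range] at h

theorem PP_nonneg {g : Finset Ω → ℝ} (hg : ∀ F, 0 ≤ g F) (F : Finset Ω) : 0 ≤ PP g F := by
  unfold PP
  refine div_nonneg (Finset.sum_nonneg fun x _ => hg _) ?_
  have : (F.card : ℝ) ≤ Fintype.card Ω := by exact_mod_cast Finset.card_le_univ F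
  linarith

theorem PP_add (g h : Finset Ω → ℝ) (F : Finset Ω) :
    PP (fun G => g G + h G) F = PP g F + PP h F := by
  unfold PP
  rw [Finset.sum_add_distrib, add_div]

theorem q0_nonneg (A K : Finset Ω → Prop) (F : Finset Ω) : 0 ≤ q0 A K F :=
  mul_nonneg (ind_nonneg _) (PP_nonneg (fun _ => ind_nonneg _) F)

theorem q1_nonneg (A K : Finset Ω → Prop) (F : Finset Ω) : 0 ≤ q1 A K F :=
  mul_nonneg (ind_nonneg _) (PP_nonneg (fun _ => q0_nonneg A K _) F)

theorem q2_nonneg (A K : Finset Ω → Prop) (F : Finset Ω) : 0 ≤ q2 A K F :=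
  mul_nonneg (ind_nonneg _) (PP_nonneg (fun _ => q1_nonneg A K _) F)

end SUMaux

open SUMaux in
theorem SUM_thm (hMK : T_MK) : T_SUM := by
  intro Ω _ _ A K R M c hM hc hA hK hA0 hR0 hyp
  set N := Fintype.card Ω with hN
  -- (1)
  have h1 : ∑ m ∈ range N, avg (fun σ : Ord Ω => ind (A (st σ m)) * ind (K (st σ (m + 1)))) ≤
      pj A K := by
    rw [← avg_sum]
    refine avg_mono fun σ => ?_
    by_cases hex : ∃ m, m < Fintype.card Ω ∧ A (st σ m) ∧ K (st σ (m + 1))
    · obtain ⟨m, hm, hAm, hKm⟩ := hex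
      rw [ind_true ⟨m, hm, hAm, hKm⟩]
      have hz : ∀ m' ∈ range N, m' ≠ m →
          ind (A (st σ m')) * ind (K (st σ (m' + 1))) = 0 := by
        intro m' _ hne
        by_contra hcon
        have hA' : A (st σ m') := by
          by_contra h
          exact hcon (by rw [ind_false h, zero_mul])
        have hK' : K (st σ (m' + 1)) := by
          by_contra h
          exact hcon (by rw [ind_false h, mul_zero])
        rcases lt_or_gt_of_ne hne with hlt | hlt
        · exact hK _ hK' (hA _ _ (st_mono σ hlt) hAm)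
        · exact hK _ hKm (hA _ _ (st_mono σ hlt) hA')
      rw [Finset.sum_eq_single_of_mem m (mem_range.2 hm) hz]
      rw [ind_true hAm, ind_true hKm, one_mul]
    · rw [ind_false hex]
      refine le_of_eq (Finset.sum_eq_zero fun m hm => ?_)
      by_cases hAm : A (st σ m)
      · by_cases hKm : K (st σ (m + 1))
        · exact absurd ⟨m, mem_range.1 hm, hAm, hKm⟩ hex
        · rw [ind_false hKm, mul_zero]
      · rw [ind_false hAm, zero_mul]
  -- (2)
  have h2 : ∀ m, m < N → avg (fun σ : Ord Ω => q0 A K (st σ m)) =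
      avg (fun σ : Ord Ω => ind (A (st σ m)) * ind (K (st σ (m + 1)))) := by
    intro m hm
    exact (hMK Ω m (fun F => ind (A F)) (fun F => ind (K F)) hm).symm
  have h2' : ∑ m ∈ range N, avg (fun σ : Ord Ω => q0 A K (st σ m)) ≤ pj A K := by
    rw [Finset.sum_congr rfl fun m hm => h2 m (mem_range.1 hm)]
    exact h1
  -- (3)
  have h3 : ∀ m, m < N → avg (fun σ : Ord Ω => q1 A K (st σ m)) ≤
      avg (fun σ : Ord Ω => q0 A K (st σ (m + 1))) := by
    intro m hm
    have := hMK Ω m (fun F => ind (A F)) (q0 A K) hm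
    have e : avg (fun σ : Ord Ω => q1 A K (st σ m)) =
        avg (fun σ : Ord Ω => ind (A (st σ m)) * q0 A K (st σ (m + 1))) := this.symm
    rw [e]
    refine avg_mono fun σ => ?_
    exact mul_le_of_le_one_left (q0_nonneg A K _) (ind_le_one _)
  have h4 : ∀ m, m < N → avg (fun σ : Ord Ω => q2 A K (st σ m)) ≤
      avg (fun σ : Ord Ω => q1 A K (st σ (m + 1))) := by
    intro m hm
    have := hMK Ω m (fun F => ind (A F)) (q1 A K) hm
    have e : avg (fun σ : Ord Ω => q2 A K (st σ m)) =
        avg (fun σ : Ord Ω => ind (A (st σ m)) * q1 A K (st σ (m + 1))) := this.symm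
    rw [e]
    refine avg_mono fun σ => ?_
    exact mul_le_of_le_one_left (q1_nonneg A K _) (ind_le_one _)
  have q0n : ∀ m, 0 ≤ avg (fun σ : Ord Ω => q0 A K (st σ m)) := by
    intro m
    unfold avg
    exact div_nonneg (Finset.sum_nonneg fun σ _ => q0_nonneg A K _) (Nat.cast_nonneg _)
  set a : ℕ → ℝ := fun m => avg (fun σ : Ord Ω => q0 A K (st σ m)) with ha
  have h5 : ∑ m ∈ range M, avg (fun σ : Ord Ω => q0 A K (st σ m) + q1 A K (st σ m) +
      q2 A K (st σ m)) ≤ 3 * pj A K := by
    have hb : ∀ m ∈ range M, avg (fun σ : Ord Ω => q0 A K (st σ m) + q1 A K (st σ m) +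
        q2 A K (st σ m)) ≤ a m + a (m + 1) + a (m + 2) := by
      intro m hm
      have hm' := mem_range.1 hm
      rw [avg_add, avg_add]
      have g1 := h3 m (by omega)
      have g2 := (h4 m (by omega)).trans (h3 (m + 1) (by omega))
      simp only [ha]
      linarith
    refine (Finset.sum_le_sum hb).trans ?_
    rw [Finset.sum_add_distrib, Finset.sum_add_distrib]
    have s0 : ∑ m ∈ range M, a m ≤ ∑ m ∈ range N, a m :=
      Finset.sum_le_sum_of_subset_of_nonneg (range_mono (by omega)) fun m _ _ => q0n m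
    have s1 : ∑ m ∈ range M, a (m + 1) ≤ ∑ m ∈ range N, a m := by
      have : ∑ m ∈ range M, a (m + 1) ≤ ∑ m ∈ range (M + 1), a m := by
        rw [Finset.sum_range_succ']
        linarith [q0n 0]
      exact this.trans
        (Finset.sum_le_sum_of_subset_of_nonneg (range_mono (by omega)) fun m _ _ => q0n m)
    have s2 : ∑ m ∈ range M, a (m + 2) ≤ ∑ m ∈ range N, a m := by
      have : ∑ m ∈ range M, a (m + 2) ≤ ∑ m ∈ range (M + 2), a m := by
        rw [Finset.sum_range_succ', Finset.sum_range_succ']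
        linarith [q0n 0, q0n (0 + 1)]
      exact this.trans
        (Finset.sum_le_sum_of_subset_of_nonneg (range_mono (by omega)) fun m _ _ => q0n m)
    linarith
  -- (4)
  have h6 : ∀ σ : Ord Ω, ind (¬ A (st σ M)) ≤ ∑ m ∈ range M,
      ind (A (st σ m) ∧ ¬ R (st σ m)) *
        (ind (¬ A (st σ (m + 1))) + ind (R (st σ (m + 1)))) := by
    intro σ
    have hnn : ∀ m ∈ range M, 0 ≤ ind (A (st σ m) ∧ ¬ R (st σ m)) *
        (ind (¬ A (st σ (m + 1))) + ind (R (st σ (m + 1)))) := fun m _ =>
      mul_nonneg (ind_nonneg _) (add_nonneg (ind_nonneg _) (ind_nonneg _))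
    by_cases hAM : A (st σ M)
    · rw [ind_false (not_not.2 hAM)]
      exact Finset.sum_nonneg hnn
    · rw [ind_true hAM]
      have hex : ∃ m, ¬ A (st σ m) ∨ R (st σ m) := ⟨M, Or.inl hAM⟩
      have hT := Nat.find_spec hex
      have hTM : Nat.find hex ≤ M := Nat.find_min' hex (Or.inl hAM)
      have hT0 : Nat.find hex ≠ 0 := by
        intro h0
        rw [h0, st_zero] at hT
        rcases hT with h | h
        · exact h hA0
        · exact hR0 h
      obtain ⟨t, ht⟩ := Nat.exists_eq_succ_of_ne_zero hT0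
      have hmin := Nat.find_min hex (m := t) (by omega)
      rw [ht] at hT
      push Not at hmin
      have hterm : 1 ≤ ind (A (st σ t) ∧ ¬ R (st σ t)) *
          (ind (¬ A (st σ (t + 1))) + ind (R (st σ (t + 1)))) := by
        rw [ind_true hmin, one_mul]
        rcases hT with h | h
        · rw [ind_true h]
          linarith [ind_nonneg (R (st σ (t + 1)))]
        · have h' : R (st σ (t + 1)) := h
          rw [ind_true h']
          linarith [ind_nonneg (¬ A (st σ (t + 1)))]
      exact hterm.trans (Finset.single_le_sum hnn (mem_range.2 (by omega)))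
  -- (5)
  have h7 : ∀ m ∈ range M, avg (fun σ : Ord Ω => ind (A (st σ m) ∧ ¬ R (st σ m)) *
        (ind (¬ A (st σ (m + 1))) + ind (R (st σ (m + 1))))) ≤
      2 / c * avg (fun σ : Ord Ω => q0 A K (st σ m) + q1 A K (st σ m) + q2 A K (st σ m)) := by
    intro m hm
    have hm' := mem_range.1 hm
    have e := hMK Ω m (fun F => ind (A F ∧ ¬ R F)) (fun F => ind (¬ A F) + ind (R F))
      (by omega)
    have e' : avg (fun σ : Ord Ω => ind (A (st σ m) ∧ ¬ R (st σ m)) *
        (ind (¬ A (st σ (m + 1))) + ind (R (st σ (m + 1))))) =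
        avg (fun σ : Ord Ω => ind (A (st σ m) ∧ ¬ R (st σ m)) *
          PP (fun F => ind (¬ A F) + ind (R F)) (st σ m)) := e
    rw [e', ← avg_mul_left]
    refine avg_mono fun σ => ?_
    have hq : 0 ≤ q0 A K (st σ m) + q1 A K (st σ m) + q2 A K (st σ m) :=
      add_nonneg (add_nonneg (q0_nonneg A K _) (q1_nonneg A K _)) (q2_nonneg A K _)
    by_cases hh : A (st σ m) ∧ ¬ R (st σ m)
    · rw [ind_true hh, one_mul, PP_add]
      obtain ⟨y1, y2⟩ := hyp (st σ m) ((st_card σ m).trans hm'.le) hh.1 hh.2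
      have y3 : c * (PP (fun G => ind (¬ A G)) (st σ m) + PP (fun G => ind (R G)) (st σ m)) ≤
          2 * (q0 A K (st σ m) + q1 A K (st σ m) + q2 A K (st σ m)) := by linarith
      rw [div_mul_eq_mul_div, le_div_iff₀ hc]
      linarith
    · rw [ind_false hh, zero_mul]
      exact mul_nonneg (by positivity) hq
  calc avg (fun σ : Ord Ω => ind (¬ A (st σ M)))
      ≤ avg (fun σ : Ord Ω => ∑ m ∈ range M, ind (A (st σ m) ∧ ¬ R (st σ m)) *
        (ind (¬ A (st σ (m + 1))) + ind (R (st σ (m + 1))))) := avg_mono h6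
    _ = ∑ m ∈ range M, avg (fun σ : Ord Ω => ind (A (st σ m) ∧ ¬ R (st σ m)) *
        (ind (¬ A (st σ (m + 1))) + ind (R (st σ (m + 1))))) := avg_sum _ _
    _ ≤ ∑ m ∈ range M, 2 / c *
        avg (fun σ : Ord Ω => q0 A K (st σ m) + q1 A K (st σ m) + q2 A K (st σ m)) :=
        Finset.sum_le_sum h7
    _ = 2 / c * ∑ m ∈ range M,
        avg (fun σ : Ord Ω => q0 A K (st σ m) + q1 A K (st σ m) + q2 A K (st σ m)) := by
        rw [Finset.mul_sum]
    _ ≤ 2 / c * (3 * pj A K) := mul_le_mul_of_nonneg_left h5 (by positivity)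
    _ = 6 / c * pj A K := by ring

end

end Pool.Agent.H921S
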