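import Pool.Agent.H921S.Stm

set_option autoImplicit false

namespace Pool.Agent.H921S

open Finset
open scoped Classical

noncomputable section

theorem VDC_one (h : T_CNT1) {k n : ℕ} (hn : 1 ≤ n) (C : Clause k n) :
    ((univ.filter (fun E : Clause k n => ¬ VD C E)).card : ℝ) ≤ (k : ℝ) ^ 2 / n * NN k n := by
  have hn' : (0 : ℝ) < n := by exact_mod_cast hn
  have hx : ∀ l : Lit n, ((univ.filter (fun C : Clause k n => l ∈ C.lits)).card : ℝ) =
      k * NN k n / (2 * n) := by
    intro l
    have h1 := h k n l
    field_simp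
    linarith
  have hsub : univ.filter (fun E : Clause k n => ¬ VD C E) ⊆
      C.lits.biUnion (fun c => (univ : Finset Bool).biUnion
        (fun b => univ.filter (fun E : Clause k n => (c.1, b) ∈ E.lits))) := by
    intro E hE
    have hE' : ¬ VD C E := (mem_filter.mp hE).2
    unfold VD at hE'
    push Not at hE'
    obtain ⟨c, hc, e, he, hce⟩ := hE'
    refine mem_biUnion.mpr ⟨c, hc, mem_biUnion.mpr ⟨e.2, mem_univ _, mem_filter.mpr
      ⟨mem_univ _, ?_⟩⟩⟩
    rw [hce]
    exact he
  have h1 : ((univ.filter (fun E : Clause k n => ¬ VD C E)).card : ℝ) ≤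
      ∑ c ∈ C.lits, ∑ b : Bool,
        ((univ.filter (fun E : Clause k n => (c.1, b) ∈ E.lits)).card : ℝ) := by
    have h2 : (univ.filter (fun E : Clause k n => ¬ VD C E)).card ≤
        ∑ c ∈ C.lits, ∑ b : Bool,
          (univ.filter (fun E : Clause k n => (c.1, b) ∈ E.lits)).card :=
      ((card_le_card hsub).trans card_biUnion_le).trans
        (sum_le_sum (fun c _ => card_biUnion_le))
    exact_mod_cast h2
  refine h1.trans (le_of_eq ?_)
  simp only [hx, sum_const, card_univ, Fintype.card_bool, C.card_lits, nsmul_eq_mul]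
  field_simp
  push_cast
  ring

/-- VDC: pairs of clauses with a common variable -/
theorem VDC_thm (h : T_CNT1) : T_VDC := by
  intro k n hn
  have h1 : ((univ.filter (fun q : Clause k n × Clause k n => ¬ VD q.1 q.2)).card : ℝ) =
      ∑ C : Clause k n, ((univ.filter (fun E : Clause k n => ¬ VD C E)).card : ℝ) := by
    have h2 : (univ.filter (fun q : Clause k n × Clause k n => ¬ VD q.1 q.2)).card =
        ∑ C : Clause k n, (univ.filter (fun E : Clause k n => ¬ VD C E)).card := by
      simp only [card_filter]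
      exact Fintype.sum_prod_type _
    exact_mod_cast h2
  rw [h1]
  calc ∑ C : Clause k n, ((univ.filter (fun E : Clause k n => ¬ VD C E)).card : ℝ)
      ≤ ∑ _C : Clause k n, (k : ℝ) ^ 2 / n * NN k n := sum_le_sum (fun C _ => VDC_one h hn C)
    _ = (k : ℝ) ^ 2 / n * NN k n ^ 2 := by
      rw [sum_const, card_univ, nsmul_eq_mul]
      ring

end

end Pool.Agent.H921S
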