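import Pool.Agent.H921S.Stm

/-! Task WB of h921s_tasks (helper48): a large uniquely satisfiable subformula gives many clauses
that kill. -/

set_option autoImplicit false

namespace Pool.Agent.H921S

open Finset
open scoped Classical

theorem WB_thm (h0 : T_CNT0) : T_WB := by
  intro k ε hk hε
  obtain ⟨n0, hn0⟩ := h0 k ε (by omega) hε
  refine ⟨n0, fun n hn G hG hL => ?_⟩
  obtain ⟨a, ha⟩ := hG
  obtain ⟨H, hHG, hUSS, hcard⟩ := hL
  have hinj : Function.Injective (fun v : Fin n => ((v, !a v) : Lit n)) := by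
    intro v w h
    exact congrArg Prod.fst h
  set B : Finset (Lit n) := (vars H).image (fun v => ((v, !a v) : Lit n)) with hB
  have hBc : B.card = (vars H).card := card_image_of_injective _ hinj
  have hcons : ∀ l ∈ B, ((l.1, !l.2) : Lit n) ∉ B := by
    intro l hl hl'
    rw [hB, mem_image] at hl hl'
    obtain ⟨v, _, rfl⟩ := hl
    obtain ⟨w, _, hw⟩ := hl'
    have h1 : w = v := congrArg Prod.fst hw
    have h2 : (!a w) = !(!a v) := congrArg Prod.snd hw
    rw [h1] at h2
    cases h3 : a v <;> rw [h3] at h2 <;> simp at h2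
  have h1 := hn0 n hn B hcons (by rw [hBc]; exact hcard)
  refine h1.trans ?_
  have hsub : univ.filter (fun C : Clause k n => C.lits ⊆ B) ⊆
      univ.filter (fun E : Clause k n => ∀ a, Sol a G → ∀ e ∈ E.lits, ¬ Tru a e) := by
    intro C hC
    rw [mem_filter] at hC ⊢
    refine ⟨mem_univ _, fun b hb e he ht => ?_⟩
    have h2 := hC.2 he
    rw [hB, mem_image] at h2
    obtain ⟨v, hv, rfl⟩ := h2
    have h3 : b v = a v := hUSS.2.2 b a (fun C' hC' => hb C' (hHG hC'))
      (fun C' hC' => ha C' (hHG hC')) v hv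
    unfold Tru at ht
    simp only at ht
    rw [h3] at ht
    cases h4 : a v <;> rw [h4] at ht <;> simp at ht
  exact_mod_cast card_le_card hsub

end Pool.Agent.H921S
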