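import Pool.Agent.H921S.MK
import Pool.Agent.H921S.SUBA
import Pool.Agent.H921S.SUBS
import Pool.Agent.H921S.SUM
import Pool.Agent.H921S.CARD
import Pool.Agent.H921S.CNT0
import Pool.Agent.H921S.CNT1
import Pool.Agent.H921S.CNT3
import Pool.Agent.H921S.CNT4
import Pool.Agent.H921S.VDC
import Pool.Agent.H921S.CRIT
import Pool.Agent.H921S.WB
import Pool.Agent.H921S.LATE
import Pool.Agent.H921S.SM1
import Pool.Agent.H921S.SM2
import Pool.Agent.H921S.D1
import Pool.Agent.H921S.D2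
import Pool.Agent.H921S.D3a
import Pool.Agent.H921S.D3b
import Pool.Agent.H921S.D3c
import Pool.Agent.H921S.D3d
import Pool.Agent.H921S.D3e
import Pool.Agent.H921S.D3
import Pool.Agent.H921S.QQ
import Pool.Agent.H921S.DET
import Pool.Agent.H921S.FIN

/-!
# Assembly
-/

set_option autoImplicit false

namespace Pool.Agent.H921S

theorem cnt4 : T_CNT4 := CNT4_thm CARD_thm

theorem cnt0 : T_CNT0 := CNT0_thm CARD_thm

theorem wb : T_WB := WB_thm cnt0

theorem d3 : T_D3 :=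
  D3_thm wb D3a_thm (D3b_thm cnt0 CNT1_thm) (D3d_thm D3c_thm CNT1_thm CNT3_thm)
    (D3e_thm cnt0 cnt4) (VDC_thm CNT1_thm) cnt4

theorem det : T_DET := DET_thm wb D1_thm D2_thm d3 QQ_thm cnt4

theorem fin_thm : T_FIN :=
  FIN_thm (SUM_thm MK_thm) det (LATE_thm (SUBA_thm MK_thm) CARD_thm cnt4)
    (SM1_thm SUBS_thm CRIT_thm CARD_thm) SM2_thm CARD_thm cnt4

end Pool.Agent.H921S
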