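import Pool.Agent.H921S.Stm

/-! Task D2: second swap -/

set_option autoImplicit false

namespace Pool.Agent.H921S

open Finset
open scoped Classical

namespace D2aux

variable {k n : ℕ}

theorem card_real {α : Type} [Fintype α] (p : α → Prop) [DecidablePred p] :
    ((univ.filter p).card : ℝ) = ∑ x, if p x then (1 : ℝ) else 0 := by
  rw [Finset.card_filter]
  push_cast
  rfl

theorem P1_eq (ε : ℝ) (F : Form k n) : P1 ε F = ∑ C : Clause k n, ∑ x : Clause k n,
    if (NS ε (insert C F) ∧ ¬ Sat (insert x (insert C F))) then (1 : ℝ) else 0 := by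
  unfold P1
  rw [card_real, Fintype.sum_prod_type]

theorem P2_eq (ε : ℝ) (F : Form k n) : P2 ε F = ∑ C : Clause k n, ∑ x : Clause k n,
    ∑ y : Clause k n, if (NS ε (insert x (insert C F)) ∧
      ¬ Sat (insert y (insert x (insert C F)))) then (1 : ℝ) else 0 := by
  unfold P2
  rw [card_real, Fintype.sum_prod_type]
  apply Finset.sum_congr rfl
  intro C _
  rw [Fintype.sum_prod_type]

theorem P0_eq (F : Form k n) : P0 F = ∑ x : Clause k n,
    if ¬ Sat (insert x F) then (1 : ℝ) else 0 := by
  unfold P0
  rw [card_real]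

theorem U_eq (ε : ℝ) (F : Form k n) : U ε F = ∑ x : Clause k n,
    if ¬ NS ε (insert x F) then (1 : ℝ) else 0 := by
  unfold U
  rw [card_real]

theorem ite_nn (p : Prop) [Decidable p] : (0 : ℝ) ≤ if p then (1 : ℝ) else 0 := by
  split_ifs <;> norm_num

theorem ite_mono {p q : Prop} [Decidable p] [Decidable q] (h : p → q) :
    (if p then (1 : ℝ) else 0) ≤ if q then (1 : ℝ) else 0 := by
  by_cases hp : p
  · rw [if_pos hp, if_pos (h hp)]
  · rw [if_neg hp]
    exact ite_nn q

end D2aux

open D2aux in
theorem D2_thm : T_D2 := by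
  intro k n ε κ hκ0 hκ1 hG F hF hU hJ
  set N : ℝ := NN k n with hN
  have hN0 : 0 ≤ N := by rw [hN]; positivity
  set G : Finset (Clause k n) :=
    univ.filter (fun C => NS ε (insert C F) ∧ U ε (insert C F) ≤ κ * N) with hGd
  have hGmem : ∀ C ∈ G, NS ε (insert C F) ∧ U ε (insert C F) ≤ κ * N := by
    intro C hC
    rw [hGd, Finset.mem_filter] at hC
    exact hC.2
  -- upper bound
  have hup : κ * ∑ C ∈ G, U ε (insert C F) ≤ P1 ε F + P2 ε F / N := by
    have h1 : ∑ C ∈ G, P0 (insert C F) ≤ P1 ε F := by
      rw [P1_eq]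
      calc ∑ C ∈ G, P0 (insert C F) ≤ ∑ C ∈ G, ∑ x : Clause k n,
            (if (NS ε (insert C F) ∧ ¬ Sat (insert x (insert C F))) then (1 : ℝ) else 0) := by
            apply Finset.sum_le_sum
            intro C hC
            rw [P0_eq]
            apply Finset.sum_le_sum
            intro x _
            exact ite_mono fun h => ⟨(hGmem C hC).1, h⟩
        _ ≤ _ := by
            apply Finset.sum_le_sum_of_subset_of_nonneg (Finset.subset_univ _)
            intro C _ _
            exact Finset.sum_nonneg fun x _ => ite_nn _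
    have h2 : ∑ C ∈ G, P1 ε (insert C F) ≤ P2 ε F := by
      rw [P2_eq]
      calc ∑ C ∈ G, P1 ε (insert C F) ≤ ∑ C ∈ G, ∑ x : Clause k n, ∑ y : Clause k n,
            (if (NS ε (insert x (insert C F)) ∧
              ¬ Sat (insert y (insert x (insert C F)))) then (1 : ℝ) else 0) := by
            apply Finset.sum_le_sum
            intro C hC
            rw [P1_eq]
        _ ≤ _ := by
            apply Finset.sum_le_sum_of_subset_of_nonneg (Finset.subset_univ _)
            intro C _ _
            exact Finset.sum_nonneg fun x _ => Finset.sum_nonneg fun y _ => ite_nn _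
    calc κ * ∑ C ∈ G, U ε (insert C F) = ∑ C ∈ G, κ * U ε (insert C F) := Finset.mul_sum _ _ _
      _ ≤ ∑ C ∈ G, (P0 (insert C F) + P1 ε (insert C F) / N) :=
          Finset.sum_le_sum fun C hC => hG _ (hGmem C hC).1 (hGmem C hC).2
      _ = ∑ C ∈ G, P0 (insert C F) + (∑ C ∈ G, P1 ε (insert C F)) / N := by
          rw [Finset.sum_add_distrib, Finset.sum_div]
      _ ≤ _ := add_le_add h1 (div_le_div_of_nonneg_right h2 hN0)
  -- lower bound
  set J : Finset (Clause k n) :=
    univ.filter (fun D => NS ε (insert D F) ∧ κ * N < U ε (insert D F)) with hJd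
  have hJJ : JJ ε κ F = (J.card : ℝ) := rfl
  have hlow : JJ ε κ F * (κ / 2 * N) ≤ ∑ C ∈ G, U ε (insert C F) := by
    have e1 : ∑ C ∈ G, U ε (insert C F) = ∑ D : Clause k n, ∑ C ∈ G,
        (if ¬ NS ε (insert D (insert C F)) then (1 : ℝ) else 0) := by
      rw [Finset.sum_comm]
      apply Finset.sum_congr rfl
      intro C _
      rw [U_eq]
    rw [e1]
    have h1 : ∑ D ∈ J, (κ / 2 * N) ≤ ∑ D ∈ J, ∑ C ∈ G,
        (if ¬ NS ε (insert D (insert C F)) then (1 : ℝ) else 0) := by
      apply Finset.sum_le_sum
      intro D hD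
      rw [hJd, Finset.mem_filter] at hD
      obtain ⟨-, hD1, hD2⟩ := hD
      have h2 : U ε (insert D F) ≤ ∑ C ∈ G,
          (if ¬ NS ε (insert D (insert C F)) then (1 : ℝ) else 0) + U ε F + JJ ε κ F := by
        have e2 : ∑ C ∈ G, (if ¬ NS ε (insert D (insert C F)) then (1 : ℝ) else 0) =
            ∑ C : Clause k n, if (C ∈ G ∧ ¬ NS ε (insert D (insert C F))) then (1 : ℝ) else 0 := by
          rw [← Finset.sum_filter_add_sum_filter_not univ (fun C => C ∈ G)]
          have e3 : ∑ x with x ∉ G, (if (x ∈ G ∧ ¬ NS ε (insert D (insert x F))) then (1 : ℝ) else 0) = 0 := by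
            apply Finset.sum_eq_zero
            intro x hx
            rw [Finset.mem_filter] at hx
            rw [if_neg (fun h => hx.2 h.1)]
          rw [e3, add_zero]
          have e4 : (univ.filter fun C => C ∈ G) = G := by
            ext C; simp
          rw [e4]
          apply Finset.sum_congr rfl
          intro C hC
          by_cases h : NS ε (insert D (insert C F))
          · rw [if_neg (by simpa using h), if_neg (fun h' => h'.2 h)]
          · rw [if_pos h, if_pos ⟨hC, h⟩]
        have e5 : JJ ε κ F = ∑ C : Clause k n,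
            if (NS ε (insert C F) ∧ κ * NN k n < U ε (insert C F)) then (1 : ℝ) else 0 := by
          unfold JJ
          rw [card_real]
        rw [e2, e5, U_eq ε (insert D F), U_eq ε F, ← Finset.sum_add_distrib, ← Finset.sum_add_distrib]
        apply Finset.sum_le_sum
        intro C _
        by_cases c0 : NS ε (insert C (insert D F))
        · rw [if_neg (by simpa using c0)]
          exact add_nonneg (add_nonneg (ite_nn _) (ite_nn _)) (ite_nn _)
        · rw [if_pos c0]
          by_cases c1 : NS ε (insert C F)
          · by_cases c2 : U ε (insert C F) ≤ κ * N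
            · have c3 : C ∈ G := by
                rw [hGd, Finset.mem_filter]
                exact ⟨Finset.mem_univ _, c1, c2⟩
              have c4 : ¬ NS ε (insert D (insert C F)) := by
                rw [Finset.insert_comm]; exact c0
              rw [if_pos ⟨c3, c4⟩]
              have := add_nonneg (ite_nn (¬ NS ε (insert C F)))
                (ite_nn (NS ε (insert C F) ∧ κ * NN k n < U ε (insert C F)))
              linarith
            · rw [if_pos (c := (NS ε (insert C F) ∧ κ * NN k n < U ε (insert C F)))
                ⟨c1, not_le.1 c2⟩]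
              have := add_nonneg (ite_nn (C ∈ G ∧ ¬ NS ε (insert D (insert C F))))
                (ite_nn (¬ NS ε (insert C F)))
              linarith
          · rw [if_pos (c := ¬ NS ε (insert C F)) c1]
            have := add_nonneg (ite_nn (C ∈ G ∧ ¬ NS ε (insert D (insert C F))))
              (ite_nn (NS ε (insert C F) ∧ κ * NN k n < U ε (insert C F)))
            linarith
      linarith
    rw [Finset.sum_const, nsmul_eq_mul, ← hJJ] at h1
    refine h1.trans ?_
    apply Finset.sum_le_sum_of_subset_of_nonneg (Finset.subset_univ _)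
    intro D _ _
    exact Finset.sum_nonneg fun C _ => ite_nn _
  calc κ ^ 2 / 2 * JJ ε κ F * N = κ * (JJ ε κ F * (κ / 2 * N)) := by ring
    _ ≤ κ * ∑ C ∈ G, U ε (insert C F) := mul_le_mul_of_nonneg_left hlow hκ0
    _ ≤ _ := hup

end Pool.Agent.H921S
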