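import Mathlib

/-!
# No uniquely satisfiable subformula before the random k-SAT process becomes unsatisfiable

Definitions for the strict version of MP_284d10.
-/

set_option autoImplicit false

namespace Pool.Agent.H921S

open Finset
open scoped Classical

noncomputable section

/-! ### formulas -/

/-- literals: `(v, true)` is the variable `v`, `(v, false)` its negation -/
abbrev Lit (n : ℕ) := Fin n × Bool

/-- `k`-clauses: sets of `k` literals on `k` distinct variables -/
@[ext] structure Clause (k n : ℕ) : Type where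
  lits : Finset (Lit n)
  card_lits : lits.card = k
  distinct : ∀ l ∈ lits, ∀ l' ∈ lits, l.1 = l'.1 → l = l'

instance instDecidableEqClause (k n : ℕ) : DecidableEq (Clause k n) := Classical.decEq _

instance instFiniteClause (k n : ℕ) : Finite (Clause k n) :=
  Finite.of_injective Clause.lits (fun _ _ h => Clause.ext h)

instance instFintypeClause (k n : ℕ) : Fintype (Clause k n) := Fintype.ofFinite _

/-- formulas: sets of clauses -/
abbrev Form (k n : ℕ) := Finset (Clause k n)

/-- truth assignments -/
abbrev Asg (n : ℕ) := Fin n → Bool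

variable {k n : ℕ}

/-- the literal `l` is true under `a` -/
def Tru (a : Asg n) (l : Lit n) : Prop := a l.1 = l.2

/-- `a` satisfies every clause of `F` -/
def Sol (a : Asg n) (F : Form k n) : Prop := ∀ C ∈ F, ∃ l ∈ C.lits, Tru a l

/-- `F` is satisfiable -/
def Sat (F : Form k n) : Prop := ∃ a, Sol a F

/-- the variables occurring in `F` -/
def vars (F : Form k n) : Finset (Fin n) := F.biUnion (fun C => C.lits.image Prod.fst)

/-- `H` is a (nonempty) uniquely satisfiable formula: exactly one assignment of the variables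
occurring in `H` satisfies every clause of `H` -/
def USS (H : Form k n) : Prop :=
  H.Nonempty ∧ Sat H ∧ ∀ a b : Asg n, Sol a H → Sol b H → ∀ v ∈ vars H, a v = b v

/-- `F` contains a uniquely satisfiable subformula -/
def HasUSS (F : Form k n) : Prop := ∃ H ⊆ F, USS H

/-- `F` contains a uniquely satisfiable subformula with at least `ε n` variables -/
def HasL (ε : ℝ) (F : Form k n) : Prop := ∃ H ⊆ F, USS H ∧ ε * n ≤ (vars H).card

/-- satisfiable, without large uniquely satisfiable subformula -/
def NS (ε : ℝ) (F : Form k n) : Prop := Sat F ∧ ¬ HasL ε F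

/-- the number of `k`-clauses, as a real number -/
abbrev NN (k n : ℕ) : ℝ := (Fintype.card (Clause k n) : ℝ)

/-- number of clauses whose addition leads out of `NS` -/
def U (ε : ℝ) (F : Form k n) : ℝ :=
  ((univ.filter (fun x : Clause k n => ¬ NS ε (insert x F))).card : ℝ)

/-- number of clauses `x` with `F + x` unsatisfiable -/
def P0 (F : Form k n) : ℝ :=
  ((univ.filter (fun x : Clause k n => ¬ Sat (insert x F))).card : ℝ)

/-- number of pairs `(x, y)` with `F + x` in `NS` and `F + x + y` unsatisfiable -/
def P1 (ε : ℝ) (F : Form k n) : ℝ :=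
  ((univ.filter (fun q : Clause k n × Clause k n =>
    NS ε (insert q.1 F) ∧ ¬ Sat (insert q.2 (insert q.1 F)))).card : ℝ)

/-- number of triples `(x, y, z)` with `F + x + y` in `NS` and `F + x + y + z` unsatisfiable -/
def P2 (ε : ℝ) (F : Form k n) : ℝ :=
  ((univ.filter (fun q : Clause k n × Clause k n × Clause k n =>
    NS ε (insert q.2.1 (insert q.1 F)) ∧
      ¬ Sat (insert q.2.2 (insert q.2.1 (insert q.1 F))))).card : ℝ)

/-- number of clauses `x` with `F + x` in `NS` but `U (F + x) > c N` -/
def JJ (ε c : ℝ) (F : Form k n) : ℝ :=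
  ((univ.filter (fun x : Clause k n =>
    NS ε (insert x F) ∧ c * NN k n < U ε (insert x F))).card : ℝ)

/-- the triples of step 2 -/
def Tr (ε : ℝ) (F : Form k n) (D C E : Clause k n) : Prop :=
  NS ε (insert D F) ∧
  Sat (insert C (insert D F)) ∧ HasL ε (insert C (insert D F)) ∧
  Sat (insert E (insert D F)) ∧ HasL ε (insert E (insert D F)) ∧
  ∀ a, Sol a (insert C (insert D F)) → ∀ e ∈ E.lits, ¬ Tru a e

/-- the exceptional pairs of step 3 -/
def Bad (ε : ℝ) (F : Form k n) (D C : Clause k n) : Prop :=
  ¬ NS ε (insert C F) ∨ ∃ d ∈ D.lits, ¬ ∃ a, Sol a (insert C F) ∧ Tru a d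

/-- `C` and `E` have no common variable -/
def VD (C E : Clause k n) : Prop := ∀ c ∈ C.lits, ∀ e ∈ E.lits, c.1 ≠ e.1

/-- the pairs of step 4 -/
def Qr (ε : ℝ) (F : Form k n) (D Y : Clause k n) : Prop :=
  NS ε (insert Y (insert D F)) ∧ ∀ a, Sol a (insert Y (insert D F)) → ∀ d ∈ D.lits, Tru a d

/-- number of pairs of step 4 -/
def QN (ε : ℝ) (F : Form k n) : ℝ :=
  ((univ.filter (fun q : Clause k n × Clause k n => Qr ε F q.1 q.2)).card : ℝ)

/-! ### random orderings of a finite set -/

/-- indicator -/
def ind (P : Prop) : ℝ := if P then 1 else 0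

/-- orderings of a finite type -/
abbrev Ord (Ω : Type) [Fintype Ω] := Fin (Fintype.card Ω) ≃ Ω

variable {Ω : Type} [Fintype Ω] [DecidableEq Ω]

/-- the set of the first `m` elements -/
def st (σ : Ord Ω) (m : ℕ) : Finset Ω := univ.filter (fun x => (σ.symm x : ℕ) < m)

/-- average over all orderings -/
def avg (f : Ord Ω → ℝ) : ℝ := (∑ σ : Ord Ω, f σ) / (Fintype.card (Ord Ω) : ℝ)

/-- one step of the process -/
def PP (g : Finset Ω → ℝ) (F : Finset Ω) : ℝ :=
  (∑ x ∈ univ \ F, g (insert x F)) / ((Fintype.card Ω : ℝ) - F.card)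

/-- probability of the jump at the next step, at the second next step, at the third next step,
along states with `A` -/
def q0 (A K : Finset Ω → Prop) (F : Finset Ω) : ℝ := ind (A F) * PP (fun G => ind (K G)) F
def q1 (A K : Finset Ω → Prop) (F : Finset Ω) : ℝ := ind (A F) * PP (q0 A K) F
def q2 (A K : Finset Ω → Prop) (F : Finset Ω) : ℝ := ind (A F) * PP (q1 A K) F

/-- probability that the process jumps from `A` to `K` -/
def pj (A K : Finset Ω → Prop) : ℝ :=
  avg (fun σ : Ord Ω => ind (∃ m, m < Fintype.card Ω ∧ A (st σ m) ∧ K (st σ (m + 1))))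

end

end Pool.Agent.H921S
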