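import Pool.Agent.H921S.Stm

set_option autoImplicit false

/-! Markov property of the initial segments of a random ordering. -/

namespace Pool.Agent.H921S

open Finset
open scoped Classical

noncomputable section

section MKaux

variable {Ω : Type} [Fintype Ω] [DecidableEq Ω]

theorem MK_mem_st (σ : Ord Ω) (m : ℕ) (x : Ω) : x ∈ st σ m ↔ (σ.symm x : ℕ) < m := by
  unfold st
  simp

theorem MK_card_st (σ : Ord Ω) (m : ℕ) (hm : m ≤ Fintype.card Ω) : (st σ m).card = m := by
  have h1 : st σ m = (univ.filter (fun i : Fin (Fintype.card Ω) => (i : ℕ) < m)).map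
      σ.toEmbedding := by
    ext x
    rw [MK_mem_st, Finset.mem_map]
    constructor
    · intro h
      exact ⟨σ.symm x, by simpa using h, by simp⟩
    · rintro ⟨i, hi, rfl⟩
      simpa using hi
  rw [h1, Finset.card_map, Fin.card_filter_val_lt]
  omega

theorem MK_st_succ (σ : Ord Ω) (m : ℕ) (hm : m < Fintype.card Ω) :
    st σ (m + 1) = insert (σ ⟨m, hm⟩) (st σ m) := by
  ext x
  rw [Finset.mem_insert, MK_mem_st, MK_mem_st]
  constructor
  · intro h
    by_cases h2 : (σ.symm x : ℕ) < m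
    · exact Or.inr h2
    · left
      have h3 : σ.symm x = ⟨m, hm⟩ := by
        apply Fin.ext
        show (σ.symm x : ℕ) = m
        omega
      rw [← h3, Equiv.apply_symm_apply]
  · rintro (h | h)
    · rw [h, Equiv.symm_apply_apply]
      show m < m + 1
      omega
    · omega

/-- exchange of two positions -/
def MK_e (a j : Fin (Fintype.card Ω)) : Ord Ω ≃ Ord Ω where
  toFun σ := (Equiv.swap a j).trans σ
  invFun σ := (Equiv.swap a j).trans σ
  left_inv σ := by
    ext x
    simp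
  right_inv σ := by
    ext x
    simp

theorem MK_e_apply (a j : Fin (Fintype.card Ω)) (σ : Ord Ω) : MK_e a j σ a = σ j := by
  show σ (Equiv.swap a j a) = σ j
  rw [Equiv.swap_apply_left]

theorem MK_e_st (m : ℕ) (hm : m < Fintype.card Ω) (j : Fin (Fintype.card Ω)) (hj : m ≤ (j : ℕ))
    (σ : Ord Ω) : st (MK_e ⟨m, hm⟩ j σ) m = st σ m := by
  ext x
  rw [MK_mem_st, MK_mem_st]
  have h1 : (MK_e ⟨m, hm⟩ j σ).symm x = Equiv.swap ⟨m, hm⟩ j (σ.symm x) := by
    show ((Equiv.swap ⟨m, hm⟩ j).trans σ).symm x = _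
    rw [Equiv.symm_trans_apply, Equiv.symm_swap]
  rw [h1]
  by_cases h2 : σ.symm x = ⟨m, hm⟩
  · rw [h2, Equiv.swap_apply_left]
    show (j : ℕ) < m ↔ m < m
    omega
  · by_cases h3 : σ.symm x = j
    · rw [h3, Equiv.swap_apply_right]
      show m < m ↔ (j : ℕ) < m
      omega
    · rw [Equiv.swap_apply_of_ne_of_ne h2 h3]

theorem MK_sum_j (m : ℕ) (hm : m < Fintype.card Ω) (f g : Finset Ω → ℝ)
    (j : Fin (Fintype.card Ω)) (hj : m ≤ (j : ℕ)) :
    ∑ σ : Ord Ω, f (st σ m) * g (st σ (m + 1)) =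
      ∑ σ : Ord Ω, f (st σ m) * g (insert (σ j) (st σ m)) := by
  rw [← (MK_e (⟨m, hm⟩ : Fin (Fintype.card Ω)) j).sum_comp]
  apply Finset.sum_congr rfl
  intro σ _
  rw [MK_st_succ _ m hm, MK_e_st m hm j hj, MK_e_apply]

theorem MK_sum_x (m : ℕ) (g : Finset Ω → ℝ) (σ : Ord Ω) :
    ∑ j ∈ univ.filter (fun j : Fin (Fintype.card Ω) => m ≤ (j : ℕ)),
      g (insert (σ j) (st σ m)) = ∑ x ∈ univ \ st σ m, g (insert x (st σ m)) := by
  have h1 : univ \ st σ m =
      (univ.filter (fun j : Fin (Fintype.card Ω) => m ≤ (j : ℕ))).map σ.toEmbedding := by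
    ext x
    rw [Finset.mem_sdiff, MK_mem_st, Finset.mem_map]
    constructor
    · rintro ⟨_, h⟩
      exact ⟨σ.symm x, by simpa using h, by simp⟩
    · rintro ⟨i, hi, rfl⟩
      refine ⟨Finset.mem_univ _, ?_⟩
      simpa using hi
  rw [h1, Finset.sum_map]
  rfl

end MKaux

theorem MK_thm : T_MK := by
  intro Ω _ _ m f g hm
  have hcard : (univ.filter (fun j : Fin (Fintype.card Ω) => m ≤ (j : ℕ))).card =
      Fintype.card Ω - m := by
    have h1 := Finset.card_filter_add_card_filter_not (s := (univ : Finset (Fin (Fintype.card Ω))))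
      (fun j : Fin (Fintype.card Ω) => (j : ℕ) < m)
    rw [Fin.card_filter_val_lt, Finset.card_univ, Fintype.card_fin] at h1
    have h2 : (univ.filter (fun j : Fin (Fintype.card Ω) => m ≤ (j : ℕ))) =
        (univ.filter (fun j : Fin (Fintype.card Ω) => ¬ (j : ℕ) < m)) := by
      apply Finset.filter_congr
      intro j _
      omega
    rw [h2]
    omega
  have hc : ((Fintype.card Ω : ℝ) - m) ≠ 0 := by
    have : (m : ℝ) < Fintype.card Ω := by exact_mod_cast hm
    linarith
  have h1 : ((Fintype.card Ω : ℝ) - m) * ∑ σ : Ord Ω, f (st σ m) * g (st σ (m + 1)) =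
      ∑ σ : Ord Ω, f (st σ m) * ∑ x ∈ univ \ st σ m, g (insert x (st σ m)) := by
    have h2 : ∑ j ∈ univ.filter (fun j : Fin (Fintype.card Ω) => m ≤ (j : ℕ)),
        ∑ σ : Ord Ω, f (st σ m) * g (st σ (m + 1)) =
        ∑ j ∈ univ.filter (fun j : Fin (Fintype.card Ω) => m ≤ (j : ℕ)),
        ∑ σ : Ord Ω, f (st σ m) * g (insert (σ j) (st σ m)) := by
      apply Finset.sum_congr rfl
      intro j hj
      exact MK_sum_j m hm f g j (by simpa using hj)
    rw [Finset.sum_const, hcard, nsmul_eq_mul, Nat.cast_sub hm.le, Finset.sum_comm] at h2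
    rw [h2]
    apply Finset.sum_congr rfl
    intro σ _
    rw [← Finset.mul_sum, MK_sum_x]
  unfold avg
  congr 1
  have h3 : ∑ σ : Ord Ω, f (st σ m) * PP g (st σ m) =
      (∑ σ : Ord Ω, f (st σ m) * ∑ x ∈ univ \ st σ m, g (insert x (st σ m))) /
        ((Fintype.card Ω : ℝ) - m) := by
    rw [Finset.sum_div]
    apply Finset.sum_congr rfl
    intro σ _
    unfold PP
    rw [MK_card_st σ m hm.le, mul_div_assoc]
  rw [h3, ← h1, mul_div_cancel_left₀ _ hc]

end

end Pool.Agent.H921S
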