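import Pool.Agent.H921S.Defs

/-!
# Statements of the tasks (strict version of MP_284d10)
-/

set_option autoImplicit false

namespace Pool.Agent.H921S

open Finset
open scoped Classical

noncomputable section

/-! ### the process -/

/-- MK: Markov property of the process of initial segments -/
def T_MK : Prop := ∀ (Ω : Type) [Fintype Ω] [DecidableEq Ω] (m : ℕ) (f g : Finset Ω → ℝ),
  m < Fintype.card Ω →
  avg (fun σ : Ord Ω => f (st σ m) * g (st σ (m + 1))) =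
    avg (fun σ : Ord Ω => f (st σ m) * PP g (st σ m))

/-- SUBA -/
def T_SUBA : Prop := ∀ (Ω : Type) [Fintype Ω] [DecidableEq Ω] (A : Finset Ω) (m : ℕ),
  m ≤ Fintype.card Ω →
  avg (fun σ : Ord Ω => ind (st σ m ⊆ A)) ≤ ((A.card : ℝ) / Fintype.card Ω) ^ m

/-- SUBS -/
def T_SUBS : Prop := ∀ (Ω : Type) [Fintype Ω] [DecidableEq Ω] (S : Finset Ω) (m : ℕ),
  m ≤ Fintype.card Ω →
  avg (fun σ : Ord Ω => ind (S ⊆ st σ m)) ≤ ((m : ℝ) / Fintype.card Ω) ^ S.card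

/-- SUM: summation over the time -/
def T_SUM : Prop := ∀ (Ω : Type) [Fintype Ω] [DecidableEq Ω] (A K R : Finset Ω → Prop) (M : ℕ)
  (c : ℝ), M + 3 ≤ Fintype.card Ω → 0 < c →
  (∀ F G : Finset Ω, F ⊆ G → A G → A F) → (∀ F, K F → ¬ A F) → A ∅ → ¬ R ∅ →
  (∀ F : Finset Ω, F.card ≤ M → A F → ¬ R F →
    c * PP (fun G => ind (¬ A G)) F ≤ q0 A K F + q1 A K F + q2 A K F ∧
    c * PP (fun G => ind (R G)) F ≤ q0 A K F + q1 A K F + q2 A K F) →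
  avg (fun σ : Ord Ω => ind (¬ A (st σ M))) ≤ 6 / c * pj A K

/-! ### counting clauses -/

/-- CARD -/
def T_CARD : Prop := ∀ k n : ℕ, Fintype.card (Clause k n) = 2 ^ k * n.choose k

/-- CNT0: clauses inside a consistent set of literals -/
def T_CNT0 : Prop := ∀ (k : ℕ) (θ : ℝ), 1 ≤ k → 0 < θ → ∃ n0 : ℕ, ∀ n ≥ n0,
  ∀ B : Finset (Lit n), (∀ l ∈ B, (l.1, !l.2) ∉ B) → θ * n ≤ B.card →
  (θ / 4) ^ k * NN k n ≤ ((univ.filter (fun C : Clause k n => C.lits ⊆ B)).card : ℝ)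

/-- CNT1: clauses containing a given literal -/
def T_CNT1 : Prop := ∀ (k n : ℕ) (l : Lit n),
  2 * (n : ℝ) * ((univ.filter (fun C : Clause k n => l ∈ C.lits)).card : ℝ) = k * NN k n

/-- CNT3: clauses containing given `k - 1` literals -/
def T_CNT3 : Prop := ∀ (k n : ℕ) (S : Finset (Lit n)), S.card + 1 = k →
  ((univ.filter (fun C : Clause k n => S ⊆ C.lits)).card : ℝ) ≤ 2 * n

/-- CNT4 -/
def T_CNT4 : Prop := ∀ k : ℕ, 3 ≤ k → ∀ L : ℕ, ∃ n0 : ℕ, ∀ n ≥ n0,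
  2 * (L * n + 10) ≤ Fintype.card (Clause k n) ∧
  (2 : ℝ) ^ k * (n : ℝ) ^ k ≤ (k : ℝ) ^ k * NN k n

/-- VDC: pairs of clauses with a common variable -/
def T_VDC : Prop := ∀ k n : ℕ, 1 ≤ n →
  ((univ.filter (fun q : Clause k n × Clause k n => ¬ VD q.1 q.2)).card : ℝ) ≤
    (k : ℝ) ^ 2 / n * NN k n ^ 2

/-! ### uniquely satisfiable formulas -/

/-- CRIT: every variable has its own critical clause -/
def T_CRIT : Prop := ∀ (k n : ℕ) (H : Form k n), USS H → (vars H).card ≤ H.card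

/-- LATE: unsatisfiable at time `2^k n` -/
def T_LATE : Prop := ∀ k : ℕ, 3 ≤ k → ∀ γ : ℝ, 0 < γ → ∃ n0 : ℕ, ∀ n ≥ n0,
  avg (fun σ : Ord (Clause k n) => ind (Sat (st σ (2 ^ k * n)))) ≤ γ

/-- SM1: union bound for small uniquely satisfiable subformulas -/
def T_SM1 : Prop := ∀ (k n M : ℕ) (ε : ℝ), M ≤ Fintype.card (Clause k n) →
  avg (fun σ : Ord (Clause k n) =>
    ind (∃ H ⊆ st σ M, USS H ∧ ((vars H).card : ℝ) < ε * n)) ≤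
  ∑ h ∈ (range (n + 1)).filter (fun h => k ≤ h ∧ (h : ℝ) < ε * n),
    (n.choose h : ℝ) * ((2 ^ k * h.choose k).choose h : ℝ) * ((M : ℝ) / NN k n) ^ h

/-- SM2: the numerical estimate -/
def T_SM2 : Prop := ∀ k : ℕ, 3 ≤ k → ∀ L : ℕ, ∃ ε : ℝ, 0 < ε ∧ ε ≤ 1 ∧
  ∀ γ : ℝ, 0 < γ → ∃ n0 : ℕ, ∀ n ≥ n0,
  ∑ h ∈ (range (n + 1)).filter (fun h => k ≤ h ∧ (h : ℝ) < ε * n),
    (n.choose h : ℝ) * ((2 ^ k * h.choose k).choose h : ℝ) *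
      (((L * n : ℕ) : ℝ) / ((2 ^ k * n.choose k : ℕ) : ℝ)) ^ h ≤ γ

/-- WB: a large uniquely satisfiable subformula gives many clauses that kill -/
def T_WB : Prop := ∀ (k : ℕ) (ε : ℝ), 2 ≤ k → 0 < ε → ∃ n0 : ℕ, ∀ n ≥ n0, ∀ G : Form k n,
  Sat G → HasL ε G →
  (ε / 4) ^ k * NN k n ≤
    ((univ.filter (fun E : Clause k n => ∀ a, Sol a G → ∀ e ∈ E.lits, ¬ Tru a e)).card : ℝ)

/-! ### the deterministic part -/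

/-- D1 -/
def T_D1 : Prop := ∀ (k n : ℕ) (ε κ : ℝ), 0 ≤ κ → κ ≤ 1 →
  (∀ G : Form k n, Sat G → HasL ε G → 2 * κ * NN k n ≤
    ((univ.filter (fun E : Clause k n => ∀ a, Sol a G → ∀ e ∈ E.lits, ¬ Tru a e)).card : ℝ)) →
  ∀ F : Form k n, NS ε F → U ε F ≤ κ * NN k n → κ * U ε F ≤ P0 F + P1 ε F / NN k n

/-- D2 -/
def T_D2 : Prop := ∀ (k n : ℕ) (ε κ : ℝ), 0 ≤ κ → κ ≤ 1 →
  (∀ G : Form k n, NS ε G → U ε G ≤ κ * NN k n → κ * U ε G ≤ P0 G + P1 ε G / NN k n) →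
  ∀ F : Form k n, NS ε F → U ε F ≤ κ / 4 * NN k n → JJ ε κ F ≤ κ / 4 * NN k n →
  κ ^ 2 / 2 * JJ ε κ F * NN k n ≤ P1 ε F + P2 ε F / NN k n

/-- D3a: many triples -/
def T_D3a : Prop := ∀ (k n : ℕ) (ε κ κ' κ4 κ5 : ℝ), 0 ≤ κ → 0 ≤ κ' → κ' ≤ 1 → 0 ≤ κ4 → 0 ≤ κ5 →
  (∀ G : Form k n, Sat G → HasL ε G → κ' * NN k n ≤
    ((univ.filter (fun E : Clause k n => ∀ a, Sol a G → ∀ e ∈ E.lits, ¬ Tru a e)).card : ℝ)) →
  ∀ F : Form k n, κ4 * NN k n ≤ JJ ε κ F →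
    P1 ε F ≤ κ5 * NN k n ^ 2 → P2 ε F ≤ κ5 * NN k n ^ 3 →
  (κ4 * κ * κ' - 3 * κ5) * NN k n ^ 3 ≤
    ((univ.filter (fun q : Clause k n × Clause k n × Clause k n =>
      Tr ε F q.1 q.2.1 q.2.2)).card : ℝ)

/-- D3b: few exceptional pairs -/
def T_D3b : Prop := ∀ (k : ℕ) (θ : ℝ), 1 ≤ k → 0 < θ → ∃ n0 : ℕ, ∀ n ≥ n0, ∀ (ε : ℝ)
  (F : Form k n),
  ((univ.filter (fun q : Clause k n × Clause k n => Bad ε F q.1 q.2)).card : ℝ) ≤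
    U ε F * NN k n + (4 / θ) ^ k * P1 ε F + k * θ / 2 * NN k n ^ 2

/-- D3c: mixing -/
def T_D3c : Prop := ∀ (k n : ℕ) (ε : ℝ) (F : Form k n) (D C E : Clause k n), 2 ≤ k →
  NS ε F → Tr ε F D C E → ¬ Bad ε F D C → ¬ Bad ε F D E → VD C E →
  ∃ Y : Clause k n, Qr ε F D Y ∧ ∃ c ∈ C.lits, c ∈ Y.lits ∧ Y.lits.erase c ⊆ E.lits

/-- D3d: projection -/
def T_D3d : Prop := ∀ (k n : ℕ) (ε : ℝ) (F : Form k n), 2 ≤ k → 1 ≤ n → NS ε F →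
  ((univ.filter (fun q : Clause k n × Clause k n × Clause k n =>
      Tr ε F q.1 q.2.1 q.2.2 ∧ ¬ Bad ε F q.1 q.2.1 ∧ ¬ Bad ε F q.1 q.2.2 ∧
        VD q.2.1 q.2.2)).card : ℝ) ≤
    (k : ℝ) ^ 2 * NN k n * QN ε F

/-- D3e: large backbone without uniquely satisfiable subformula -/
def T_D3e : Prop := ∀ (k : ℕ) (κ8 : ℝ), 3 ≤ k → 0 < κ8 → ∃ κ9 : ℝ, 0 < κ9 ∧
  ∃ n0 : ℕ, ∀ n ≥ n0, ∀ (ε : ℝ) (F : Form k n), κ8 * NN k n ^ 2 ≤ QN ε F →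
    κ9 * NN k n ^ 3 ≤ P2 ε F

/-- D3: assembly -/
def T_D3 : Prop := ∀ (k : ℕ) (ε κ : ℝ), 3 ≤ k → 0 < ε → ε ≤ 1 → 0 < κ → κ ≤ 1 →
  ∃ κ3 κ5 : ℝ, 0 < κ3 ∧ 0 < κ5 ∧ ∃ n0 : ℕ, ∀ n ≥ n0, ∀ F : Form k n, NS ε F →
    U ε F ≤ κ3 * NN k n → κ / 4 * NN k n ≤ JJ ε κ F →
    κ5 ≤ P1 ε F / NN k n ^ 2 + P2 ε F / NN k n ^ 3

/-- QQ: from counts to probabilities -/
def T_QQ : Prop := ∀ (k n : ℕ) (ε : ℝ) (F : Form k n), NS ε F →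
  2 * (F.card + 3) ≤ Fintype.card (Clause k n) →
  P0 F / NN k n + P1 ε F / NN k n ^ 2 + P2 ε F / NN k n ^ 3 ≤
    3 * (q0 (NS ε) (fun G => ¬ Sat G) F + q1 (NS ε) (fun G => ¬ Sat G) F +
      q2 (NS ε) (fun G => ¬ Sat G) F)

/-- DET: the deterministic inequalities -/
def T_DET : Prop := ∀ (k : ℕ) (ε : ℝ) (L : ℕ), 3 ≤ k → 0 < ε → ε ≤ 1 →
  ∃ c κ : ℝ, 0 < c ∧ 0 < κ ∧ ∃ n0 : ℕ, ∀ n ≥ n0, ∀ F : Form k n, F.card ≤ L * n → NS ε F →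
    ¬ (NS ε F ∧ κ * NN k n < U ε F) →
    c * PP (fun G : Form k n => ind (¬ NS ε G)) F ≤
      q0 (NS ε) (fun G => ¬ Sat G) F + q1 (NS ε) (fun G => ¬ Sat G) F +
        q2 (NS ε) (fun G => ¬ Sat G) F ∧
    c * PP (fun G : Form k n => ind (NS ε G ∧ κ * NN k n < U ε G)) F ≤
      q0 (NS ε) (fun G => ¬ Sat G) F + q1 (NS ε) (fun G => ¬ Sat G) F +
        q2 (NS ε) (fun G => ¬ Sat G) F

/-- FIN: the theorem -/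
def T_FIN : Prop := ∀ k : ℕ, 3 ≤ k → ∃ δ : ℝ, 0 < δ ∧ ∃ n0 : ℕ, ∀ n ≥ n0,
  δ ≤ avg (fun σ : Ord (Clause k n) => ind (∀ m, Sat (st σ m) → ¬ HasUSS (st σ m)))

end

end Pool.Agent.H921S
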